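import Pool.Agent.Lib.MP_8317a8_co.Rigid

set_option autoImplicit false

namespace KalaiRank

open Finset Module

/-- `Bd G w A k`: the vertex set `A` can be built one vertex at a time in the link graph of `w`,
a new vertex costing `2`, `1` or `0` according as `0`, `1` or `2` earlier neighbours are used, with
total cost `k`. -/
inductive Bd {V : Type*} [DecidableEq V] (G : Finset (Finset V)) (w : V) : Finset V → ℕ → Prop
  | nil : Bd G w ∅ 0
  | add2 {A : Finset V} {k : ℕ} (h : Bd G w A k) (t : V) : Bd G w (insert t A) (k + 2)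
  | add1 {A : Finset V} {k : ℕ} (h : Bd G w A k) (t a : V) (ha : a ∈ A) (hta : Tri G w t a) :
      Bd G w (insert t A) (k + 1)
  | add0 {A : Finset V} {k : ℕ} (h : Bd G w A k) (t a b : V) (ha : a ∈ A) (hb : b ∈ A)
      (hab : a ≠ b) (hta : Tri G w t a) (htb : Tri G w t b) : Bd G w (insert t A) k

section

variable {V : Type*} [DecidableEq V] {G : Finset (Finset V)} {w : V}

theorem Tri.ne12 (h3 : ∀ e ∈ G, e.card = 3) {a b c : V} (h : Tri G a b c) : a ≠ b := by
  rintro rfl
  have h1 := h3 _ h
  have h2 : ({a, a, c} : Finset V) = {a, c} := by simp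
  rw [h2] at h1
  have := Finset.card_le_two (a := a) (b := c)
  omega

theorem Tri.ne23 (h3 : ∀ e ∈ G, e.card = 3) {a b c : V} (h : Tri G a b c) : b ≠ c :=
  Tri.ne12 h3 h.swap12.swap23.swap12.swap23.swap12 |> fun _ => by
    rintro rfl
    have h1 := h3 _ h
    have h2 : ({a, b, b} : Finset V) = {a, b} := by simp
    rw [h2] at h1
    have := Finset.card_le_two (a := a) (b := b)
    omega

theorem Tri.ne13 (h3 : ∀ e ∈ G, e.card = 3) {a b c : V} (h : Tri G a b c) : a ≠ c :=
  Tri.ne12 h3 h.swap23

theorem Bd.attachSet {A : Finset V} {k : ℕ} (h : Bd G w A k) (B : Finset V)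
    (hB : ∀ t ∈ B, t ∉ A → ∃ a ∈ A, ∃ b ∈ A, a ≠ b ∧ Tri G w t a ∧ Tri G w t b) :
    Bd G w (A ∪ B) k := by
  induction B using Finset.induction_on with
  | empty => simpa using h
  | insert t B ht ih =>
    have h1 := ih (fun t' ht' => hB t' (Finset.mem_insert_of_mem ht'))
    by_cases htA : t ∈ A
    · have : A ∪ insert t B = A ∪ B := by
        ext y
        simp only [Finset.mem_union, Finset.mem_insert]
        constructor
        · rintro (h | rfl | h)
          · exact Or.inl h
          · exact Or.inl htA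
          · exact Or.inr h
        · rintro (h | h)
          · exact Or.inl h
          · exact Or.inr (Or.inr h)
      rwa [this]
    · obtain ⟨a, ha, b, hb, hab, h2, h3⟩ := hB t (Finset.mem_insert_self t B) htA
      rw [Finset.union_insert]
      exact h1.add0 t a b (Finset.mem_union_left _ ha) (Finset.mem_union_left _ hb) hab h2 h3

theorem Bd.finish {A U : Finset V} {k : ℕ} (h : Bd G w A k) (hA : ∀ a ∈ A, a ∈ U ∧ a ≠ w)
    (hr : ∀ t ∈ U, t ≠ w → t ∉ A → ∃ a ∈ A, ∃ b ∈ A, a ≠ b ∧ Tri G w t a ∧ Tri G w t b) :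
    Bd G w (U.erase w) k := by
  have h1 := h.attachSet (U.erase w) (fun t ht htA => by
    rw [Finset.mem_erase] at ht
    exact hr t ht.2 ht.1 htA)
  have : A ∪ U.erase w = U.erase w := by
    rw [Finset.union_eq_right]
    intro a ha
    rw [Finset.mem_erase]
    exact ⟨(hA a ha).2, (hA a ha).1⟩
  rwa [this] at h1

/-- The number of ordered adjacent pairs of the link of `w` in `B`. -/
def NN (G : Finset (Finset V)) (w : V) (B : Finset V) : ℕ :=
  ((B ×ˢ B).filter (fun p => Tri G w p.1 p.2)).card

/-- The degree of `t` in the link of `w`, inside `B`. -/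
def dg (G : Finset (Finset V)) (w : V) (B : Finset V) (t : V) : ℕ :=
  (B.filter (fun a => Tri G w t a)).card

theorem NN_eq_sum (B : Finset V) : NN G w B = ∑ t ∈ B, dg G w B t := by
  unfold NN dg
  rw [Finset.card_filter, Finset.sum_product]
  refine Finset.sum_congr rfl fun t _ => ?_
  rw [Finset.card_filter]

theorem NN_erase (h3 : ∀ e ∈ G, e.card = 3) (B : Finset V) (t : V) (ht : t ∈ B) :
    NN G w B = NN G w (B.erase t) + 2 * dg G w B t := by
  have h1 : ∀ a ∈ B.erase t, dg G w B a = dg G w (B.erase t) a + (if Tri G w a t then 1 else 0) := by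
    intro a ha
    unfold dg
    rw [Finset.card_filter, Finset.card_filter, ← Finset.add_sum_erase B _ ht, add_comm]
  have h2 : ∑ a ∈ B.erase t, (if Tri G w a t then 1 else 0) = dg G w B t := by
    unfold dg
    rw [Finset.card_filter, ← Finset.add_sum_erase B _ ht]
    have : ¬ Tri G w t t := fun h => (Tri.ne23 h3 h) rfl
    rw [if_neg this, zero_add]
    refine Finset.sum_congr rfl fun a _ => ?_
    by_cases h : Tri G w a t
    · rw [if_pos h, if_pos h.swap23]
    · rw [if_neg h, if_neg (fun h' => h h'.swap23)]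
  rw [NN_eq_sum, NN_eq_sum, ← Finset.add_sum_erase B _ ht, Finset.sum_congr rfl h1,
    Finset.sum_add_distrib, h2]
  ring

/-- Building `A` when the new vertex has a known number of neighbours. -/
theorem Bd.addDeg {A : Finset V} {k : ℕ} (h : Bd G w A k) (t : V) :
    Bd G w (insert t A) (k + (2 - dg G w A t)) := by
  rcases Nat.lt_or_ge (dg G w A t) 1 with h0 | h0
  · have : dg G w A t = 0 := by omega
    rw [this]
    exact h.add2 t
  · rcases Nat.lt_or_ge (dg G w A t) 2 with h1 | h1
    · have he : dg G w A t = 1 := by omega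
      rw [he]
      have hpos : 0 < (A.filter (fun a => Tri G w t a)).card := h0
      obtain ⟨a, ha⟩ := Finset.card_pos.1 hpos
      rw [Finset.mem_filter] at ha
      exact h.add1 t a ha.1 ha.2
    · have he : 2 - dg G w A t = 0 := by omega
      rw [he]
      have hlt : 1 < (A.filter (fun a => Tri G w t a)).card := h1
      obtain ⟨a, ha, b, hb, hab⟩ := Finset.one_lt_card.1 hlt
      rw [Finset.mem_filter] at ha hb
      exact h.add0 t a b ha.1 hb.1 hab ha.2 hb.2

/-- Peeling lemma. -/
theorem peel (h3 : ∀ e ∈ G, e.card = 3) (m : ℕ) (B : Finset V)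
    (hB : ∀ B' ⊆ B, B'.Nonempty → (∀ t ∈ B', 3 ≤ dg G w B' t) →
      ∃ t ∈ B', m ≤ 4 + NN G w (B'.erase t)) :
    ∃ k, Bd G w B k ∧ 2 * k + min (NN G w B) m ≤ 4 * B.card := by
  induction hn : B.card generalizing B with
  | zero =>
    rw [Finset.card_eq_zero] at hn
    subst hn
    exact ⟨0, Bd.nil, by simp [NN]⟩
  | succ n ih =>
    have hne : B.Nonempty := by
      rw [← Finset.card_pos]; omega
    have hstep : ∀ t ∈ B, ∃ k', Bd G w (B.erase t) k' ∧
        2 * k' + min (NN G w (B.erase t)) m ≤ 4 * n := by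
      intro t ht
      have hc : (B.erase t).card = n := by
        rw [Finset.card_erase_of_mem ht, hn]; rfl
      exact ih (B.erase t) (fun B' hB' => hB B' (hB'.trans (Finset.erase_subset _ _))) hc
    have hdg : ∀ t ∈ B, dg G w (B.erase t) t = dg G w B t := by
      intro t ht
      unfold dg
      congr 1
      ext a
      simp only [Finset.mem_filter, Finset.mem_erase]
      constructor
      · rintro ⟨⟨_, h1⟩, h2⟩; exact ⟨h1, h2⟩
      · rintro ⟨h1, h2⟩
        exact ⟨⟨(Tri.ne23 h3 h2).symm, h1⟩, h2⟩
    by_cases hlow : ∃ t ∈ B, dg G w B t ≤ 2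
    · obtain ⟨t, ht, hd⟩ := hlow
      obtain ⟨k', hk', hle⟩ := hstep t ht
      have h1 := hk'.addDeg t
      rw [Finset.insert_erase ht, hdg t ht] at h1
      refine ⟨_, h1, ?_⟩
      have h2 := NN_erase (w := w) h3 B t ht
      omega
    · push Not at hlow
      obtain ⟨t, ht, hm⟩ := hB B (Finset.Subset.refl _) hne (fun t ht => hlow t ht)
      obtain ⟨k', hk', hle⟩ := hstep t ht
      have h1 := hk'.addDeg t
      rw [Finset.insert_erase ht, hdg t ht] at h1
      refine ⟨_, h1, ?_⟩
      have h2 := hlow t ht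
      omega

/-- If all degrees are at least three, removing a vertex leaves many edges. -/
theorem NN_erase_ge (_h3 : ∀ e ∈ G, e.card = 3) (B : Finset V) (hB : ∀ t ∈ B, 3 ≤ dg G w B t)
    (t : V) (ht : t ∈ B) : 2 * (B.card - 1) ≤ NN G w (B.erase t) := by
  rw [NN_eq_sum, ← Finset.card_erase_of_mem ht]
  calc 2 * (B.erase t).card = ∑ _a ∈ B.erase t, 2 := by
        rw [Finset.sum_const, smul_eq_mul, mul_comm]
    _ ≤ ∑ a ∈ B.erase t, dg G w (B.erase t) a := by
        refine Finset.sum_le_sum fun a ha => ?_
        have h1 := hB a (Finset.mem_of_mem_erase ha)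
        have h2 : dg G w B a ≤ dg G w (B.erase t) a + 1 := by
          unfold dg
          have : B.filter (fun c => Tri G w a c) ⊆
              insert t ((B.erase t).filter (fun c => Tri G w a c)) := by
            intro c hc
            rw [Finset.mem_filter] at hc
            rw [Finset.mem_insert, Finset.mem_filter, Finset.mem_erase]
            by_cases h : c = t
            · exact Or.inl h
            · exact Or.inr ⟨⟨h, hc.1⟩, hc.2⟩
          exact (Finset.card_le_card this).trans (Finset.card_insert_le _ _)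
        omega

theorem card_ge_of_dg (h3 : ∀ e ∈ G, e.card = 3) (B : Finset V) (t : V) (ht : t ∈ B)
    (hd : 3 ≤ dg G w B t) : 4 ≤ B.card := by
  have : B.filter (fun c => Tri G w t c) ⊆ B.erase t := by
    intro c hc
    rw [Finset.mem_filter] at hc
    rw [Finset.mem_erase]
    exact ⟨(Tri.ne23 h3 hc.2).symm, hc.1⟩
  have h1 := Finset.card_le_card this
  rw [Finset.card_erase_of_mem ht] at h1
  unfold dg at hd
  have : 0 < B.card := Finset.card_pos.2 ⟨t, ht⟩
  omega

theorem peel8 (h3 : ∀ e ∈ G, e.card = 3) (B : Finset V) :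
    ∃ k, Bd G w B k ∧ 2 * k + min (NN G w B) 8 ≤ 4 * B.card := by
  apply peel h3
  rintro B' _ ⟨t, ht⟩ hd
  refine ⟨t, ht, ?_⟩
  have h1 := NN_erase_ge h3 B' hd t ht
  have h2 := card_ge_of_dg h3 B' t ht (hd t ht)
  omega

/-- A complete graph on four vertices in the link of `w`. -/
def HasK4 (G : Finset (Finset V)) (w : V) (B : Finset V) : Prop :=
  ∃ K ⊆ B, K.card = 4 ∧ ∀ a ∈ K, ∀ b ∈ K, a ≠ b → Tri G w a b

theorem peel12 (h3 : ∀ e ∈ G, e.card = 3) (B : Finset V) (hK : ¬ HasK4 G w B) :
    ∃ k, Bd G w B k ∧ 2 * k + min (NN G w B) 12 ≤ 4 * B.card := by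
  apply peel h3
  rintro B' hB' ⟨t, ht⟩ hd
  refine ⟨t, ht, ?_⟩
  have h1 := NN_erase_ge h3 B' hd t ht
  have h2 := card_ge_of_dg h3 B' t ht (hd t ht)
  have h3' : B'.card ≠ 4 := by
    intro h4
    apply hK
    refine ⟨B', hB', h4, fun a ha b hb hab => ?_⟩
    have hda := hd a ha
    have hsub : B'.filter (fun c => Tri G w a c) ⊆ B'.erase a := by
      intro c hc
      rw [Finset.mem_filter] at hc
      rw [Finset.mem_erase]
      exact ⟨(Tri.ne23 h3 hc.2).symm, hc.1⟩
    have hc : (B'.erase a).card = 3 := by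
      rw [Finset.card_erase_of_mem ha, h4]
    have heq := Finset.eq_of_subset_of_card_le hsub (by rw [hc]; exact hda)
    have hb' : b ∈ B'.erase a := Finset.mem_erase.2 ⟨Ne.symm hab, hb⟩
    rw [← heq, Finset.mem_filter] at hb'
    exact hb'.2
  omega

end

section algebra

variable {K : Type*} [Field K] {V : Type*} [DecidableEq V] [Fintype V]

theorem Sol_insert_le {s : ℕ} (G : Finset (Finset V)) (x : V → Fin s → K) (w : V) (A : Finset V)
    (t : V) (B : Submodule K (Fin s → K))
    (hB : ∀ v : Fin s → K, (∀ a ∈ A, a ≠ t → Tri G w t a → x a ⬝ᵥ v = 0) → v ∈ B) :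
    finrank K (Sol G x w (insert t A)) ≤ finrank K (Sol G x w A) + finrank K B := by
  apply finrank_le_of_two (Sol G x w (insert t A)) (Sol G x w A) B (restr K s A)
    (LinearMap.proj t)
  · intro u hu
    exact restr_mem_Sol hu.2 (Finset.subset_insert t A)
  · intro u hu h0
    apply hB
    intro a ha hat htri
    have h1 := hu.2 t (Finset.mem_insert_self t A) a (Finset.mem_insert_of_mem ha) (Ne.symm hat) htri
    have h2 : u a = 0 := by
      have := congrFun h0 a
      rwa [restr_apply, if_pos ha] at this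
    rw [h2, dotProduct_zero] at h1
    exact h1.symm
  · intro u hu h0 h1
    funext a
    by_cases ha : a ∈ A
    · have := congrFun h0 a
      rwa [restr_apply, if_pos ha] at this
    · by_cases hat : a = t
      · rw [hat]; exact h1
      · exact hu.1 a (by rw [Finset.mem_insert]; tauto)

/-- The functional `v ↦ x a ⬝ᵥ v`. -/
def dotL {s : ℕ} (y : Fin s → K) : (Fin s → K) →ₗ[K] K where
  toFun v := y ⬝ᵥ v
  map_add' u v := by rw [dotProduct_add]
  map_smul' c v := by rw [dotProduct_smul]; rfl

theorem Bd.finrank_le {G : Finset (Finset V)} (h3 : ∀ e ∈ G, e.card = 3) {w : V}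
    {x : V → Fin 2 → K} (hx : GenPos x) {A : Finset V} {k : ℕ} (h : Bd G w A k) :
    finrank K (Sol G x w A) ≤ k := by
  induction h with
  | nil =>
    have : Sol G x w ∅ = ⊥ := by
      rw [eq_bot_iff]
      rintro u ⟨hu, _⟩
      rw [Submodule.mem_bot]
      funext a
      exact hu a (by simp)
    rw [this, finrank_bot]
  | @add2 A k _ t ih =>
    have h1 := Sol_insert_le G x w A t ⊤ (fun v _ => Submodule.mem_top)
    rw [finrank_top, Module.finrank_fin_fun] at h1
    omega
  | @add1 A k _ t a ha hta ih =>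
    have h1 := Sol_insert_le G x w A t (LinearMap.ker (dotL (x a)))
      (fun v hv => by
        rw [LinearMap.mem_ker]
        exact hv a ha (Tri.ne23 h3 hta).symm hta)
    have h2 : finrank K (LinearMap.ker (dotL (x a))) < 2 := by
      have : LinearMap.ker (dotL (x a)) < ⊤ := by
        rw [lt_top_iff_ne_top]
        intro htop
        have hz : ∀ v, x a ⬝ᵥ v = 0 := by
          intro v
          have : v ∈ LinearMap.ker (dotL (x a)) := by rw [htop]; exact Submodule.mem_top
          rwa [LinearMap.mem_ker] at this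
        have hinj : Function.Injective (![a, t] : Fin 2 → V) := by
          have hne : a ≠ t := (Tri.ne23 h3 hta).symm
          intro i j hij
          fin_cases i <;> fin_cases j <;> simp_all
        have hu := hx ![a, t] hinj
        have hrow : ∀ j, x a j = 0 := by
          intro j
          have := hz (Pi.single j 1)
          rwa [dotProduct_single_one] at this
        rw [Matrix.isUnit_iff_isUnit_det, isUnit_iff_ne_zero] at hu
        apply hu
        apply Matrix.det_eq_zero_of_row_eq_zero 0
        intro j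
        simp [hrow j]
      have h4 := Submodule.finrank_lt_finrank_of_lt this
      rwa [finrank_top, Module.finrank_fin_fun] at h4
    omega
  | @add0 A k _ t a b ha hb hab hta htb ih =>
    have h1 := Sol_insert_le G x w A t ⊥ (fun v hv => by
      rw [Submodule.mem_bot]
      apply hx.eq_zero {a, b}
      · rw [Finset.card_pair hab]
      · intro c hc
        rw [Finset.mem_insert, Finset.mem_singleton] at hc
        rcases hc with rfl | rfl
        · exact hv c ha (Tri.ne23 h3 hta).symm hta
        · exact hv c hb (Tri.ne23 h3 htb).symm htb)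
    rw [finrank_bot] at h1
    omega

end algebra

end KalaiRank
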