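import Pool.Agent.Lib.MP_8317a8_co.Ramsey

set_option autoImplicit false

namespace KalaiRank

open Finset

/-- For a fixed pair `a ≠ b`, few `w ∈ Q` have both in `T w` without `w a b` being an edge. -/
theorem bad_card_le {n : ℕ} (s : ℕ) (G : Finset (Finset (Fin n))) (hG : Covers G)
    (U Q : Finset (Fin n)) (T : Fin n → Finset (Fin n)) (hQU : Q ⊆ U)
    (hQT : ∀ w ∈ Q, ∀ q ∈ Q, q ∉ T w)
    (hP : ∀ w ∈ Q, ∀ t ∈ T w,
      (U.filter (fun a => a ≠ w ∧ a ∉ T w ∧ Tri G w t a)).card < s)
    (a b : Fin n) (hab : a ≠ b) :
    (Q.filter (fun w => a ∈ T w ∧ b ∈ T w ∧ ¬ Tri G w a b)).card ≤ 2 * s := by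
  classical
  by_cases hne : (Q.filter (fun w => a ∈ T w ∧ b ∈ T w ∧ ¬ Tri G w a b)).Nonempty
  · obtain ⟨w, hw⟩ := hne
    rw [Finset.mem_filter] at hw
    obtain ⟨hwQ, haT, hbT, hnt⟩ := hw
    have hsub : (Q.filter (fun w => a ∈ T w ∧ b ∈ T w ∧ ¬ Tri G w a b)) ⊆
        insert w ((U.filter (fun q => q ≠ w ∧ q ∉ T w ∧ Tri G w a q)) ∪
          (U.filter (fun q => q ≠ w ∧ q ∉ T w ∧ Tri G w b q))) := by
      intro v hv
      rw [Finset.mem_filter] at hv
      obtain ⟨hvQ, haTv, hbTv, hntv⟩ := hv
      rw [Finset.mem_insert]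
      by_cases hvw : v = w
      · exact Or.inl hvw
      · right
        have haw : w ≠ a := fun h => hQT w hwQ w hwQ (h ▸ haT)
        have hbw : w ≠ b := fun h => hQT w hwQ w hwQ (h ▸ hbT)
        have hav : v ≠ a := fun h => hQT v hvQ v hvQ (h ▸ haTv)
        have hbv : v ≠ b := fun h => hQT v hvQ v hvQ (h ▸ hbTv)
        have hvT : v ∉ T w := hQT w hwQ v hvQ
        rcases hG w v a b (Ne.symm hvw) haw hbw hav hbv hab with h | h | h | h
        · rw [Finset.mem_union]; left
          rw [Finset.mem_filter]
          exact ⟨hQU hvQ, hvw, hvT, h.swap23⟩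
        · rw [Finset.mem_union]; right
          rw [Finset.mem_filter]
          exact ⟨hQU hvQ, hvw, hvT, h.swap23⟩
        · exact absurd h hnt
        · exact absurd h hntv
    have h1 := Finset.card_le_card hsub
    have h2 := Finset.card_insert_le w ((U.filter (fun q => q ≠ w ∧ q ∉ T w ∧ Tri G w a q)) ∪
          (U.filter (fun q => q ≠ w ∧ q ∉ T w ∧ Tri G w b q)))
    have h3 := Finset.card_union_le (U.filter (fun q => q ≠ w ∧ q ∉ T w ∧ Tri G w a q))
          (U.filter (fun q => q ≠ w ∧ q ∉ T w ∧ Tri G w b q))
    have h4 := hP w hwQ a haT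
    have h5 := hP w hwQ b hbT
    omega
  · rw [Finset.not_nonempty_iff_eq_empty] at hne
    rw [hne]; simp

/-- The combinatorial core. -/
theorem core (s P : ℕ) (hs : 1 ≤ s) : ∃ R : ℕ, ∀ (n : ℕ) (G : Finset (Finset (Fin n))), Covers G →
    ∀ (U Q : Finset (Fin n)) (T : Fin n → Finset (Fin n)) (z : Fin P → Fin n → Fin n),
    Q ⊆ U → R ≤ Q.card → (∀ w ∈ Q, T w ⊆ U) →
    (∀ w ∈ Q, ∀ q ∈ Q, q ∉ T w) →
    (∀ w ∈ Q, ∀ p, z p w ∈ T w) →
    (∀ w ∈ Q, ∀ t ∈ T w,
      (U.filter (fun a => a ≠ w ∧ a ∉ T w ∧ Tri G w t a)).card < s) →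
    ∃ w ∈ Q, ∃ Y ⊆ T w, (∀ a ∈ Y, ∀ b ∈ Y, a ≠ b → Tri G w a b) ∧
      ∀ p, z p w ∈ Y ∨ s ≤ (Y.filter (fun y => y ≠ z p w ∧ Tri G w (z p w) y)).card := by
  classical
  set B : ℕ := (4 * s * P) * (4 * s * P) * (2 * s) with hB
  set M : ℕ := 2 * s + (B + 1) + 2 * s with hM
  obtain ⟨R, hR⟩ := pair_ramsey (Fin P → Fin 5) M
  refine ⟨R, fun n G hG U Q T z hQU hRQ hTU hQT hz hP => ?_⟩
  set f : Fin n → Fin n → (Fin P → Fin 5) := fun i j p =>
    if z p i = z p j then 0 else if Tri G i (z p i) (z p j) then 1
    else if Tri G j (z p j) (z p i) then 2 else if Tri G i j (z p i) then 3 else 4 with hf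
  obtain ⟨W, hWQ, hWc, c, hc⟩ := hR n f Q hRQ
  set e := W.orderEmbOfFin hWc with he
  have heW : ∀ k, e k ∈ W := fun k => Finset.orderEmbOfFin_mem W hWc k
  have heQ : ∀ k, e k ∈ Q := fun k => hWQ (heW k)
  have helt : ∀ k l, k < l → e k < e l := fun k l h => (OrderEmbedding.lt_iff_lt e).2 h
  have hcol : ∀ k l, k < l → ∀ p, f (e k) (e l) p = c p := fun k l h p => by
    rw [hc (e k) (heW k) (e l) (heW l) (helt k l h)]
  have hMpos : 0 < M := by omega
  -- distinctness facts
  have hzQ : ∀ w ∈ Q, ∀ p, z p w ∉ Q := fun w hw p h => hQT w hw _ h (hz w hw p)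
  -- few `q` with `w q z` an edge
  have hfew : ∀ w ∈ Q, ∀ p, ∀ A : Finset (Fin n), A ⊆ Q → (∀ q ∈ A, q ≠ w ∧ Tri G w (z p w) q) →
      A.card < s := by
    intro w hw p A hA hA2
    refine lt_of_le_of_lt (Finset.card_le_card ?_) (hP w hw (z p w) (hz w hw p))
    intro q hq
    rw [Finset.mem_filter]
    exact ⟨hQU (hA hq), (hA2 q hq).1, hQT w hw q (hA hq), (hA2 q hq).2⟩
  -- colour 3 impossible
  have hc3 : ∀ p, c p ≠ 3 := by
    intro p h3
    set i0 : Fin M := ⟨0, hMpos⟩ with hi0
    have := hfew (e i0) (heQ i0) p ((Finset.univ.erase i0).image e)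
      (by
        intro q hq
        rw [Finset.mem_image] at hq
        obtain ⟨k, -, rfl⟩ := hq
        exact heQ k)
      (by
        intro q hq
        rw [Finset.mem_image] at hq
        obtain ⟨k, hk, rfl⟩ := hq
        rw [Finset.mem_erase] at hk
        have hlt : i0 < k := by
          rw [Fin.lt_def]
          have : k.val ≠ 0 := fun h => hk.1 (Fin.ext h)
          simp only [hi0]
          omega
        refine ⟨(helt _ _ hlt).ne', ?_⟩
        have h1 := hcol i0 k hlt p
        rw [h3] at h1
        simp only [hf] at h1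
        split_ifs at h1 with ha hb hc' hd <;> first | exact hd.swap23 | exact absurd h1 (by decide))
    rw [Finset.card_image_of_injective _ e.injective, Finset.card_erase_of_mem (Finset.mem_univ _),
      Finset.card_univ, Fintype.card_fin] at this
    omega
  have hc4 : ∀ p, c p ≠ 4 := by
    intro p h4
    set i0 : Fin M := ⟨M - 1, by omega⟩ with hi0
    have := hfew (e i0) (heQ i0) p ((Finset.univ.erase i0).image e)
      (by
        intro q hq
        rw [Finset.mem_image] at hq
        obtain ⟨k, -, rfl⟩ := hq
        exact heQ k)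
      (by
        intro q hq
        rw [Finset.mem_image] at hq
        obtain ⟨k, hk, rfl⟩ := hq
        rw [Finset.mem_erase] at hk
        have hlt : k < i0 := by
          rw [Fin.lt_def]
          have h1 : k.val ≠ M - 1 := fun h => hk.1 (Fin.ext h)
          have h2 := k.isLt
          simp only [hi0]
          omega
        refine ⟨(helt _ _ hlt).ne, ?_⟩
        have h1 := hcol k i0 hlt p
        rw [h4] at h1
        simp only [hf] at h1
        split_ifs at h1 with ha hb hc' hd
        · exact absurd h1 (by decide)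
        · exact absurd h1 (by decide)
        · exact absurd h1 (by decide)
        · exact absurd h1 (by decide)
        · -- 4-set `e k, e i0, z p (e k), z p (e i0)`
          have n1 : e k ≠ e i0 := (helt _ _ hlt).ne
          have n2 : e k ≠ z p (e k) := fun h => hzQ _ (heQ k) p (h ▸ heQ k)
          have n3 : e k ≠ z p (e i0) := fun h => hzQ _ (heQ i0) p (h ▸ heQ k)
          have n4 : e i0 ≠ z p (e k) := fun h => hzQ _ (heQ k) p (h ▸ heQ i0)
          have n5 : e i0 ≠ z p (e i0) := fun h => hzQ _ (heQ i0) p (h ▸ heQ i0)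
          rcases hG (e k) (e i0) (z p (e k)) (z p (e i0)) n1 n2 n3 n4 n5 ha with h | h | h | h
          · exact absurd h hd
          · exact h.swap12.swap23
          · exact absurd h hb
          · exact absurd h.swap23 hc')
    rw [Finset.card_image_of_injective _ e.injective, Finset.card_erase_of_mem (Finset.mem_univ _),
      Finset.card_univ, Fintype.card_fin] at this
    omega
  -- the blocks
  set J : Finset (Fin M) := Finset.univ.filter (fun k => k.val < 2 * s ∨ 2 * s + (B + 1) ≤ k.val)
    with hJ
  set I : Finset (Fin M) := Finset.univ.filter (fun k => 2 * s ≤ k.val ∧ k.val < 2 * s + (B + 1))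
    with hI
  have hIcard : I.card = B + 1 := by
    have : I = (Finset.univ : Finset (Fin (B + 1))).image
        (fun k => (⟨2 * s + k.val, by have := k.isLt; omega⟩ : Fin M)) := by
      ext k
      simp only [hI, Finset.mem_filter, Finset.mem_univ, true_and, Finset.mem_image]
      constructor
      · rintro ⟨h1, h2⟩
        refine ⟨⟨k.val - 2 * s, by omega⟩, ?_⟩
        apply Fin.ext
        simp only
        omega
      · rintro ⟨l, rfl⟩
        have := l.isLt
        simp only
        omega
    rw [this, Finset.card_image_of_injective, Finset.card_univ, Fintype.card_fin]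
    intro k l hkl
    simp only [Fin.mk.injEq] at hkl
    apply Fin.ext
    omega
  have hJcard : J.card ≤ 4 * s := by
    have h1 : J.card + I.card ≤ M := by
      rw [← Finset.card_union_of_disjoint]
      · calc (J ∪ I).card ≤ (Finset.univ : Finset (Fin M)).card :=
              Finset.card_le_card (Finset.subset_univ _)
          _ = M := by rw [Finset.card_univ, Fintype.card_fin]
      · rw [Finset.disjoint_left]
        intro k hk1 hk2
        simp only [hJ, hI, Finset.mem_filter, Finset.mem_univ, true_and] at hk1 hk2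
        omega
    omega
  set Z : Finset (Fin n) := (J ×ˢ (Finset.univ : Finset (Fin P))).image
    (fun jp => z jp.2 (e jp.1)) with hZ
  have hZcard : Z.card ≤ 4 * s * P := by
    refine Finset.card_image_le.trans ?_
    rw [Finset.card_product, Finset.card_univ, Fintype.card_fin]
    exact Nat.mul_le_mul_right _ hJcard
  -- a good `w`
  have hgood : ∃ k ∈ I, ∀ a ∈ Z, ∀ b ∈ Z, a ≠ b → a ∈ T (e k) → b ∈ T (e k) →
      Tri G (e k) a b := by
    by_contra hcon
    push Not at hcon
    have hsub : I.image e ⊆ ((Z ×ˢ Z).filter (fun ab => ab.1 ≠ ab.2)).biUnion (fun ab =>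
        Q.filter (fun w => ab.1 ∈ T w ∧ ab.2 ∈ T w ∧ ¬ Tri G w ab.1 ab.2)) := by
      intro w hw
      rw [Finset.mem_image] at hw
      obtain ⟨k, hk, rfl⟩ := hw
      obtain ⟨a, ha, b, hb, hab, haT, hbT, hn⟩ := hcon k hk
      rw [Finset.mem_biUnion]
      refine ⟨(a, b), ?_, ?_⟩
      · rw [Finset.mem_filter, Finset.mem_product]
        exact ⟨⟨ha, hb⟩, hab⟩
      · rw [Finset.mem_filter]
        exact ⟨heQ k, haT, hbT, hn⟩
    have h1 := Finset.card_le_card hsub
    rw [Finset.card_image_of_injective _ e.injective, hIcard] at h1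
    have h2 := Finset.card_biUnion_le_card_mul ((Z ×ˢ Z).filter (fun ab => ab.1 ≠ ab.2))
      (fun ab => Q.filter (fun w => ab.1 ∈ T w ∧ ab.2 ∈ T w ∧ ¬ Tri G w ab.1 ab.2)) (2 * s)
      (fun ab hab => bad_card_le s G hG U Q T hQU hQT hP ab.1 ab.2 (Finset.mem_filter.1 hab).2)
    have h3 : ((Z ×ˢ Z).filter (fun ab => ab.1 ≠ ab.2)).card ≤ (4 * s * P) * (4 * s * P) := by
      refine (Finset.card_filter_le _ _).trans ?_
      rw [Finset.card_product]
      exact Nat.mul_le_mul hZcard hZcard
    have h4 := Nat.mul_le_mul_right (2 * s) h3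
    omega
  obtain ⟨k, hkI, hk⟩ := hgood
  have hkI' : 2 * s ≤ k.val ∧ k.val < 2 * s + (B + 1) := by
    simpa [hI] using hkI
  refine ⟨e k, heQ k, Z.filter (fun a => a ∈ T (e k)), ?_, ?_, ?_⟩
  · intro a ha
    exact (Finset.mem_filter.1 ha).2
  · intro a ha b hb hab
    rw [Finset.mem_filter] at ha hb
    exact hk a ha.1 b hb.1 hab ha.2 hb.2
  · intro p
    -- the general counting statement
    have hcount : ∀ A : Finset (Fin M), A ⊆ J → 2 * s ≤ A.card →
        (∀ j ∈ A, ∀ j' ∈ A, z p (e j) = z p (e j') → j = j') →
        (∀ j ∈ A, z p (e j) ≠ z p (e k) ∧ Tri G (e k) (z p (e k)) (z p (e j))) →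
        s ≤ ((Z.filter (fun a => a ∈ T (e k))).filter
          (fun y => y ≠ z p (e k) ∧ Tri G (e k) (z p (e k)) y)).card := by
      intro A hAJ hAc hinj hA
      have h1 : (A.image (fun j => z p (e j))).card = A.card :=
        Finset.card_image_of_injOn (fun j hj j' hj' h => hinj j hj j' hj' h)
      have h2 : A.image (fun j => z p (e j)) ⊆
          ((Z.filter (fun a => a ∈ T (e k))).filter
            (fun y => y ≠ z p (e k) ∧ Tri G (e k) (z p (e k)) y)) ∪
          (U.filter (fun a => a ≠ e k ∧ a ∉ T (e k) ∧ Tri G (e k) (z p (e k)) a)) := by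
        intro y hy
        rw [Finset.mem_image] at hy
        obtain ⟨j, hj, rfl⟩ := hy
        rw [Finset.mem_union]
        by_cases hT : z p (e j) ∈ T (e k)
        · left
          rw [Finset.mem_filter, Finset.mem_filter]
          refine ⟨⟨?_, hT⟩, hA j hj⟩
          rw [hZ, Finset.mem_image]
          exact ⟨(j, p), by rw [Finset.mem_product]; exact ⟨hAJ hj, Finset.mem_univ _⟩, rfl⟩
        · right
          rw [Finset.mem_filter]
          refine ⟨hTU _ (heQ j) (hz _ (heQ j) p), ?_, hT, (hA j hj).2⟩
          intro h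
          exact hzQ _ (heQ j) p (h ▸ heQ k)
      have h3 := Finset.card_le_card h2
      have h4 := Finset.card_union_le ((Z.filter (fun a => a ∈ T (e k))).filter
            (fun y => y ≠ z p (e k) ∧ Tri G (e k) (z p (e k)) y))
          (U.filter (fun a => a ≠ e k ∧ a ∉ T (e k) ∧ Tri G (e k) (z p (e k)) a))
      have h5 := hP (e k) (heQ k) (z p (e k)) (hz _ (heQ k) p)
      omega
    have hinj0 : c p ≠ 0 → ∀ j j' : Fin M, z p (e j) = z p (e j') → j = j' := by
      intro hcp j j' hjj
      by_contra hne
      rcases lt_or_gt_of_ne hne with h | h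
      · have h1 := hcol j j' h p
        simp only [hf, hjj, if_true] at h1
        exact hcp h1.symm
      · have h1 := hcol j' j h p
        simp only [hf, hjj, if_true] at h1
        exact hcp h1.symm
    have hcases : c p = 0 ∨ c p = 1 ∨ c p = 2 := by
      have h3 := hc3 p
      have h4 := hc4 p
      revert h3 h4
      generalize c p = d
      revert d
      decide
    rcases hcases with h0 | h1 | h2
    · left
      set j0 : Fin M := ⟨0, hMpos⟩ with hj0
      have hlt : j0 < k := by
        rw [Fin.lt_def]; simp only [hj0]; omega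
      have h1 := hcol j0 k hlt p
      rw [h0] at h1
      simp only [hf] at h1
      have heq : z p (e j0) = z p (e k) := by
        by_contra hne
        rw [if_neg hne] at h1
        split_ifs at h1 <;> exact absurd h1 (by decide)
      rw [Finset.mem_filter]
      refine ⟨?_, hz _ (heQ k) p⟩
      rw [hZ, Finset.mem_image]
      refine ⟨(j0, p), ?_, heq⟩
      rw [Finset.mem_product]
      refine ⟨?_, Finset.mem_univ _⟩
      simp only [hJ, Finset.mem_filter, Finset.mem_univ, true_and, hj0]
      left; omega
    · right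
      -- forward: use the right block
      apply hcount (Finset.univ.filter (fun j : Fin M => 2 * s + (B + 1) ≤ j.val))
      · intro j hj
        simp only [Finset.mem_filter, Finset.mem_univ, true_and] at hj
        simp only [hJ, Finset.mem_filter, Finset.mem_univ, true_and]
        exact Or.inr hj
      · have : (Finset.univ : Finset (Fin (2 * s))).image
            (fun l => (⟨2 * s + (B + 1) + l.val, by have := l.isLt; omega⟩ : Fin M)) ⊆
            Finset.univ.filter (fun j : Fin M => 2 * s + (B + 1) ≤ j.val) := by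
          intro j hj
          rw [Finset.mem_image] at hj
          obtain ⟨l, -, rfl⟩ := hj
          simp
        have h := Finset.card_le_card this
        rwa [Finset.card_image_of_injective, Finset.card_univ, Fintype.card_fin] at h
        intro a b hab
        simp only [Fin.mk.injEq] at hab
        apply Fin.ext
        omega
      · intro j _ j' _ h
        exact hinj0 (by rw [h1]; decide) j j' h
      · intro j hj
        simp only [Finset.mem_filter, Finset.mem_univ, true_and] at hj
        have hlt : k < j := by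
          rw [Fin.lt_def]; omega
        have h := hcol k j hlt p
        rw [h1] at h
        simp only [hf] at h
        split_ifs at h with ha hb hc' hd
        · exact absurd h (by decide)
        · exact ⟨fun hh => ha hh.symm, hb⟩
        · exact absurd h (by decide)
        · exact absurd h (by decide)
        · exact absurd h (by decide)
    · right
      apply hcount (Finset.univ.filter (fun j : Fin M => j.val < 2 * s))
      · intro j hj
        simp only [Finset.mem_filter, Finset.mem_univ, true_and] at hj
        simp only [hJ, Finset.mem_filter, Finset.mem_univ, true_and]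
        exact Or.inl hj
      · have : (Finset.univ : Finset (Fin (2 * s))).image
            (fun l => (⟨l.val, by have := l.isLt; omega⟩ : Fin M)) ⊆
            Finset.univ.filter (fun j : Fin M => j.val < 2 * s) := by
          intro j hj
          rw [Finset.mem_image] at hj
          obtain ⟨l, -, rfl⟩ := hj
          simp
        have h := Finset.card_le_card this
        rwa [Finset.card_image_of_injective, Finset.card_univ, Fintype.card_fin] at h
        intro a b hab
        simp only [Fin.mk.injEq] at hab
        apply Fin.ext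
        omega
      · intro j _ j' _ h
        exact hinj0 (by rw [h2]; decide) j j' h
      · intro j hj
        simp only [Finset.mem_filter, Finset.mem_univ, true_and] at hj
        have hlt : j < k := by
          rw [Fin.lt_def]; omega
        have h := hcol j k hlt p
        rw [h2] at h
        simp only [hf] at h
        split_ifs at h with ha hb hc' hd
        · exact absurd h (by decide)
        · exact absurd h (by decide)
        · exact ⟨ha, hc'⟩
        · exact absurd h (by decide)
        · exact absurd h (by decide)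

end KalaiRank
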