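import Pool.Agent.Lib.MP_8317a8_co.Ramsey

set_option autoImplicit false

namespace KalaiRank

open Finset Module

section general

variable {K : Type*} [Field K]

theorem finrank_le_of_two {E E1 E2 : Type*} [AddCommGroup E] [Module K E]
    [AddCommGroup E1] [Module K E1] [AddCommGroup E2] [Module K E2]
    [FiniteDimensional K E] [FiniteDimensional K E1] [FiniteDimensional K E2]
    (W : Submodule K E) (A : Submodule K E1) (B : Submodule K E2)
    (f : E →ₗ[K] E1) (g : E →ₗ[K] E2)
    (h1 : ∀ y ∈ W, f y ∈ A) (h2 : ∀ y ∈ W, f y = 0 → g y ∈ B)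
    (h3 : ∀ y ∈ W, f y = 0 → g y = 0 → y = 0) :
    finrank K W ≤ finrank K A + finrank K B := by
  have hfg : ∀ y : W, (f.domRestrict W) y = f y := fun y => rfl
  rw [← LinearMap.finrank_range_add_finrank_ker (f.domRestrict W)]
  apply Nat.add_le_add
  · apply Submodule.finrank_mono
    rintro _ ⟨y, rfl⟩
    exact h1 y y.2
  · let φ : (LinearMap.ker (f.domRestrict W)) →ₗ[K] B :=
      LinearMap.codRestrict B ((g.comp W.subtype).comp (LinearMap.ker (f.domRestrict W)).subtype)
        (fun y => h2 y.1 y.1.2 (by
          have := y.2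
          rwa [LinearMap.mem_ker] at this))
    apply LinearMap.finrank_le_finrank_of_injective (f := φ)
    rw [injective_iff_map_eq_zero]
    intro y hy
    have h4 : g (y.1 : E) = 0 := by
      have := congrArg (Submodule.subtype B) hy
      simpa [φ] using this
    have h5 : f (y.1 : E) = 0 := by
      have := y.2
      rwa [LinearMap.mem_ker] at this
    apply Subtype.ext
    apply Subtype.ext
    exact h3 y.1 y.1.2 h5 h4

end general

section rigid

variable {K : Type*} [Field K] {V : Type*} [DecidableEq V] {s : ℕ}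

/-- The relations of the link of `w` on the vertex set `U`. -/
def IsSol (G : Finset (Finset V)) (x : V → Fin s → K) (w : V) (U : Finset V)
    (u : V → Fin s → K) : Prop :=
  ∀ a ∈ U, ∀ b ∈ U, a ≠ b → Tri G w a b → x a ⬝ᵥ u b = x b ⬝ᵥ u a

theorem IsSol.mono {G : Finset (Finset V)} {x : V → Fin s → K} {w : V} {U U' : Finset V}
    {u : V → Fin s → K} (h : IsSol G x w U u) (hU : U' ⊆ U) : IsSol G x w U' u :=
  fun a ha b hb hab ht => h a (hU ha) b (hU hb) hab ht

/-- The solution space, supported on `U`. -/
def Sol (G : Finset (Finset V)) (x : V → Fin s → K) (w : V) (U : Finset V) :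
    Submodule K (V → Fin s → K) where
  carrier := {u | (∀ a, a ∉ U → u a = 0) ∧ IsSol G x w U u}
  add_mem' := by
    rintro u v ⟨hu1, hu2⟩ ⟨hv1, hv2⟩
    refine ⟨fun a ha => by simp [hu1 a ha, hv1 a ha], fun a ha b hb hab ht => ?_⟩
    simp only [Pi.add_apply, dotProduct_add]
    rw [hu2 a ha b hb hab ht, hv2 a ha b hb hab ht]
  zero_mem' := ⟨fun a _ => rfl, fun a _ b _ _ _ => by simp⟩
  smul_mem' := by
    rintro c u ⟨hu1, hu2⟩
    refine ⟨fun a ha => by simp [hu1 a ha], fun a ha b hb hab ht => ?_⟩
    simp only [Pi.smul_apply, dotProduct_smul]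
    rw [hu2 a ha b hb hab ht]

theorem mem_Sol {G : Finset (Finset V)} {x : V → Fin s → K} {w : V} {U : Finset V}
    {u : V → Fin s → K} : u ∈ Sol G x w U ↔ (∀ a, a ∉ U → u a = 0) ∧ IsSol G x w U u := Iff.rfl

/-- Restriction of functions to a finite set (zero outside). -/
def restr (K : Type*) [Field K] {V : Type*} [DecidableEq V] (s : ℕ) (A : Finset V) :
    (V → Fin s → K) →ₗ[K] (V → Fin s → K) where
  toFun u := fun a => if a ∈ A then u a else 0
  map_add' u v := by
    funext a; by_cases h : a ∈ A <;> simp [h]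
  map_smul' c u := by
    funext a; by_cases h : a ∈ A <;> simp [h]

theorem restr_apply (A : Finset V) (u : V → Fin s → K) (a : V) :
    restr K s A u a = if a ∈ A then u a else 0 := rfl

theorem restr_mem_Sol {G : Finset (Finset V)} {x : V → Fin s → K} {w : V} {U A : Finset V}
    {u : V → Fin s → K} (hu : IsSol G x w U u) (hA : A ⊆ U) :
    restr K s A u ∈ Sol G x w A := by
  rw [mem_Sol]
  refine ⟨fun a ha => by rw [restr_apply, if_neg ha], fun a ha b hb hab ht => ?_⟩
  rw [restr_apply, restr_apply, if_pos ha, if_pos hb]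
  exact hu a (hA ha) b (hA hb) hab ht

theorem finrank_Sol_union_le [Fintype V] (G : Finset (Finset V)) (x : V → Fin s → K) (w : V)
    (A B : Finset V) :
    finrank K (Sol G x w (A ∪ B)) ≤ finrank K (Sol G x w A) + finrank K (Sol G x w B) := by
  apply finrank_le_of_two (Sol G x w (A ∪ B)) (Sol G x w A) (Sol G x w B) (restr K s A)
    (restr K s B)
  · intro u hu
    exact restr_mem_Sol hu.2 Finset.subset_union_left
  · intro u hu _
    exact restr_mem_Sol hu.2 Finset.subset_union_right
  · intro u hu h1 h2
    funext a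
    by_cases haA : a ∈ A
    · have := congrFun h1 a
      rwa [restr_apply, if_pos haA] at this
    · by_cases haB : a ∈ B
      · have := congrFun h2 a
        rwa [restr_apply, if_pos haB] at this
      · exact hu.1 a (by rw [Finset.mem_union]; tauto)

theorem finrank_Sol_le_card [Fintype V] (G : Finset (Finset V)) (x : V → Fin s → K) (w : V)
    (U : Finset V) : finrank K (Sol G x w U) ≤ s * U.card := by
  -- restrict to functions on `U`
  let φ : Sol G x w U →ₗ[K] (U → Fin s → K) :=
    { toFun := fun u a => u.1 a.1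
      map_add' := fun u v => rfl
      map_smul' := fun c u => rfl }
  have hinj : Function.Injective φ := by
    rw [injective_iff_map_eq_zero]
    intro u hu
    apply Subtype.ext
    funext a
    by_cases ha : a ∈ U
    · exact congrFun hu ⟨a, ha⟩
    · exact u.2.1 a ha
  have h1 := LinearMap.finrank_le_finrank_of_injective hinj
  have h2 : finrank K (U → Fin s → K) = s * U.card := by
    rw [Module.finrank_pi_fintype]
    simp [mul_comm]
  omega

/-- Every solution of the link relations of `w` on `U` is trivial, i.e. of the form `c x` with a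
symmetric matrix `c`. -/
def Rigid (G : Finset (Finset V)) (x : V → Fin s → K) (w : V) (U : Finset V) : Prop :=
  ∀ u : V → Fin s → K, IsSol G x w U u →
    ∃ q : Sym2 (Fin s) → K, ∀ a ∈ U, ∀ i, u a i = ∑ j, q s(i, j) * x a j

/-- The trivial solutions. -/
def triv (x : V → Fin s → K) (U : Finset V) : (Sym2 (Fin s) → K) →ₗ[K] (V → Fin s → K) where
  toFun q := fun a i => if a ∈ U then ∑ j, q s(i, j) * x a j else 0
  map_add' q r := by
    funext a i
    by_cases h : a ∈ U
    · simp [h, add_mul, Finset.sum_add_distrib]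
    · simp [h]
  map_smul' c q := by
    funext a i
    by_cases h : a ∈ U
    · simp [h, Finset.mul_sum, mul_assoc]
    · simp [h]

theorem finrank_Sol_of_rigid [Fintype V] {G : Finset (Finset V)} {x : V → Fin s → K} {w : V}
    {U : Finset V} (h : Rigid G x w U) : finrank K (Sol G x w U) ≤ (s + 1).choose 2 := by
  have hle : Sol G x w U ≤ LinearMap.range (triv x U) := by
    intro u hu
    obtain ⟨q, hq⟩ := h u hu.2
    refine ⟨q, ?_⟩
    funext a i
    change (if a ∈ U then ∑ j, q s(i, j) * x a j else 0) = u a i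
    by_cases ha : a ∈ U
    · rw [if_pos ha, hq a ha i]
    · rw [if_neg ha, hu.1 a ha]; rfl
  have h1 := Submodule.finrank_mono hle
  have h2 := LinearMap.finrank_range_le (triv x U)
  rw [Module.finrank_fintype_fun_eq_card, Sym2.card, Fintype.card_fin] at h2
  omega

/-- General position: any `s` distinct vertices carry linearly independent vectors. -/
def GenPos (x : V → Fin s → K) : Prop :=
  ∀ e : Fin s → V, Function.Injective e → IsUnit (Matrix.of (fun i j => x (e i) j))

omit [DecidableEq V] in
theorem GenPos.eq_zero {x : V → Fin s → K} (hx : GenPos x) (A : Finset V) (hA : s ≤ A.card)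
    (v : Fin s → K) (h : ∀ a ∈ A, x a ⬝ᵥ v = 0) : v = 0 := by
  obtain ⟨A', hA', hc⟩ := Finset.exists_subset_card_eq hA
  have e := (Finset.equivFinOfCardEq hc).symm
  have hinj : Function.Injective (fun i => (e i : V)) :=
    fun i j hij => e.injective (Subtype.ext hij)
  have hu := hx (fun i => (e i : V)) hinj
  have hmul : (Matrix.of (fun i j => x (e i : V) j)).mulVec v = 0 := by
    funext i
    exact h _ (hA' (e i).2)
  exact (Matrix.mulVec_injective_iff_isUnit.2 hu) (by rw [hmul, Matrix.mulVec_zero])

theorem dot_symm (q : Sym2 (Fin s) → K) (y z : Fin s → K) :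
    y ⬝ᵥ (fun i => ∑ j, q s(i, j) * z j) = z ⬝ᵥ (fun i => ∑ j, q s(i, j) * y j) := by
  simp only [dotProduct, Finset.mul_sum]
  rw [Finset.sum_comm]
  refine Finset.sum_congr rfl fun i _ => Finset.sum_congr rfl fun j _ => ?_
  rw [Sym2.eq_swap]
  ring

/-- Attaching vertices with at least `s` neighbours. -/
theorem Rigid.attach {G : Finset (Finset V)} {x : V → Fin s → K} (hx : GenPos x) {w : V}
    {S T : Finset V} (h : Rigid G x w S)
    (hT : ∀ t ∈ T, t ∈ S ∨ s ≤ (S.filter (fun y => y ≠ t ∧ Tri G w t y)).card) :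
    Rigid G x w (S ∪ T) := by
  intro u hu
  obtain ⟨q, hq⟩ := h u (hu.mono Finset.subset_union_left)
  refine ⟨q, fun a ha i => ?_⟩
  by_cases haS : a ∈ S
  · exact hq a haS i
  · have haT : a ∈ T := by
      rw [Finset.mem_union] at ha; tauto
    have hc : s ≤ (S.filter (fun y => y ≠ a ∧ Tri G w a y)).card := by
      rcases hT a haT with h | h
      · exact absurd h haS
      · exact h
    have key : (fun i => u a i - ∑ j, q s(i, j) * x a j) = 0 := by
      apply hx.eq_zero _ hc
      intro b hb
      rw [Finset.mem_filter] at hb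
      obtain ⟨hbS, hba, htri⟩ := hb
      have h1 : x a ⬝ᵥ u b = x b ⬝ᵥ u a :=
        hu a ha b (Finset.mem_union_left _ hbS) (Ne.symm hba) htri
      have h2 : u b = fun i => ∑ j, q s(i, j) * x b j := by
        funext i; exact hq b hbS i
      rw [h2, dot_symm] at h1
      have h3 : (fun i => u a i - ∑ j, q s(i, j) * x a j) =
          u a - (fun i => ∑ j, q s(i, j) * x a j) := rfl
      rw [h3, dotProduct_sub, h1, sub_self]
    have := congrFun key i
    simp only [Pi.zero_apply] at this
    exact sub_eq_zero.1 this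

/-- Gluing along at least `s` common vertices. -/
theorem Rigid.glue {G : Finset (Finset V)} {x : V → Fin s → K} (hx : GenPos x) {w : V}
    {A B : Finset V} (hA : Rigid G x w A) (hB : Rigid G x w B) (h : s ≤ (A ∩ B).card) :
    Rigid G x w (A ∪ B) := by
  intro u hu
  obtain ⟨q, hq⟩ := hA u (hu.mono Finset.subset_union_left)
  obtain ⟨r, hr⟩ := hB u (hu.mono Finset.subset_union_right)
  have key : ∀ i, (fun j => q s(i, j) - r s(i, j)) = 0 := by
    intro i
    apply hx.eq_zero _ h
    intro a ha
    rw [Finset.mem_inter] at ha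
    have h1 := hq a ha.1 i
    have h2 := hr a ha.2 i
    simp only [dotProduct, mul_sub, Finset.sum_sub_distrib]
    rw [sub_eq_zero]
    calc ∑ j, x a j * q s(i, j) = u a i := by
          rw [h1]; exact Finset.sum_congr rfl fun j _ => mul_comm _ _
      _ = ∑ j, x a j * r s(i, j) := by
          rw [h2]; exact Finset.sum_congr rfl fun j _ => mul_comm _ _
  refine ⟨q, fun a ha i => ?_⟩
  rw [Finset.mem_union] at ha
  rcases ha with ha | ha
  · exact hq a ha i
  · rw [hr a ha i]
    refine Finset.sum_congr rfl fun j _ => ?_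
    have := congrFun (key i) j
    simp only [Pi.zero_apply] at this
    rw [sub_eq_zero.1 this]

/-- Small cliques are rigid. -/
theorem rigid_clique_small [Fintype V] {G : Finset (Finset V)} {x : V → Fin s → K}
    (hx : GenPos x) {w : V} (hV : s ≤ Fintype.card V) {T : Finset V} (hT : T.card ≤ s)
    (hcl : ∀ a ∈ T, ∀ b ∈ T, a ≠ b → Tri G w a b) : Rigid G x w T := by
  classical
  intro u hu
  obtain ⟨T', hTT', hc⟩ := Finset.exists_superset_card_eq hT hV
  have e := (Finset.equivFinOfCardEq hc).symm
  have hinj : Function.Injective (fun i => (e i : V)) :=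
    fun i j hij => e.injective (Subtype.ext hij)
  set X : Matrix (Fin s) (Fin s) K := Matrix.of (fun i j => x (e i : V) j) with hX
  have hXu : IsUnit X := hx (fun i => (e i : V)) hinj
  have hdet : IsUnit X.det := (Matrix.isUnit_iff_isUnit_det X).1 hXu
  set B : Matrix (Fin s) (Fin s) K := Matrix.of (fun i k =>
    if (e k : V) ∈ T then x (e i : V) ⬝ᵥ u (e k : V)
    else if (e i : V) ∈ T then x (e k : V) ⬝ᵥ u (e i : V) else 0) with hB
  have hBsymm : B.transpose = B := by
    ext i k
    simp only [hB, Matrix.transpose_apply, Matrix.of_apply]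
    by_cases hi : (e i : V) ∈ T
    · by_cases hk : (e k : V) ∈ T
      · rw [if_pos hi, if_pos hk]
        by_cases hik : (e i : V) = (e k : V)
        · rw [hik]
        · exact (hu _ hi _ hk hik (hcl _ hi _ hk hik)).symm
      · rw [if_pos hi, if_neg hk, if_pos hi]
    · by_cases hk : (e k : V) ∈ T
      · rw [if_neg hi, if_pos hk, if_pos hk]
      · rw [if_neg hi, if_neg hk, if_neg hk, if_neg hi]
  set c : Matrix (Fin s) (Fin s) K := X⁻¹ * B * (X⁻¹).transpose with hc'
  have hcsymm : c.transpose = c := by
    rw [hc', Matrix.transpose_mul, Matrix.transpose_mul, Matrix.transpose_transpose, hBsymm,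
      Matrix.mul_assoc]
  have hcX : c * X.transpose = X⁻¹ * B := by
    rw [hc', Matrix.mul_assoc, ← Matrix.transpose_mul, Matrix.mul_nonsing_inv X hdet,
      Matrix.transpose_one, Matrix.mul_one]
  refine ⟨Sym2.lift ⟨fun i j => c i j, fun i j => ?_⟩, fun a ha i => ?_⟩
  · exact congrFun (congrFun hcsymm j) i
  · obtain ⟨k, hk⟩ : ∃ k, (e k : V) = a := ⟨e.symm ⟨a, hTT' ha⟩, by simp⟩
    simp only [Sym2.lift_mk]
    have h1 : ∑ j, c i j * x a j = (c * X.transpose) i k := by
      rw [Matrix.mul_apply]
      refine Finset.sum_congr rfl fun j _ => ?_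
      simp only [hX, Matrix.transpose_apply, Matrix.of_apply, hk]
    rw [h1, hcX]
    have h2 : ∀ l, B l k = (X.mulVec (u a)) l := by
      intro l
      simp only [hB, hX, Matrix.of_apply, Matrix.mulVec, hk, if_pos ha]
    have h3 : (X⁻¹ * B) i k = (X⁻¹.mulVec (X.mulVec (u a))) i := by
      rw [Matrix.mul_apply]
      simp only [Matrix.mulVec, dotProduct]
      refine Finset.sum_congr rfl fun l _ => ?_
      rw [h2 l]
      rfl
    rw [h3, Matrix.mulVec_mulVec, Matrix.nonsing_inv_mul X hdet, Matrix.one_mulVec]

/-- Cliques are rigid. -/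
theorem rigid_clique [Fintype V] {G : Finset (Finset V)} {x : V → Fin s → K}
    (hx : GenPos x) {w : V} (hV : s ≤ Fintype.card V) {T : Finset V}
    (hcl : ∀ a ∈ T, ∀ b ∈ T, a ≠ b → Tri G w a b) : Rigid G x w T := by
  rcases le_or_gt T.card s with h | h
  · exact rigid_clique_small hx hV h hcl
  · obtain ⟨T0, hT0, hc⟩ := Finset.exists_subset_card_eq h.le
    have h0 : Rigid G x w T0 := rigid_clique_small hx hV hc.le
      (fun a ha b hb hab => hcl a (hT0 ha) b (hT0 hb) hab)
    have h1 : Rigid G x w (T0 ∪ T) := by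
      apply h0.attach hx
      intro t ht
      by_cases htT : t ∈ T0
      · exact Or.inl htT
      · right
        have : T0.filter (fun y => y ≠ t ∧ Tri G w t y) = T0 := by
          rw [Finset.filter_true_of_mem]
          intro y hy
          have hne : y ≠ t := fun h => htT (h ▸ hy)
          exact ⟨hne, hcl t ht y (hT0 hy) (Ne.symm hne)⟩
        rw [this, hc]
    rwa [Finset.union_eq_right.2 hT0] at h1

end rigid

end KalaiRank
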