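import Pool.Agent.Lib.MP_8317a8_co.Core
import Pool.Agent.Lib.MP_8317a8_co.Rigid

set_option autoImplicit false

namespace KalaiRank

open Finset Module

theorem exists_max_rigid {K : Type*} [Field K] {V : Type*} [DecidableEq V] {s : ℕ}
    (G : Finset (Finset V)) (x : V → Fin s → K) (w : V) (U0 A0 : Finset V) (hA0 : A0 ⊆ U0)
    (h : Rigid G x w A0) :
    ∃ A, A0 ⊆ A ∧ A ⊆ U0 ∧ Rigid G x w A ∧ ∀ A', A ⊆ A' → A' ⊆ U0 → Rigid G x w A' → A' = A := by
  classical
  set F := U0.powerset.filter (fun A => A0 ⊆ A ∧ Rigid G x w A) with hF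
  have hne : F.Nonempty := ⟨A0, by
    rw [hF, Finset.mem_filter, Finset.mem_powerset]
    exact ⟨hA0, Finset.Subset.refl _, h⟩⟩
  obtain ⟨A, hA, hmax⟩ := Finset.exists_max_image F Finset.card hne
  rw [hF, Finset.mem_filter, Finset.mem_powerset] at hA
  refine ⟨A, hA.2.1, hA.1, hA.2.2, fun A' hAA' hA'U hr => ?_⟩
  have hA' : A' ∈ F := by
    rw [hF, Finset.mem_filter, Finset.mem_powerset]
    exact ⟨hA'U, hA.2.1.trans hAA', hr⟩
  exact (Finset.eq_of_subset_of_card_le hAA' (hmax A' hA')).symm

theorem good_vertex (s : ℕ) (hs : 1 ≤ s) : ∃ N : ℕ, ∀ (K : Type) [Field K] (n : ℕ)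
    (x : Fin n → Fin s → K), GenPos x → ∀ G : Finset (Finset (Fin n)), Covers G →
    ∀ U : Finset (Fin n), N ≤ U.card →
    ∃ v ∈ U, finrank K (Sol G x v (U.erase v)) ≤ s * (s + 1) := by
  classical
  obtain ⟨R1, hR1⟩ := core s (s + 1) hs
  obtain ⟨R2, hR2⟩ := core s 2 hs
  obtain ⟨N, hN⟩ := exists_clique (R1 + R2 + s)
  refine ⟨N, fun K _ n x hx G hG U hU => ?_⟩
  by_contra hcon
  push Not at hcon
  obtain ⟨Q, hQU, hQc, hQ⟩ := hN n G hG U hU
  have hV : s ≤ Fintype.card (Fin n) := by
    have h1 := Finset.card_le_univ Q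
    omega
  -- the rigid part containing `Q`
  have hS : ∀ w ∈ Q, ∃ A, Q.erase w ⊆ A ∧ A ⊆ U.erase w ∧ Rigid G x w A ∧
      ∀ A', A ⊆ A' → A' ⊆ U.erase w → Rigid G x w A' → A' = A := by
    intro w hw
    apply exists_max_rigid G x w (U.erase w) (Q.erase w) (Finset.erase_subset_erase w hQU)
    apply rigid_clique hx hV
    intro a ha b hb hab
    rw [Finset.mem_erase] at ha hb
    exact hQ w hw a ha.2 b hb.2 (Ne.symm ha.1) (Ne.symm hb.1) hab
  choose! S hS1 hS2 hS3 hS4 using hS
  set T : Fin n → Finset (Fin n) := fun w => (U.erase w) \ S w with hT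
  have hTU : ∀ w ∈ Q, T w ⊆ U := fun w _ a ha => by
    simp only [hT, Finset.mem_sdiff, Finset.mem_erase] at ha
    exact ha.1.2
  have hQT : ∀ w ∈ Q, ∀ q ∈ Q, q ∉ T w := by
    intro w hw q hq h
    simp only [hT, Finset.mem_sdiff, Finset.mem_erase] at h
    exact h.2 (hS1 w hw (Finset.mem_erase.2 ⟨h.1.1, hq⟩))
  have hP : ∀ w ∈ Q, ∀ t ∈ T w,
      (U.filter (fun a => a ≠ w ∧ a ∉ T w ∧ Tri G w t a)).card < s := by
    intro w hw t ht
    by_contra hlt
    push Not at hlt
    have htT := ht
    simp only [hT, Finset.mem_sdiff, Finset.mem_erase] at ht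
    have h1 : Rigid G x w (S w ∪ {t}) := by
      apply (hS3 w hw).attach hx
      intro t' ht'
      rw [Finset.mem_singleton] at ht'
      subst ht'
      right
      refine hlt.trans (Finset.card_le_card ?_)
      intro a ha
      rw [Finset.mem_filter] at ha ⊢
      obtain ⟨haU, haw, haT, htri⟩ := ha
      have haS : a ∈ S w := by
        by_contra h
        apply haT
        simp only [hT, Finset.mem_sdiff, Finset.mem_erase]
        exact ⟨⟨haw, haU⟩, h⟩
      refine ⟨haS, ?_, htri⟩
      rintro rfl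
      exact haT htT
    have h2 := hS4 w hw (S w ∪ {t}) Finset.subset_union_left (by
      apply Finset.union_subset (hS2 w hw)
      rw [Finset.singleton_subset_iff, Finset.mem_erase]
      exact ht.1) h1
    apply ht.2
    rw [← h2]
    exact Finset.mem_union_right _ (Finset.mem_singleton_self t)
  have hchoose : (s + 1).choose 2 + (s + 1).choose 2 = s * (s + 1) := by
    have := Nat.choose_two_right (s + 1)
    have h2 : 2 ∣ (s + 1) * (s + 1 - 1) := (Nat.even_mul_pred_self (s + 1)).two_dvd
    obtain ⟨k, hk⟩ := h2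
    rw [hk] at this
    have h3 : (s + 1) * (s + 1 - 1) = s * (s + 1) := by
      rw [Nat.add_sub_cancel, mul_comm]
    omega
  have hTnr : ∀ w ∈ Q, ¬ Rigid G x w (T w) := by
    intro w hw hr
    have h1 : U.erase w = S w ∪ T w := by
      simp only [hT]
      rw [Finset.union_sdiff_of_subset (hS2 w hw)]
    have h2 := hcon w (hQU hw)
    rw [h1] at h2
    have h3 := finrank_Sol_union_le G x w (S w) (T w)
    have h4 := finrank_Sol_of_rigid (hS3 w hw)
    have h5 := finrank_Sol_of_rigid hr
    omega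
  have hTw : ∀ w ∈ Q, T w ⊆ T w := fun w _ => Finset.Subset.refl _
  -- split into the two types
  set QII := Q.filter (fun w => ∃ C ⊆ T w, s ≤ C.card ∧ Rigid G x w C) with hQII
  set QI := Q.filter (fun w => ¬ ∃ C ⊆ T w, s ≤ C.card ∧ Rigid G x w C) with hQI
  have hsplit : QII.card + QI.card = Q.card := Finset.card_filter_add_card_filter_not _
  rcases le_or_gt R1 QII.card with hcase | hcase
  · -- type II
    have hsubQ : QII ⊆ Q := Finset.filter_subset _ _
    have hex : ∀ w ∈ QII, ∃ (C : Finset (Fin n)) (D : Fin s → Fin n) (t : Fin n),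
        C ⊆ T w ∧ Rigid G x w C ∧ (∀ C', C ⊆ C' → C' ⊆ T w → Rigid G x w C' → C' = C) ∧
        Function.Injective D ∧ (∀ i, D i ∈ C) ∧ t ∈ T w ∧ t ∉ C := by
      intro w hw
      obtain ⟨hwQ, C0, hC0, hC0c, hC0r⟩ := Finset.mem_filter.1 hw
      obtain ⟨C, hC1, hC2, hC3, hC4⟩ := exists_max_rigid G x w (T w) C0 hC0 hC0r
      have hCc : s ≤ C.card := hC0c.trans (Finset.card_le_card hC1)
      obtain ⟨D0, hD0, hD0c⟩ := Finset.exists_subset_card_eq hCc
      have e := (Finset.equivFinOfCardEq hD0c).symm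
      have hne : ¬ T w ⊆ C := fun h => hTnr w hwQ (by
        have : C = T w := Finset.Subset.antisymm hC2 h
        rwa [this] at hC3)
      obtain ⟨t, htT, htC⟩ := Finset.not_subset.1 hne
      exact ⟨C, fun i => (e i : Fin n), t, hC2, hC3, hC4,
        fun i j hij => e.injective (Subtype.ext hij), fun i => hD0 (e i).2, htT, htC⟩
    have hne : Nonempty (Fin n) := by
      have h1 := Finset.card_le_univ Q
      rw [Fintype.card_fin] at h1
      exact ⟨⟨0, by omega⟩⟩
    have hne2 : Nonempty (Fin s → Fin n) := ⟨fun _ => hne.some⟩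
    choose! C D t h1 h2 h3 h4 h5 h6 h7 using hex
    set z : Fin (s + 1) → Fin n → Fin n := fun p w =>
      if hp : p.val < s then D w ⟨p.val, hp⟩ else t w with hz
    have hzT : ∀ w ∈ QII, ∀ p, z p w ∈ T w := by
      intro w hw p
      simp only [hz]
      split_ifs with hp
      · exact h1 w hw (h5 w hw _)
      · exact h6 w hw
    obtain ⟨w, hw, Y, hYT, hYc, hYz⟩ := hR1 n G hG U QII T z (hsubQ.trans hQU) hcase
      (fun w hw => hTU w (hsubQ hw)) (fun w hw q hq => hQT w (hsubQ hw) q (hsubQ hq)) hzT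
      (fun w hw => hP w (hsubQ hw))
    have hYr : Rigid G x w Y := rigid_clique hx hV hYc
    have hZr : Rigid G x w (Y ∪ Finset.univ.image (fun p => z p w)) := by
      apply hYr.attach hx
      intro a ha
      rw [Finset.mem_image] at ha
      obtain ⟨p, -, rfl⟩ := ha
      exact hYz p
    have hDsub : Finset.univ.image (D w) ⊆ C w ∩ (Y ∪ Finset.univ.image (fun p => z p w)) := by
      intro a ha
      rw [Finset.mem_image] at ha
      obtain ⟨i, -, rfl⟩ := ha
      rw [Finset.mem_inter, Finset.mem_union]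
      refine ⟨h5 w hw i, Or.inr ?_⟩
      rw [Finset.mem_image]
      refine ⟨i.castSucc, Finset.mem_univ _, ?_⟩
      simp only [hz]
      rw [dif_pos (by simp)]
      rfl
    have hDc : (Finset.univ.image (D w)).card = s := by
      rw [Finset.card_image_of_injective _ (h4 w hw), Finset.card_univ, Fintype.card_fin]
    have hglue := (h2 w hw).glue hx hZr (hDc.symm.le.trans (Finset.card_le_card hDsub))
    have heq := h3 w hw _ Finset.subset_union_left (by
      apply Finset.union_subset (h1 w hw)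
      apply Finset.union_subset hYT
      intro a ha
      rw [Finset.mem_image] at ha
      obtain ⟨p, -, rfl⟩ := ha
      exact hzT w hw p) hglue
    apply h7 w hw
    rw [← heq]
    apply Finset.mem_union_right
    apply Finset.mem_union_right
    rw [Finset.mem_image]
    refine ⟨Fin.last s, Finset.mem_univ _, ?_⟩
    simp only [hz]
    rw [dif_neg (by simp)]
  · -- type I
    have hcase2 : R2 ≤ QI.card := by omega
    have hsubQ : QI ⊆ Q := Finset.filter_subset _ _
    have hex : ∀ w ∈ QI, ∃ a b : Fin n, a ∈ T w ∧ b ∈ T w ∧ a ≠ b ∧ ¬ Tri G w a b := by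
      intro w hw
      have hwQ := hsubQ hw
      by_contra hno
      push Not at hno
      exact hTnr w hwQ (rigid_clique hx hV (fun a ha b hb hab => hno a b ha hb hab))
    have hne : Nonempty (Fin n) := by
      have h1 := Finset.card_le_univ Q
      rw [Fintype.card_fin] at h1
      exact ⟨⟨0, by omega⟩⟩
    choose! a b h1 h2 h3 h4 using hex
    set z : Fin 2 → Fin n → Fin n := fun p w => if p = 0 then a w else b w with hz
    have hzT : ∀ w ∈ QI, ∀ p, z p w ∈ T w := by
      intro w hw p
      simp only [hz]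
      split_ifs with hp
      · exact h1 w hw
      · exact h2 w hw
    obtain ⟨w, hw, Y, hYT, hYc, hYz⟩ := hR2 n G hG U QI T z (hsubQ.trans hQU) hcase2
      (fun w hw => hTU w (hsubQ hw)) (fun w hw q hq => hQT w (hsubQ hw) q (hsubQ hq)) hzT
      (fun w hw => hP w (hsubQ hw))
    have hnot := (Finset.mem_filter.1 hw).2
    have hYr : Rigid G x w Y := rigid_clique hx hV hYc
    have hYs : Y.card < s := by
      by_contra h
      push Not at h
      exact hnot ⟨Y, hYT, h, hYr⟩
    have hin : ∀ p, z p w ∈ Y := by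
      intro p
      rcases hYz p with h | h
      · exact h
      · exact absurd (h.trans (Finset.card_filter_le _ _)) (not_le.2 hYs)
    have ha : a w ∈ Y := by simpa [hz] using hin 0
    have hb : b w ∈ Y := by simpa [hz] using hin 1
    exact h4 w hw (hYc _ ha _ hb (h3 w hw))

end KalaiRank
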