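import Pool.Agent.Lib.MP_8317a8_co.StarF

set_option autoImplicit false

namespace KalaiRank

open Finset

section

variable {V : Type*} [DecidableEq V] {G : Finset (Finset V)} {U : Finset V}

/-- A pair of vertices contained in at most one edge inside `U`. -/
def Lo (G : Finset (Finset V)) (U : Finset V) (z u : V) : Prop :=
  z ∈ U ∧ u ∈ U ∧ z ≠ u ∧ ∃ t, ∀ a ∈ U, Tri G z u a → a = t

theorem Lo.symm {z u : V} (h : Lo G U z u) : Lo G U u z := by
  obtain ⟨h1, h2, h3, t, ht⟩ := h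
  exact ⟨h2, h1, h3.symm, t, fun a ha hT => ht a ha hT.swap12⟩

theorem Lo.uniq {z u : V} (h : Lo G U z u) {a b : V} (ha : a ∈ U) (hb : b ∈ U)
    (hTa : Tri G z u a) (hTb : Tri G z u b) : a = b := by
  obtain ⟨_, _, _, t, ht⟩ := h
  rw [ht a ha hTa, ht b hb hTb]

theorem Lo.three (c : Ctx G U) (hU : 8 ≤ U.card) {z u1 u2 u3 : V} (l1 : Lo G U z u1)
    (l2 : Lo G U z u2) (l3 : Lo G U z u3) (h12 : u1 ≠ u2) (h13 : u1 ≠ u3) (h23 : u2 ≠ u3) :
    False :=
  star c hU l1.1 l1.2.1 l2.2.1 l3.2.1 l1.2.2.1 l2.2.2.1 l3.2.2.1 h12 h13 h23 l1.2.2.2 l2.2.2.2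
    l3.2.2.2

/-- A set of pairwise disjoint pairs of codegree at most one. -/
structure IsMat (G : Finset (Finset V)) (U : Finset V) (M : Finset (Finset V)) : Prop where
  disj : ∀ e ∈ M, ∀ e' ∈ M, e ≠ e' → Disjoint e e'
  edge : ∀ e ∈ M, ∃ a b, Lo G U a b ∧ e = {a, b}

theorem IsMat.no4 (c : Ctx G U) {M : Finset (Finset V)} (hM : IsMat G U M) : M.card ≠ 4 := by
  classical
  intro h4
  have hne : Nonempty V := by
    have : M.Nonempty := by
      rw [← Finset.card_pos]; omega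
    obtain ⟨e, he⟩ := this
    obtain ⟨a, _, _⟩ := hM.edge e he
    exact ⟨a⟩
  have hedge := hM.edge
  choose! a b hab heq using hedge
  have hae : ∀ e ∈ M, a e ∈ e := fun e he => by
    have h : a e ∈ ({a e, b e} : Finset V) := by simp
    exact (heq e he).symm.subset h
  have hbe : ∀ e ∈ M, b e ∈ e := fun e he => by
    have h : b e ∈ ({a e, b e} : Finset V) := by simp
    exact (heq e he).symm.subset h
  set H : Finset V → Finset V → Prop := fun e e' => ∃ d ∈ e', Tri G (a e) (b e) d with hH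
  have hsubU : ∀ e ∈ M, e ⊆ U := by
    intro e he d hd
    rw [heq e he, Finset.mem_insert, Finset.mem_singleton] at hd
    rcases hd with rfl | rfl
    · exact (hab e he).1
    · exact (hab e he).2.1
  set T := M.offDiag.filter (fun p => H p.1 p.2) with hT
  have hTc : T.card ≤ M.card := by
    apply Finset.card_le_card_of_injOn Prod.fst
    · intro p hp
      rw [Finset.mem_coe, hT, Finset.mem_filter, Finset.mem_offDiag] at hp
      exact hp.1.1
    · intro p hp q hq hpq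
      rw [Finset.mem_coe, hT, Finset.mem_filter, Finset.mem_offDiag] at hp hq
      obtain ⟨⟨p1, p2, p3⟩, d, hd, hdT⟩ := hp
      obtain ⟨⟨q1, q2, q3⟩, d', hd', hdT'⟩ := hq
      have hdd : d = d' := by
        rw [← hpq] at hdT'
        exact (hab p.1 p1).uniq (hsubU _ p2 hd) (hsubU _ q2 hd') hdT hdT'
      have h2 : p.2 = q.2 := by
        by_contra hne
        exact Finset.disjoint_left.1 (hM.disj _ p2 _ q2 hne) hd (hdd ▸ hd')
      exact Prod.ext hpq h2
  have hcover : M.offDiag ⊆ T ∪ T.image Prod.swap := by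
    intro p hp
    have hp' := hp
    rw [Finset.mem_offDiag] at hp
    obtain ⟨p1, p2, p3⟩ := hp
    have hdis := hM.disj _ p1 _ p2 p3
    have ha1 : a p.1 ∈ p.1 := hae _ p1
    have hb1 : b p.1 ∈ p.1 := hbe _ p1
    have ha2 : a p.2 ∈ p.2 := hae _ p2
    have hb2 : b p.2 ∈ p.2 := hbe _ p2
    have hne : ∀ s ∈ p.1, ∀ t ∈ p.2, s ≠ t := fun s hs t ht h =>
      Finset.disjoint_left.1 hdis hs (h ▸ ht)
    rw [Finset.mem_union]
    rcases c.cov (a p.1) (b p.1) (a p.2) (b p.2) (hab _ p1).2.2.1 (hne _ ha1 _ ha2)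
      (hne _ ha1 _ hb2) (hne _ hb1 _ ha2) (hne _ hb1 _ hb2) (hab _ p2).2.2.1 with h | h | h | h
    · left
      rw [hT, Finset.mem_filter]
      exact ⟨hp', _, ha2, h⟩
    · left
      rw [hT, Finset.mem_filter]
      exact ⟨hp', _, hb2, h⟩
    · right
      rw [Finset.mem_image]
      refine ⟨(p.2, p.1), ?_, rfl⟩
      rw [hT, Finset.mem_filter, Finset.mem_offDiag]
      exact ⟨⟨p2, p1, Ne.symm p3⟩, _, ha1, h.bca⟩
    · right
      rw [Finset.mem_image]
      refine ⟨(p.2, p.1), ?_, rfl⟩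
      rw [hT, Finset.mem_filter, Finset.mem_offDiag]
      exact ⟨⟨p2, p1, Ne.symm p3⟩, _, hb1, h.bca⟩
  have h1 := Finset.card_le_card hcover
  have h2 := Finset.card_union_le T (T.image Prod.swap)
  have h3 := Finset.card_image_le (s := T) (f := Prod.swap)
  rw [Finset.offDiag_card, h4] at h1
  omega

theorem IsMat.card_union_le {M : Finset (Finset V)} (hM : IsMat G U M) :
    (M.biUnion id).card ≤ M.card * 2 := by
  apply Finset.card_biUnion_le_card_mul
  intro e he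
  obtain ⟨a, b, _, rfl⟩ := hM.edge e he
  exact Finset.card_le_two

theorem IsMat.add {M : Finset (Finset V)} (hM : IsMat G U M) {i j : V} (hij : Lo G U i j)
    (hi : i ∉ M.biUnion id) (hj : j ∉ M.biUnion id) :
    ∃ M' : Finset (Finset V), IsMat G U M' ∧ M'.card = M.card + 1 := by
  have hnot : ({i, j} : Finset V) ∉ M := by
    intro h
    exact hi (Finset.mem_biUnion.2 ⟨_, h, by simp⟩)
  have hdis : ∀ e ∈ M, Disjoint ({i, j} : Finset V) e := by
    intro e he
    rw [Finset.disjoint_left]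
    intro d hd hde
    rw [Finset.mem_insert, Finset.mem_singleton] at hd
    rcases hd with rfl | rfl
    · exact hi (Finset.mem_biUnion.2 ⟨_, he, hde⟩)
    · exact hj (Finset.mem_biUnion.2 ⟨_, he, hde⟩)
  refine ⟨insert {i, j} M, ⟨?_, ?_⟩, by rw [Finset.card_insert_of_notMem hnot]⟩
  · intro e he e' he' hee
    rw [Finset.mem_insert] at he he'
    rcases he with rfl | he
    · rcases he' with rfl | he'
      · exact absurd rfl hee
      · exact hdis e' he'
    · rcases he' with rfl | he'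
      · exact (hdis e he).symm
      · exact hM.disj e he e' he' hee
  · intro e he
    rw [Finset.mem_insert] at he
    rcases he with rfl | he
    · exact ⟨i, j, hij, rfl⟩
    · exact hM.edge e he

/-- Two outside vertices attached to the same pair give a larger matching. -/
theorem IsMat.improve (c : Ctx G U) (hU : 8 ≤ U.card) {M : Finset (Finset V)}
    (hM : IsMat G U M) {e : Finset V} (he : e ∈ M) {i i' p p' : V} (hii : i ≠ i')
    (hi : i ∉ M.biUnion id) (hi' : i' ∉ M.biUnion id) (hp : Lo G U i p) (hp' : Lo G U i' p')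
    (hpe : p ∈ e) (hpe' : p' ∈ e) :
    ∃ M' : Finset (Finset V), IsMat G U M' ∧ M'.card = M.card + 1 := by
  have hie : i ∉ e := fun h => hi (Finset.mem_biUnion.2 ⟨e, he, h⟩)
  have hie' : i' ∉ e := fun h => hi' (Finset.mem_biUnion.2 ⟨e, he, h⟩)
  obtain ⟨a, b, hab, heq⟩ := hM.edge e he
  have hae : a ∈ e := by rw [heq]; simp
  have hbe : b ∈ e := by rw [heq]; simp
  have hpp : p ≠ p' := by
    rintro rfl
    rw [heq, Finset.mem_insert, Finset.mem_singleton] at hpe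
    rcases hpe with rfl | rfl
    · exact Lo.three c hU hp.symm hp'.symm hab hii (fun h => hie (h ▸ hbe))
        (fun h => hie' (h ▸ hbe))
    · exact Lo.three c hU hp.symm hp'.symm hab.symm hii (fun h => hie (h ▸ hae))
        (fun h => hie' (h ▸ hae))
  -- remove `e`, then add two pairs
  have hM1 : IsMat G U (M.erase e) :=
    ⟨fun d hd d' hd' h => hM.disj d (Finset.mem_of_mem_erase hd) d' (Finset.mem_of_mem_erase hd') h,
      fun d hd => hM.edge d (Finset.mem_of_mem_erase hd)⟩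
  have hnotin : ∀ v, v ∈ e → v ∉ (M.erase e).biUnion id := by
    intro v hv h
    rw [Finset.mem_biUnion] at h
    obtain ⟨d, hd, hvd⟩ := h
    rw [Finset.mem_erase] at hd
    exact Finset.disjoint_left.1 (hM.disj d hd.2 e he hd.1) hvd hv
  have hsub : (M.erase e).biUnion id ⊆ M.biUnion id :=
    Finset.biUnion_subset_biUnion_of_subset_left _ (Finset.erase_subset _ _)
  have hi1 : i ∉ (M.erase e).biUnion id := fun h => hi (hsub h)
  have hi1' : i' ∉ (M.erase e).biUnion id := fun h => hi' (hsub h)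
  have hnot : ({i, p} : Finset V) ∉ M.erase e := by
    intro h
    exact hi1 (Finset.mem_biUnion.2 ⟨_, h, by simp⟩)
  have hM2 : IsMat G U (insert {i, p} (M.erase e)) := by
    have hdis : ∀ d ∈ M.erase e, Disjoint ({i, p} : Finset V) d := by
      intro d hd
      rw [Finset.disjoint_left]
      intro v hv hvd
      rw [Finset.mem_insert, Finset.mem_singleton] at hv
      rcases hv with rfl | rfl
      · exact hi1 (Finset.mem_biUnion.2 ⟨_, hd, hvd⟩)
      · exact hnotin _ hpe (Finset.mem_biUnion.2 ⟨_, hd, hvd⟩)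
    refine ⟨?_, ?_⟩
    · intro d hd d' hd' hdd
      rw [Finset.mem_insert] at hd hd'
      rcases hd with rfl | hd
      · rcases hd' with rfl | hd'
        · exact absurd rfl hdd
        · exact hdis d' hd'
      · rcases hd' with rfl | hd'
        · exact (hdis d hd).symm
        · exact hM1.disj d hd d' hd' hdd
    · intro d hd
      rw [Finset.mem_insert] at hd
      rcases hd with rfl | hd
      · exact ⟨i, p, hp, rfl⟩
      · exact hM1.edge d hd
  have hpi : p' ≠ i := fun h => hie (h ▸ hpe')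
  have hpi' : p ≠ i' := fun h => hie' (h ▸ hpe)
  obtain ⟨M', hM', hc'⟩ := hM2.add hp' (by
      rw [Finset.biUnion_insert, Finset.mem_union]
      rintro (h | h)
      · simp only [id, Finset.mem_insert, Finset.mem_singleton] at h
        rcases h with h | h
        · exact hii h.symm
        · exact hpi' h.symm
      · exact hi1' h) (by
      rw [Finset.biUnion_insert, Finset.mem_union]
      rintro (h | h)
      · simp only [id, Finset.mem_insert, Finset.mem_singleton] at h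
        rcases h with h | h
        · exact hpi h
        · exact hpp h.symm
      · exact hnotin _ hpe' h)
  refine ⟨M', hM', ?_⟩
  rw [hc', Finset.card_insert_of_notMem hnot, Finset.card_erase_of_mem he]
  have : 0 < M.card := Finset.card_pos.2 ⟨e, he⟩
  omega

/-- A matching can be enlarged as long as it has fewer than a third of the vertices. -/
theorem IsMat.step (c : Ctx G U) (hU : 8 ≤ U.card) (hmin : ∀ u ∈ U, ∃ v, Lo G U u v)
    {M : Finset (Finset V)} (hM : IsMat G U M) (h : 3 * M.card < U.card) :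
    ∃ M' : Finset (Finset V), IsMat G U M' ∧ M'.card = M.card + 1 := by
  classical
  set O := U \ M.biUnion id with hO
  have hOc : M.card < O.card := by
    have h1 := Finset.le_card_sdiff (M.biUnion id) U
    rw [← hO] at h1
    have h2 := hM.card_union_le
    omega
  have hUne : Nonempty V := by
    obtain ⟨v, _⟩ := Finset.card_pos.1 (show 0 < U.card by omega)
    exact ⟨v⟩
  choose! f hf using hmin
  by_cases hcase : ∃ i ∈ O, f i ∉ M.biUnion id
  · obtain ⟨i, hi, hfi⟩ := hcase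
    rw [hO, Finset.mem_sdiff] at hi
    exact hM.add (hf i hi.1) hi.2 hfi
  · push Not at hcase
    have hg : ∀ i ∈ O, ∃ e ∈ M, f i ∈ e := by
      intro i hi
      have := hcase i hi
      rw [Finset.mem_biUnion] at this
      exact this
    choose! g hg1 hg2 using hg
    obtain ⟨i, hi, i', hi', hii, hgg⟩ := Finset.exists_ne_map_eq_of_card_lt_of_maps_to hOc
      (f := g) (fun i hi => hg1 i hi)
    have hi1 := hi
    have hi1' := hi'
    rw [hO, Finset.mem_sdiff] at hi hi'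
    exact hM.improve c hU (hg1 i hi1) hii hi.2 hi'.2 (hf i hi.1) (hf i' hi'.1) (hg2 i hi1)
      (hgg ▸ hg2 i' hi1')

/-- The final configuration, oriented version. -/
theorem fin_aux (c : Ctx G U) {z1 u1 u2 z2 w1 w2 z3 y : V} (hz1 : z1 ∈ U) (hu1 : u1 ∈ U)
    (hu2 : u2 ∈ U) (hz2 : z2 ∈ U) (hw1 : w1 ∈ U) (hw2 : w2 ∈ U) (hz3 : z3 ∈ U) (hy : y ∈ U)
    (nd : [z1, u1, u2, z2, w1, w2, z3, y].Nodup)
    (l1 : ∀ a ∈ U, Tri G z1 u1 a → a = z2) (e1 : Tri G z1 u1 z2)
    (l2 : ∀ a ∈ U, Tri G z1 u2 a → a = z2)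
    (m1 : ∀ a ∈ U, Tri G z2 w1 a → a = z3 ∨ a = y)
    (m2 : ∀ a ∈ U, Tri G z2 w2 a → a = z3 ∨ a = y)
    (l3 : ∀ a ∈ U, Tri G z3 y a → a = z1) (hcase : Tri G u1 w1 z3) : False := by
  simp only [List.nodup_cons, List.mem_cons, List.not_mem_nil, or_false, not_or,
    List.nodup_nil, and_true, not_false_eq_true] at nd
  obtain ⟨⟨a1, a2, a3, a4, a5, a6, a7⟩, ⟨b1, b2, b3, b4, b5, b6⟩, ⟨c1, c2, c3, c4, c5⟩,
    ⟨d1, d2, d3, d4⟩, ⟨f1, f2, f3⟩, ⟨g1, g2⟩, k1⟩ := nd
  have F : ∀ a ∈ U, a ≠ z1 → a ≠ z2 → a ≠ u1 → a ≠ u2 → Tri G u1 u2 a :=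
    fun a ha h1 h2 h3 h4 => c.cov.elim a1 a2 h1.symm b1 h3.symm h4.symm
      (fun h => c1 (l1 u2 hu2 h)) (fun h => h2 (l1 a ha h)) (fun h => h2 (l2 a ha h))
  have W : Tri G u1 w1 w2 := by
    have n1 : ¬ Tri G z2 w1 w2 := fun h => by
      rcases m1 w2 hw2 h with h | h
      · exact g1 h
      · exact g2 h
    have n2 : ¬ Tri G z2 w1 u1 := fun h => by
      rcases m1 u1 hu1 h with h | h
      · exact b5 h
      · exact b6 h
    have n3 : ¬ Tri G z2 w2 u1 := fun h => by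
      rcases m2 u1 hu1 h with h | h
      · exact b5 h
      · exact b6 h
    have := c.cov.elim (a := z2) (b := w1) (c := w2) (d := u1) d1 d2 (Ne.symm b2) f1
      (Ne.symm b3) (Ne.symm b4) n1 n2 n3
    exact this.cab
  have S : ∀ b ∈ U, b ≠ u1 → b ≠ z3 → b ≠ y → b ≠ z1 → Tri G u1 b z3 ∨ Tri G u1 b y := by
    intro b hb hb1 hb2 hb3 hb4
    rcases c.cov z3 y u1 b k1 (Ne.symm b5) (Ne.symm hb2) (Ne.symm b6) (Ne.symm hb3)
      (Ne.symm hb1) with h | h | h | h
    · exact absurd (l3 u1 hu1 h) (Ne.symm a1)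
    · exact absurd (l3 b hb h) hb4
    · exact Or.inl h.bca
    · exact Or.inr h.bca
  have base := ((((Sq.start G U u1).add2 hu2 (Ne.symm b1)).add1 c hw1 (a := u2) (by simp)
    (F w1 hw1 (Ne.symm a4) (Ne.symm d1) (Ne.symm b3) (Ne.symm c2)).swap23).add0 c hw2
    (a := u2) (b := w1) (by simp) (by simp) c2
    (F w2 hw2 (Ne.symm a5) (Ne.symm d2) (Ne.symm b4) (Ne.symm c3)).swap23 W.swap23).add0 c hz3
    (a := u2) (b := w1) (by simp) (by simp) c2
    (F z3 hz3 (Ne.symm a6) (Ne.symm d3) (Ne.symm b5) (Ne.symm c4)).swap23 hcase.swap23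
  have base2 := base.add1 c hy (a := u2) (by simp)
    (F y hy (Ne.symm a7) (Ne.symm d4) (Ne.symm b6) (Ne.symm c5)).swap23
  have fin : ∀ A : Finset V, u2 ∈ A → w1 ∈ A → w2 ∈ A → z3 ∈ A → y ∈ A → z2 ∈ A → z1 ∈ A →
      ∀ t ∈ U, t ≠ u1 → t ∉ A → ∃ a ∈ A, ∃ b ∈ A, a ≠ b ∧ Tri G u1 t a ∧ Tri G u1 t b := by
    intro A m2 mw1 mw2 m3 my mz2 mz1 t ht ht1 hnot
    have q1 : t ≠ z1 := fun h => hnot (h ▸ mz1)
    have q2 : t ≠ z2 := fun h => hnot (h ▸ mz2)
    have q3 : t ≠ u2 := fun h => hnot (h ▸ m2)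
    have q4 : t ≠ z3 := fun h => hnot (h ▸ m3)
    have q5 : t ≠ y := fun h => hnot (h ▸ my)
    rcases S t ht ht1 q4 q5 q1 with h | h
    · exact ⟨u2, m2, z3, m3, c4, (F t ht q1 q2 ht1 q3).swap23, h⟩
    · exact ⟨u2, m2, y, my, c5, (F t ht q1 q2 ht1 q3).swap23, h⟩
  rcases S z2 hz2 (Ne.symm b2) d3 d4 (Ne.symm a3) with h | h
  · have sq := (base2.add1 c hz2 (a := z3) (by simp) h).add1 c hz1 (a := z2) (by simp) e1.swap12
    exact sq.no c hu1 (by norm_num) (fin _ (by simp) (by simp) (by simp) (by simp) (by simp)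
      (by simp) (by simp))
  · have sq := (base2.add1 c hz2 (a := y) (by simp) h).add1 c hz1 (a := z2) (by simp) e1.swap12
    exact sq.no c hu1 (by norm_num) (fin _ (by simp) (by simp) (by simp) (by simp) (by simp)
      (by simp) (by simp))

/-- The final configuration, with the orientation known. -/
theorem fin_or (c : Ctx G U) {z1 u1 u2 z2 w1 w2 z3 y : V} (nd : [z1, u1, u2, z2, w1, w2, z3, y].Nodup)
    (L1 : Lo G U z1 u1) (L2 : Lo G U z1 u2) (K1 : Lo G U z2 w1) (K2 : Lo G U z2 w2)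
    (J : Lo G U z3 y) (hJ : Tri G z3 y z1) : False := by
  have nd' := nd
  simp only [List.nodup_cons, List.mem_cons, List.not_mem_nil, or_false, not_or,
    List.nodup_nil, and_true, not_false_eq_true] at nd
  obtain ⟨⟨a1, a2, a3, a4, a5, a6, a7⟩, ⟨b1, b2, b3, b4, b5, b6⟩, ⟨c1, c2, c3, c4, c5⟩,
    ⟨d1, d2, d3, d4⟩, ⟨f1, f2, f3⟩, ⟨g1, g2⟩, k1⟩ := nd
  have hz1 := L1.1
  have hu1 := L1.2.1
  have hu2 := L2.2.1
  have hz2 := K1.1
  have hw1 := K1.2.1
  have hw2 := K2.2.1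
  have hz3 := J.1
  have hy := J.2.1
  have l3 : ∀ a ∈ U, Tri G z3 y a → a = z1 := fun a ha h => J.uniq ha hz1 h hJ
  -- the pairs `z2 w_j` have their exceptional vertex in `{z3, y}`
  have m : ∀ w, Lo G U z2 w → z2 ≠ z3 → z2 ≠ y → w ≠ z3 → w ≠ y → w ≠ z1 →
      ∃ t, (t = z3 ∨ t = y) ∧ Tri G z2 w t := by
    intro w K h1 h2 h3 h4 h5
    rcases c.cov z2 w z3 y K.2.2.1 h1 h2 h3 h4 k1 with h | h | h | h
    · exact ⟨z3, Or.inl rfl, h⟩
    · exact ⟨y, Or.inr rfl, h⟩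
    · exact absurd (l3 z2 hz2 h.bca) (Ne.symm a3)
    · exact absurd (l3 w K.2.1 h.bca) h5
  obtain ⟨t1, ht1, hT1⟩ := m w1 K1 d3 d4 f2 f3 (Ne.symm a4)
  obtain ⟨t2, ht2, hT2⟩ := m w2 K2 d3 d4 g1 g2 (Ne.symm a5)
  have ht1U : t1 ∈ U := by
    rcases ht1 with rfl | rfl
    · exact hz3
    · exact hy
  have ht2U : t2 ∈ U := by
    rcases ht2 with rfl | rfl
    · exact hz3
    · exact hy
  have m1 : ∀ a ∈ U, Tri G z2 w1 a → a = z3 ∨ a = y := fun a ha h => by
    rw [K1.uniq ha ht1U h hT1]; exact ht1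
  have m2 : ∀ a ∈ U, Tri G z2 w2 a → a = z3 ∨ a = y := fun a ha h => by
    rw [K2.uniq ha ht2U h hT2]; exact ht2
  -- the pairs `z1 u_i` have exceptional vertex `z2`
  have e : ∀ u, Lo G U z1 u → u ≠ z2 → u ≠ w1 → u ≠ w2 → u ≠ z3 → u ≠ y → Tri G z1 u z2 := by
    intro u L h1 h2 h3 h4 h5
    have o1 : Tri G z1 u z2 ∨ Tri G z1 u w1 := by
      rcases c.cov z1 u z2 w1 L.2.2.1 a3 a4 h1 h2 d1 with h | h | h | h
      · exact Or.inl h
      · exact Or.inr h
      · rcases m1 z1 hz1 h.bca with h | h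
        · exact absurd h a6
        · exact absurd h a7
      · rcases m1 u L.2.1 h.bca with h | h
        · exact absurd h h4
        · exact absurd h h5
    have o2 : Tri G z1 u z2 ∨ Tri G z1 u w2 := by
      rcases c.cov z1 u z2 w2 L.2.2.1 a3 a5 h1 h3 d2 with h | h | h | h
      · exact Or.inl h
      · exact Or.inr h
      · rcases m2 z1 hz1 h.bca with h | h
        · exact absurd h a6
        · exact absurd h a7
      · rcases m2 u L.2.1 h.bca with h | h
        · exact absurd h h4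
        · exact absurd h h5
    rcases o1 with h | h
    · exact h
    · rcases o2 with h' | h'
      · exact h'
      · exact absurd (L.uniq hw1 hw2 h h') f1
  have e1 := e u1 L1 b2 b3 b4 b5 b6
  have e2 := e u2 L2 c1 c2 c3 c4 c5
  have l1 : ∀ a ∈ U, Tri G z1 u1 a → a = z2 := fun a ha h => L1.uniq ha hz2 h e1
  have l2 : ∀ a ∈ U, Tri G z1 u2 a → a = z2 := fun a ha h => L2.uniq ha hz2 h e2
  -- `w1` is adjacent to `z3` or `y` in the link of `u1`
  rcases c.cov z3 y u1 w1 k1 (Ne.symm b5) (Ne.symm f2) (Ne.symm b6) (Ne.symm f3) b3 with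
    h | h | h | h
  · exact absurd (l3 u1 hu1 h) (Ne.symm a1)
  · exact absurd (l3 w1 hw1 h) (Ne.symm a4)
  · exact fin_aux c hz1 hu1 hu2 hz2 hw1 hw2 hz3 hy nd' l1 e1 l2 m1 m2 l3 h.bca
  · have nd2 : [z1, u1, u2, z2, w1, w2, y, z3].Nodup := by
      simp only [List.nodup_cons, List.mem_cons, List.not_mem_nil, or_false, not_or,
        List.nodup_nil, and_true, not_false_eq_true]
      exact ⟨⟨a1, a2, a3, a4, a5, a7, a6⟩, ⟨b1, b2, b3, b4, b6, b5⟩, ⟨c1, c2, c3, c5, c4⟩,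
        ⟨d1, d2, d4, d3⟩, ⟨f1, f3, f2⟩, ⟨g2, g1⟩, Ne.symm k1⟩
    exact fin_aux c hz1 hu1 hu2 hz2 hw1 hw2 hy hz3 nd2 l1 e1 l2
      (fun a ha h => (m1 a ha h).symm) (fun a ha h => (m2 a ha h).symm)
      (fun a ha h => l3 a ha h.swap12) h.bca

/-- The final configuration is impossible. -/
theorem fin_conf (c : Ctx G U) {z1 u1 u2 z2 w1 w2 z3 y : V}
    (nd : [z1, u1, u2, z2, w1, w2, z3, y].Nodup)
    (L1 : Lo G U z1 u1) (L2 : Lo G U z1 u2) (K1 : Lo G U z2 w1) (K2 : Lo G U z2 w2)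
    (J : Lo G U z3 y) : False := by
  have nd' := nd
  simp only [List.nodup_cons, List.mem_cons, List.not_mem_nil, or_false, not_or,
    List.nodup_nil, and_true, not_false_eq_true] at nd
  obtain ⟨⟨a1, a2, a3, a4, a5, a6, a7⟩, ⟨b1, b2, b3, b4, b5, b6⟩, ⟨c1, c2, c3, c4, c5⟩,
    ⟨d1, d2, d3, d4⟩, ⟨f1, f2, f3⟩, ⟨g1, g2⟩, k1⟩ := nd
  have hz1 := L1.1
  have hu1 := L1.2.1
  have hu2 := L2.2.1
  have hz2 := K1.1
  have hw1 := K1.2.1
  have hw2 := K2.2.1
  have hz3 := J.1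
  have hy := J.2.1
  by_cases hJ1 : Tri G z3 y z1
  · exact fin_or c nd' L1 L2 K1 K2 J hJ1
  by_cases hJ2 : Tri G z3 y z2
  · have nd2 : [z2, w1, w2, z1, u1, u2, z3, y].Nodup := by
      simp only [List.nodup_cons, List.mem_cons, List.not_mem_nil, or_false, not_or,
        List.nodup_nil, and_true, not_false_eq_true]
      exact ⟨⟨d1, d2, Ne.symm a3, Ne.symm b2, Ne.symm c1, d3, d4⟩,
        ⟨f1, Ne.symm a4, Ne.symm b3, Ne.symm c2, f2, f3⟩,
        ⟨Ne.symm a5, Ne.symm b4, Ne.symm c3, g1, g2⟩, ⟨a1, a2, a6, a7⟩, ⟨b1, b5, b6⟩, ⟨c4, c5⟩, k1⟩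
    exact fin_or c nd2 K1 K2 L1 L2 J hJ2
  -- every pair `p q` disjoint from `z3 y`, has its exceptional vertex in `{z3, y}`, or the
  -- exceptional vertex of `z3 y` is the leaf
  have o : ∀ p q, Lo G U p q → p ≠ z3 → p ≠ y → q ≠ z3 → q ≠ y → ¬ Tri G z3 y p →
      (∃ t ∈ U, (t = z3 ∨ t = y) ∧ Tri G p q t) ∨ Tri G z3 y q := by
    intro p q L h1 h2 h3 h4 hn
    rcases c.cov p q z3 y L.2.2.1 h1 h2 h3 h4 k1 with h | h | h | h
    · exact Or.inl ⟨z3, hz3, Or.inl rfl, h⟩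
    · exact Or.inl ⟨y, hy, Or.inr rfl, h⟩
    · exact absurd h.bca hn
    · exact Or.inr h.bca
  -- two disjoint pairs cannot both have exceptional vertices in `{z3, y}`
  have no : ∀ u w, Lo G U z1 u → Lo G U z2 w → u ≠ z2 → u ≠ w → z1 ≠ w → u ≠ z3 → u ≠ y →
      w ≠ z3 → w ≠ y → (∃ t ∈ U, (t = z3 ∨ t = y) ∧ Tri G z1 u t) →
      (∃ t ∈ U, (t = z3 ∨ t = y) ∧ Tri G z2 w t) → False := by
    rintro u w L K h1 h2 h3 h4 h5 h6 h7 ⟨t, htU, ht, hT⟩ ⟨s, hsU, hs, hS⟩
    have hz2t : ∀ v, v ≠ z3 → v ≠ y → v ∈ U → ¬ Tri G z1 u v := by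
      intro v hv1 hv2 hvU h
      have := L.uniq hvU htU h hT
      rcases ht with rfl | rfl
      · exact hv1 this
      · exact hv2 this
    have hz1s : ∀ v, v ≠ z3 → v ≠ y → v ∈ U → ¬ Tri G z2 w v := by
      intro v hv1 hv2 hvU h
      have := K.uniq hvU hsU h hS
      rcases hs with rfl | rfl
      · exact hv1 this
      · exact hv2 this
    rcases c.cov z1 u z2 w L.2.2.1 a3 h3 h1 h2 K.2.2.1 with h | h | h | h
    · exact hz2t z2 d3 d4 hz2 h
    · exact hz2t w h6 h7 K.2.1 h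
    · exact hz1s z1 a6 a7 hz1 h.bca
    · exact hz1s u h4 h5 L.2.1 h.bca
  -- at most one leaf is the exceptional vertex of `z3 y`
  have hu : (∃ t ∈ U, (t = z3 ∨ t = y) ∧ Tri G z1 u1 t) ∨
      (∃ t ∈ U, (t = z3 ∨ t = y) ∧ Tri G z1 u2 t) := by
    rcases o z1 u1 L1 a6 a7 b5 b6 hJ1 with h | h
    · exact Or.inl h
    · rcases o z1 u2 L2 a6 a7 c4 c5 hJ1 with h' | h'
      · exact Or.inr h'
      · exact absurd (J.uniq hu1 hu2 h h') b1
  have hw : (∃ t ∈ U, (t = z3 ∨ t = y) ∧ Tri G z2 w1 t) ∨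
      (∃ t ∈ U, (t = z3 ∨ t = y) ∧ Tri G z2 w2 t) := by
    rcases o z2 w1 K1 d3 d4 f2 f3 hJ2 with h | h
    · exact Or.inl h
    · rcases o z2 w2 K2 d3 d4 g1 g2 hJ2 with h' | h'
      · exact Or.inr h'
      · exact absurd (J.uniq hw1 hw2 h h') f1
  rcases hu with hu | hu <;> rcases hw with hw | hw
  · exact no u1 w1 L1 K1 b2 b3 a4 b5 b6 f2 f3 hu hw
  · exact no u1 w2 L1 K2 b2 b4 a5 b5 b6 g1 g2 hu hw
  · exact no u2 w1 L2 K1 c1 c2 a4 c4 c5 f2 f3 hu hw
  · exact no u2 w2 L2 K2 c1 c3 a5 c4 c5 g1 g2 hu hw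

/-- If every vertex is in a pair of codegree at most one, we get a contradiction. -/
theorem no_min (c : Ctx G U) (hU : 8 ≤ U.card) (hmin : ∀ u ∈ U, ∃ v, Lo G U u v) : False := by
  classical
  have h0 : IsMat G U ∅ := ⟨by simp, by simp⟩
  obtain ⟨M1, h1, c1⟩ := h0.step c hU hmin (by rw [Finset.card_empty]; omega)
  rw [Finset.card_empty] at c1
  obtain ⟨M2, h2, c2⟩ := h1.step c hU hmin (by omega)
  obtain ⟨M, hM, c3⟩ := h2.step c hU hmin (by omega)
  have hMc : M.card = 3 := by omega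
  have no4 : ∀ M' : Finset (Finset V), IsMat G U M' → M'.card = M.card + 1 → False := by
    intro M' hM' hc
    exact hM'.no4 c (by omega)
  set O := U \ M.biUnion id with hO
  have hOc : 2 ≤ O.card := by
    have h1 := Finset.le_card_sdiff (M.biUnion id) U
    rw [← hO] at h1
    have h2 := hM.card_union_le
    omega
  obtain ⟨i, hi, i', hi', hii⟩ := Finset.one_lt_card.1 hOc
  rw [hO, Finset.mem_sdiff] at hi hi'
  obtain ⟨p, hp⟩ := hmin i hi.1
  obtain ⟨p', hp'⟩ := hmin i' hi'.1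
  have hpM : p ∈ M.biUnion id := by
    by_contra h
    obtain ⟨M', hM', hc⟩ := hM.add hp hi.2 h
    exact no4 M' hM' hc
  have hpM' : p' ∈ M.biUnion id := by
    by_contra h
    obtain ⟨M', hM', hc⟩ := hM.add hp' hi'.2 h
    exact no4 M' hM' hc
  rw [Finset.mem_biUnion] at hpM hpM'
  obtain ⟨e, he, hpe⟩ := hpM
  obtain ⟨e', he', hpe'⟩ := hpM'
  simp only [id] at hpe hpe'
  have hee : e ≠ e' := by
    rintro rfl
    obtain ⟨M', hM', hc⟩ := hM.improve c hU he hii hi.2 hi'.2 hp hp' hpe hpe'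
    exact no4 M' hM' hc
  -- the third pair
  have hcard : 1 ≤ ((M.erase e).erase e').card := by
    rw [Finset.card_erase_of_mem (Finset.mem_erase.2 ⟨Ne.symm hee, he'⟩),
      Finset.card_erase_of_mem he]
    omega
  obtain ⟨e'', he''⟩ := Finset.card_pos.1 hcard
  rw [Finset.mem_erase, Finset.mem_erase] at he''
  obtain ⟨hne1, hne2, he''⟩ := he''
  -- partners
  have part : ∀ d ∈ M, ∀ v ∈ d, ∃ q, Lo G U v q ∧ q ∈ d := by
    intro d hd v hv
    obtain ⟨a, b, hab, rfl⟩ := hM.edge d hd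
    rw [Finset.mem_insert, Finset.mem_singleton] at hv
    rcases hv with rfl | rfl
    · exact ⟨b, hab, by simp⟩
    · exact ⟨a, hab.symm, by simp⟩
  obtain ⟨q, hq, hqe⟩ := part e he p hpe
  obtain ⟨q', hq', hqe'⟩ := part e' he' p' hpe'
  obtain ⟨r, s, hrs, heq⟩ := hM.edge e'' he''
  have hr : r ∈ e'' := by rw [heq]; simp
  have hs : s ∈ e'' := by rw [heq]; simp
  have out : ∀ d ∈ M, ∀ v ∈ d, i ≠ v ∧ i' ≠ v := by
    intro d hd v hv
    constructor
    · rintro rfl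
      exact hi.2 (Finset.mem_biUnion.2 ⟨d, hd, hv⟩)
    · rintro rfl
      exact hi'.2 (Finset.mem_biUnion.2 ⟨d, hd, hv⟩)
  have dis : ∀ d ∈ M, ∀ d' ∈ M, d ≠ d' → ∀ v ∈ d, ∀ v' ∈ d', v ≠ v' := by
    intro d hd d' hd' hdd v hv v' hv' h
    exact Finset.disjoint_left.1 (hM.disj d hd d' hd' hdd) hv (h ▸ hv')
  have D1 := dis e he e' he' hee
  have D2 := dis e he e'' he'' (Ne.symm hne2)
  have D3 := dis e' he' e'' he'' (Ne.symm hne1)
  have nd : [p, i, q, p', i', q', r, s].Nodup := by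
    simp only [List.nodup_cons, List.mem_cons, List.not_mem_nil, or_false, not_or,
      List.nodup_nil, and_true, not_false_eq_true]
    exact ⟨⟨Ne.symm hp.2.2.1, hq.2.2.1, D1 _ hpe _ hpe', (out e he p hpe).2.symm,
        D1 _ hpe _ hqe', D2 _ hpe _ hr, D2 _ hpe _ hs⟩,
      ⟨(out e he q hqe).1, (out e' he' p' hpe').1, hii, (out e' he' q' hqe').1,
        (out e'' he'' r hr).1, (out e'' he'' s hs).1⟩,
      ⟨D1 _ hqe _ hpe', (out e he q hqe).2.symm, D1 _ hqe _ hqe', D2 _ hqe _ hr,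
        D2 _ hqe _ hs⟩,
      ⟨Ne.symm hp'.2.2.1, hq'.2.2.1, D3 _ hpe' _ hr, D3 _ hpe' _ hs⟩,
      ⟨(out e' he' q' hqe').2, (out e'' he'' r hr).2, (out e'' he'' s hs).2⟩,
      ⟨D3 _ hqe' _ hr, D3 _ hqe' _ hs⟩, hrs.2.2.1⟩
  exact fin_conf c nd hp.symm hq hp'.symm hq' hrs

end

end KalaiRank
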