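import Mathlib

set_option autoImplicit false

namespace KalaiRank

open Finset

/-- End-homogeneous subsets. -/
theorem end_homog (κ : Type) [Fintype κ] [DecidableEq κ] (m : ℕ) :
    ∃ R : ℕ, ∀ (n : ℕ) (f : Fin n → Fin n → κ) (W : Finset (Fin n)), R ≤ W.card →
      ∃ W' ⊆ W, W'.card = m ∧ ∀ i ∈ W', ∃ c, ∀ j ∈ W', i < j → f i j = c := by
  induction m with
  | zero =>
    exact ⟨0, fun n f W _ => ⟨∅, by simp, by simp, by simp⟩⟩
  | succ m ih =>
    obtain ⟨R, hR⟩ := ih
    refine ⟨Fintype.card κ * R + 2, fun n f W hW => ?_⟩
    have hne : W.Nonempty := by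
      rw [← Finset.card_pos]; omega
    set i := W.min' hne with hi
    have hiW : i ∈ W := Finset.min'_mem _ _
    have hcard : (W.erase i).card = W.card - 1 := Finset.card_erase_of_mem hiW
    obtain ⟨c, -, hc⟩ := Finset.exists_lt_card_fiber_of_mul_lt_card_of_maps_to
      (s := W.erase i) (t := (Finset.univ : Finset κ)) (f := fun j => f i j) (n := R)
      (fun _ _ => Finset.mem_univ _) (by
        rw [hcard, Finset.card_univ]; omega)
    obtain ⟨W', hsub, hcW, hh⟩ := hR n f _ hc.le
    have hsub1 : W' ⊆ W.erase i := hsub.trans (Finset.filter_subset _ _)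
    have hiW' : i ∉ W' := fun h => by
      have := hsub1 h
      simp at this
    have hlt : ∀ j ∈ W', i < j := by
      intro j hj
      have h1 := hsub1 hj
      rw [Finset.mem_erase] at h1
      exact lt_of_le_of_ne (Finset.min'_le _ _ h1.2) (Ne.symm h1.1)
    refine ⟨insert i W', ?_, ?_, ?_⟩
    · intro j hj
      rw [Finset.mem_insert] at hj
      rcases hj with rfl | hj
      · exact hiW
      · exact Finset.mem_of_mem_erase (hsub1 hj)
    · rw [Finset.card_insert_of_notMem hiW', hcW]
    · intro a ha
      rw [Finset.mem_insert] at ha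
      rcases ha with rfl | ha
      · refine ⟨c, fun j hj hij => ?_⟩
        rw [Finset.mem_insert] at hj
        rcases hj with rfl | hj
        · exact absurd hij (lt_irrefl _)
        · have := hsub hj
          rw [Finset.mem_filter] at this
          exact this.2
      · obtain ⟨c', hc'⟩ := hh a ha
        refine ⟨c', fun j hj hij => ?_⟩
        rw [Finset.mem_insert] at hj
        rcases hj with rfl | hj
        · exact absurd (hlt a ha) (not_lt.2 hij.le)
        · exact hc' j hj hij

/-- Ramsey's theorem for pairs of elements of a finite linearly ordered set and finitely many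
colours, in the form used below. -/
theorem pair_ramsey (κ : Type) [Fintype κ] [DecidableEq κ] (m : ℕ) :
    ∃ R : ℕ, ∀ (n : ℕ) (f : Fin n → Fin n → κ) (W : Finset (Fin n)), R ≤ W.card →
      ∃ W' ⊆ W, W'.card = m ∧ ∃ c, ∀ i ∈ W', ∀ j ∈ W', i < j → f i j = c := by
  classical
  obtain ⟨R, hR⟩ := end_homog κ (Fintype.card κ * m + 2)
  refine ⟨R, fun n f W hW => ?_⟩
  obtain ⟨W1, hsub, hcard, hh⟩ := hR n f W hW
  have hne : W1.Nonempty := by
    rw [← Finset.card_pos]; omega
  obtain ⟨i0, hi0⟩ := hne
  obtain ⟨c0, -⟩ := hh i0 hi0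
  have : Nonempty κ := ⟨c0⟩
  choose! c hc using hh
  obtain ⟨k, -, hk⟩ := Finset.exists_lt_card_fiber_of_mul_lt_card_of_maps_to
      (s := W1) (t := (Finset.univ : Finset κ)) (f := c) (n := m)
      (fun _ _ => Finset.mem_univ _) (by
        rw [hcard, Finset.card_univ]; omega)
  obtain ⟨W2, hW2, hW2c⟩ := Finset.exists_subset_card_eq hk.le
  refine ⟨W2, fun a ha => hsub (Finset.mem_filter.1 (hW2 ha)).1, hW2c, k, ?_⟩
  intro i hi j hj hij
  have h1 := Finset.mem_filter.1 (hW2 hi)
  have h2 := Finset.mem_filter.1 (hW2 hj)
  rw [hc i h1.1 j h2.1 hij, h1.2]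

/-- The triple `{a,b,c}` is an edge. -/
def Tri {V : Type*} [DecidableEq V] (G : Finset (Finset V)) (a b c : V) : Prop :=
  ({a, b, c} : Finset V) ∈ G

instance {V : Type*} [DecidableEq V] (G : Finset (Finset V)) (a b c : V) :
    Decidable (Tri G a b c) := inferInstanceAs (Decidable (({a, b, c} : Finset V) ∈ G))

theorem Tri.swap12 {V : Type*} [DecidableEq V] {G : Finset (Finset V)} {a b c : V}
    (h : Tri G a b c) : Tri G b a c := by
  unfold Tri at *
  rwa [Finset.insert_comm]

theorem Tri.swap23 {V : Type*} [DecidableEq V] {G : Finset (Finset V)} {a b c : V}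
    (h : Tri G a b c) : Tri G a c b := by
  unfold Tri at *
  rwa [Finset.pair_comm]

/-- `G` is a 3-graph in which every 4-set of vertices contains an edge. -/
def Covers {V : Type*} [DecidableEq V] (G : Finset (Finset V)) : Prop :=
  ∀ a b c d : V, a ≠ b → a ≠ c → a ≠ d → b ≠ c → b ≠ d → c ≠ d →
    Tri G a b c ∨ Tri G a b d ∨ Tri G a c d ∨ Tri G b c d

theorem covers_of {V : Type*} [DecidableEq V] (G : Finset (Finset V))
    (h3 : ∀ e ∈ G, e.card = 3)
    (h4 : ∀ S : Finset V, S.card = 4 → ∃ e ∈ G, e ⊆ S) : Covers G := by
  intro a b c d hab hac had hbc hbd hcd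
  have hcard : ({a, b, c, d} : Finset V).card = 4 := by
    rw [Finset.card_insert_of_notMem (by simp [hab, hac, had]),
      Finset.card_insert_of_notMem (by simp [hbc, hbd]),
      Finset.card_insert_of_notMem (by simp [hcd]), Finset.card_singleton]
  obtain ⟨e, he, hsub⟩ := h4 _ hcard
  have he3 := h3 e he
  -- some element of `{a,b,c,d}` is missing
  have hmiss : ∃ z ∈ ({a, b, c, d} : Finset V), z ∉ e := by
    by_contra hcon
    push Not at hcon
    have : ({a, b, c, d} : Finset V) ⊆ e := hcon
    have := Finset.card_le_card this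
    omega
  obtain ⟨z, hz, hze⟩ := hmiss
  have hsub' : e ⊆ ({a, b, c, d} : Finset V).erase z := fun y hy =>
    Finset.mem_erase.2 ⟨fun h => hze (h ▸ hy), hsub hy⟩
  have heq : e = ({a, b, c, d} : Finset V).erase z := by
    apply Finset.eq_of_subset_of_card_le hsub'
    rw [Finset.card_erase_of_mem hz, hcard, he3]
  simp only [Finset.mem_insert, Finset.mem_singleton] at hz
  unfold Tri
  rcases hz with rfl | rfl | rfl | rfl
  · right; right; right
    rw [heq] at he
    convert he using 1
    ext y
    simp only [Finset.mem_insert, Finset.mem_singleton, Finset.mem_erase]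
    constructor
    · rintro (rfl | rfl | rfl)
      · exact ⟨hab.symm, by simp⟩
      · exact ⟨hac.symm, by simp⟩
      · exact ⟨had.symm, by simp⟩
    · rintro ⟨h1, (rfl | rfl | rfl | rfl)⟩ <;> simp_all
  · right; right; left
    rw [heq] at he
    convert he using 1
    ext y
    simp only [Finset.mem_insert, Finset.mem_singleton, Finset.mem_erase]
    constructor
    · rintro (rfl | rfl | rfl)
      · exact ⟨hab, by simp⟩
      · exact ⟨hbc.symm, by simp⟩
      · exact ⟨hbd.symm, by simp⟩
    · rintro ⟨h1, (rfl | rfl | rfl | rfl)⟩ <;> simp_all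
  · right; left
    rw [heq] at he
    convert he using 1
    ext y
    simp only [Finset.mem_insert, Finset.mem_singleton, Finset.mem_erase]
    constructor
    · rintro (rfl | rfl | rfl)
      · exact ⟨hac, by simp⟩
      · exact ⟨hbc, by simp⟩
      · exact ⟨hcd.symm, by simp⟩
    · rintro ⟨h1, (rfl | rfl | rfl | rfl)⟩ <;> simp_all
  · left
    rw [heq] at he
    convert he using 1
    ext y
    simp only [Finset.mem_insert, Finset.mem_singleton, Finset.mem_erase]
    constructor
    · rintro (rfl | rfl | rfl)
      · exact ⟨had, by simp⟩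
      · exact ⟨hbd, by simp⟩
      · exact ⟨hcd, by simp⟩
    · rintro ⟨h1, (rfl | rfl | rfl | rfl)⟩ <;> simp_all

/-- Large cliques of edges: in a 3-graph covering all 4-sets every large enough set of vertices
contains a set of `m` vertices all of whose triples are edges. -/
theorem exists_clique (m : ℕ) :
    ∃ R : ℕ, ∀ (n : ℕ) (G : Finset (Finset (Fin n))), Covers G →
      ∀ W : Finset (Fin n), R ≤ W.card →
      ∃ Q ⊆ W, Q.card = m ∧
        ∀ a ∈ Q, ∀ b ∈ Q, ∀ c ∈ Q, a ≠ b → a ≠ c → b ≠ c → Tri G a b c := by
  classical
  -- chains: `v ∈ Q` and all later pairs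
  have chain : ∀ k : ℕ, ∃ R : ℕ, ∀ (n : ℕ) (G : Finset (Finset (Fin n))), Covers G →
      ∀ W : Finset (Fin n), R ≤ W.card →
      (∃ Q ⊆ W, Q.card = m ∧
        ∀ a ∈ Q, ∀ b ∈ Q, ∀ c ∈ Q, a ≠ b → a ≠ c → b ≠ c → Tri G a b c) ∨
      (∃ Q ⊆ W, Q.card = k ∧
        ∀ a ∈ Q, ∀ b ∈ Q, ∀ c ∈ Q, a ≠ b → a ≠ c → b ≠ c → Tri G a b c) := by
    intro k
    induction k with
    | zero =>
      exact ⟨0, fun n G _ W _ => Or.inr ⟨∅, by simp, by simp, by simp⟩⟩
    | succ k ih =>
      obtain ⟨R, hR⟩ := ih
      obtain ⟨R', hR'⟩ := pair_ramsey Bool (max R m)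
      refine ⟨R' + 1, fun n G hG W hW => ?_⟩
      have hne : W.Nonempty := by
        rw [← Finset.card_pos]; omega
      obtain ⟨v, hv⟩ := hne
      have hcard : (W.erase v).card = W.card - 1 := Finset.card_erase_of_mem hv
      obtain ⟨W', hsub, hW'c, c, hc⟩ := hR' n (fun i j => decide (Tri G v i j)) (W.erase v)
        (by rw [hcard]; omega)
      cases c with
      | false =>
        -- no pair is in the link: all triples of `W'` are edges
        left
        obtain ⟨Q, hQ, hQc⟩ := Finset.exists_subset_card_eq
          (show m ≤ W'.card by rw [hW'c]; exact le_max_right _ _)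
        have hno : ∀ i ∈ W', ∀ j ∈ W', i ≠ j → ¬ Tri G v i j := by
          intro i hi j hj hij
          rcases lt_or_gt_of_ne hij with h | h
          · simpa using hc i hi j hj h
          · intro ht
            have := hc j hj i hi h
            simp only [decide_eq_false_iff_not] at this
            exact this ht.swap23
        refine ⟨Q, fun a ha => Finset.mem_of_mem_erase (hsub (hQ ha)), hQc, ?_⟩
        intro a ha b hb c hc' hab hac hbc
        have hva : ∀ a ∈ Q, v ≠ a := fun a ha h => by
          have := hsub (hQ ha)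
          rw [Finset.mem_erase] at this
          exact this.1 h.symm
        rcases hG v a b c (hva a ha) (hva b hb) (hva c hc') hab hac hbc with h | h | h | h
        · exact absurd h (hno a (hQ ha) b (hQ hb) hab)
        · exact absurd h (hno a (hQ ha) c (hQ hc') hac)
        · exact absurd h (hno b (hQ hb) c (hQ hc') hbc)
        · exact h
      | true =>
        have hyes : ∀ i ∈ W', ∀ j ∈ W', i ≠ j → Tri G v i j := by
          intro i hi j hj hij
          rcases lt_or_gt_of_ne hij with h | h
          · simpa using hc i hi j hj h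
          · have := hc j hj i hi h
            simp only [decide_eq_true_eq] at this
            exact this.swap23
        rcases hR n G hG W' (by rw [hW'c]; exact le_max_left _ _) with h | h
        · left
          obtain ⟨Q, hQ, hQ2⟩ := h
          exact ⟨Q, fun a ha => Finset.mem_of_mem_erase (hsub (hQ ha)), hQ2⟩
        · right
          obtain ⟨Q, hQ, hQc, hQ3⟩ := h
          have hvQ : v ∉ Q := fun h => by
            have := hsub (hQ h)
            simp at this
          refine ⟨insert v Q, ?_, by rw [Finset.card_insert_of_notMem hvQ, hQc], ?_⟩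
          · intro a ha
            rw [Finset.mem_insert] at ha
            rcases ha with rfl | ha
            · exact hv
            · exact Finset.mem_of_mem_erase (hsub (hQ ha))
          · intro a ha b hb c hc' hab hac hbc
            rw [Finset.mem_insert] at ha hb hc'
            rcases ha with rfl | ha
            · rcases hb with rfl | hb
              · exact absurd rfl hab
              · rcases hc' with rfl | hc'
                · exact absurd rfl hac
                · exact hyes b (hQ hb) c (hQ hc') hbc
            · rcases hb with rfl | hb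
              · rcases hc' with rfl | hc'
                · exact absurd rfl hbc
                · exact (hyes a (hQ ha) c (hQ hc') hac).swap12
              · rcases hc' with rfl | hc'
                · exact (hyes a (hQ ha) b (hQ hb) hab).swap12.swap23
                · exact hQ3 a ha b hb c hc' hab hac hbc
  obtain ⟨R, hR⟩ := chain m
  refine ⟨R, fun n G hG W hW => ?_⟩
  rcases hR n G hG W hW with h | h
  · exact h
  · exact h

end KalaiRank
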