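import Pool.Agent.Lib.MP_8317a8_co.YSpace

set_option autoImplicit false

namespace KalaiRank

open Finset Module

/-- The rational function field of the problem. -/
abbrev KK (n s : ℕ) : Type := FractionRing (MvPolynomial (Fin s × Fin n) ℚ)

/-- The generic vectors. -/
noncomputable def gx (n s : ℕ) : Fin n → Fin s → KK n s := fun a i =>
  algebraMap (MvPolynomial (Fin s × Fin n) ℚ) (FractionRing (MvPolynomial (Fin s × Fin n) ℚ))
    (MvPolynomial.X (i, a))

/-- The matrix `M_s(G)` of the problem. -/
noncomputable def kmat (n s : ℕ) (G : Finset (Finset (Fin n))) :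
    Matrix {e : Finset (Fin n) // e ∈ G} (Fin s × {p : Fin n × Fin n // p.1 < p.2}) (KK n s) :=
  Matrix.of (fun (e : {e : Finset (Fin n) // e ∈ G})
        (c : Fin s × {p : Fin n × Fin n // p.1 < p.2}) =>
      if c.2.1.1 ∈ e.1 ∧ c.2.1.2 ∈ e.1 then
        ∑ w ∈ e.1 \ {c.2.1.1, c.2.1.2},
          (if c.2.1.1 < w ∧ w < c.2.1.2 then
            algebraMap (MvPolynomial (Fin s × Fin n) ℚ)
              (FractionRing (MvPolynomial (Fin s × Fin n) ℚ))
              (MvPolynomial.X (c.1, w))
          else
            -algebraMap (MvPolynomial (Fin s × Fin n) ℚ)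
              (FractionRing (MvPolynomial (Fin s × Fin n) ℚ))
              (MvPolynomial.X (c.1, w)))
      else (0 : FractionRing (MvPolynomial (Fin s × Fin n) ℚ)))

/-- From a vector indexed by columns to an alternating function. -/
noncomputable def toY (n s : ℕ) :
    ((Fin s × {p : Fin n × Fin n // p.1 < p.2}) → KK n s) →ₗ[KK n s]
      (Fin n → Fin n → Fin s → KK n s) where
  toFun z := fun a b i => if h : a < b then z (i, ⟨(a, b), h⟩) else
    if h : b < a then - z (i, ⟨(b, a), h⟩) else 0
  map_add' y z := by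
    funext a b i
    simp only [Pi.add_apply]
    split_ifs
    · rfl
    · rw [neg_add]
    · rw [add_zero]
  map_smul' c z := by
    funext a b i
    simp only [Pi.smul_apply, smul_eq_mul, RingHom.id_apply]
    split_ifs
    · rfl
    · ring
    · ring

theorem toY_apply (n s : ℕ) (z : (Fin s × {p : Fin n × Fin n // p.1 < p.2}) → KK n s)
    (a b : Fin n) (i : Fin s) : toY n s z a b i = if h : a < b then z (i, ⟨(a, b), h⟩) else
    if h : b < a then - z (i, ⟨(b, a), h⟩) else 0 := rfl

theorem toY_lt (n s : ℕ) (z : (Fin s × {p : Fin n × Fin n // p.1 < p.2}) → KK n s)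
    (a b : Fin n) (i : Fin s) (h : a < b) : toY n s z a b i = z (i, ⟨(a, b), h⟩) := by
  rw [toY_apply, dif_pos h]

theorem toY_injective (n s : ℕ) : Function.Injective (toY n s) := by
  rw [injective_iff_map_eq_zero]
  intro z hz
  funext ⟨i, ⟨⟨a, b⟩, h⟩⟩
  have h1 := congrFun (congrFun (congrFun hz a) b) i
  have h' : a < b := h
  rw [toY_lt n s z a b i h'] at h1
  exact h1

theorem toY_antisymm (n s : ℕ) (z : (Fin s × {p : Fin n × Fin n // p.1 < p.2}) → KK n s)
    (a b : Fin n) : toY n s z a b = - toY n s z b a := by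
  funext i
  rw [Pi.neg_apply, toY_apply, toY_apply]
  rcases lt_trichotomy a b with h | h | h
  · rw [dif_pos h, dif_neg (not_lt.2 h.le), dif_pos h, neg_neg]
  · subst h
    simp
  · rw [dif_neg (not_lt.2 h.le), dif_pos h, dif_pos h]

/-- A row of the matrix. -/
theorem kmat_mulVec (n s : ℕ) (G : Finset (Finset (Fin n)))
    (z : (Fin s × {p : Fin n × Fin n // p.1 < p.2}) → KK n s) (a b c : Fin n)
    (hab : a < b) (hbc : b < c) (he : ({a, b, c} : Finset (Fin n)) ∈ G) :
    ((kmat n s G).mulVec z) ⟨{a, b, c}, he⟩ =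
      - (gx n s a ⬝ᵥ toY n s z b c + gx n s b ⬝ᵥ toY n s z c a + gx n s c ⬝ᵥ toY n s z a b) := by
  have hac : a < c := hab.trans hbc
  set pab : {p : Fin n × Fin n // p.1 < p.2} := ⟨(a, b), hab⟩ with hpab
  set pac : {p : Fin n × Fin n // p.1 < p.2} := ⟨(a, c), hac⟩ with hpac
  set pbc : {p : Fin n × Fin n // p.1 < p.2} := ⟨(b, c), hbc⟩ with hpbc
  have n1 : pab ≠ pac := by
    intro h
    rw [hpab, hpac, Subtype.mk.injEq, Prod.mk.injEq] at h
    exact hbc.ne h.2
  have n2 : pab ≠ pbc := by
    intro h
    rw [hpab, hpbc, Subtype.mk.injEq, Prod.mk.injEq] at h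
    exact hab.ne h.1
  have n3 : pac ≠ pbc := by
    intro h
    rw [hpac, hpbc, Subtype.mk.injEq, Prod.mk.injEq] at h
    exact hab.ne h.1
  have e1 : ({a, b, c} : Finset (Fin n)) \ {a, b} = {c} := by
    ext y
    simp only [Finset.mem_sdiff, Finset.mem_insert, Finset.mem_singleton]
    constructor
    · rintro ⟨h1, h2⟩; tauto
    · rintro rfl
      exact ⟨by tauto, by rintro (h | h); exact hac.ne' h; exact hbc.ne' h⟩
  have e2 : ({a, b, c} : Finset (Fin n)) \ {a, c} = {b} := by
    ext y
    simp only [Finset.mem_sdiff, Finset.mem_insert, Finset.mem_singleton]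
    constructor
    · rintro ⟨h1, h2⟩; tauto
    · rintro rfl
      exact ⟨by tauto, by rintro (h | h); exact hab.ne' h; exact hbc.ne h⟩
  have e3 : ({a, b, c} : Finset (Fin n)) \ {b, c} = {a} := by
    ext y
    simp only [Finset.mem_sdiff, Finset.mem_insert, Finset.mem_singleton]
    constructor
    · rintro ⟨h1, h2⟩; tauto
    · rintro rfl
      exact ⟨by tauto, by rintro (h | h); exact hab.ne h; exact hac.ne h⟩
  have hi : ∀ i : Fin s, ∑ p : {p : Fin n × Fin n // p.1 < p.2},
      (kmat n s G) ⟨{a, b, c}, he⟩ (i, p) * z (i, p) =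
      - (gx n s c i) * z (i, pab) + gx n s b i * z (i, pac) + - (gx n s a i) * z (i, pbc) := by
    intro i
    rw [← Finset.sum_subset (Finset.subset_univ ({pab, pac, pbc} : Finset _))]
    · rw [Finset.sum_insert (by simp [n1, n2]), Finset.sum_insert (by simp [n3]),
        Finset.sum_singleton]
      have m1 : (kmat n s G) ⟨{a, b, c}, he⟩ (i, pab) = - gx n s c i := by
        simp only [kmat, Matrix.of_apply, hpab]
        rw [if_pos ⟨by simp, by simp⟩, e1, Finset.sum_singleton,
          if_neg (fun h => absurd h.2 (not_lt.2 hbc.le))]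
        rfl
      have m2 : (kmat n s G) ⟨{a, b, c}, he⟩ (i, pac) = gx n s b i := by
        simp only [kmat, Matrix.of_apply, hpac]
        rw [if_pos ⟨by simp, by simp⟩, e2, Finset.sum_singleton, if_pos ⟨hab, hbc⟩]
        rfl
      have m3 : (kmat n s G) ⟨{a, b, c}, he⟩ (i, pbc) = - gx n s a i := by
        simp only [kmat, Matrix.of_apply, hpbc]
        rw [if_pos ⟨by simp, by simp⟩, e3, Finset.sum_singleton,
          if_neg (fun h => absurd h.1 (not_lt.2 hab.le))]
        rfl
      rw [m1, m2, m3]
      ring
    · intro p _ hp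
      have : ¬ (p.1.1 ∈ ({a, b, c} : Finset (Fin n)) ∧ p.1.2 ∈ ({a, b, c} : Finset (Fin n))) := by
        rintro ⟨h1, h2⟩
        apply hp
        obtain ⟨⟨p1, p2⟩, hlt⟩ := p
        simp only [Finset.mem_insert, Finset.mem_singleton] at h1 h2 hlt ⊢
        simp only [hpab, hpac, hpbc, Subtype.mk.injEq, Prod.mk.injEq]
        rcases h1 with rfl | rfl | rfl <;> rcases h2 with rfl | rfl | rfl
        · exact absurd hlt (lt_irrefl _)
        · simp
        · simp
        · exact absurd hlt (not_lt.2 hab.le)
        · exact absurd hlt (lt_irrefl _)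
        · simp
        · exact absurd hlt (not_lt.2 hac.le)
        · exact absurd hlt (not_lt.2 hbc.le)
        · exact absurd hlt (lt_irrefl _)
      simp only [kmat, Matrix.of_apply]
      rw [if_neg this, zero_mul]
  have hsum : ((kmat n s G).mulVec z) ⟨{a, b, c}, he⟩ =
      ∑ i : Fin s, ∑ p : {p : Fin n × Fin n // p.1 < p.2},
      (kmat n s G) ⟨{a, b, c}, he⟩ (i, p) * z (i, p) := by
    rw [Matrix.mulVec, dotProduct, Fintype.sum_prod_type]
  rw [hsum, Finset.sum_congr rfl (fun i _ => hi i)]
  simp only [dotProduct]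
  rw [← Finset.sum_add_distrib, ← Finset.sum_add_distrib, ← Finset.sum_neg_distrib]
  refine Finset.sum_congr rfl fun i _ => ?_
  rw [toY_lt n s z b c i hbc, toY_lt n s z a b i hab, toY_antisymm n s z c a, Pi.neg_apply,
    toY_lt n s z a c i hac]
  ring

theorem toY_mem (n s : ℕ) (G : Finset (Finset (Fin n)))
    (z : (Fin s × {p : Fin n × Fin n // p.1 < p.2}) → KK n s)
    (hz : (kmat n s G).mulVec z = 0) : toY n s z ∈ YSp G (gx n s) Finset.univ := by
  have hanti := toY_antisymm n s z
  have hsorted : ∀ a b c : Fin n, a < b → b < c → Tri G a b c →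
      gx n s a ⬝ᵥ toY n s z b c + gx n s b ⬝ᵥ toY n s z c a + gx n s c ⬝ᵥ toY n s z a b = 0 := by
    intro a b c hab hbc ht
    have h1 := kmat_mulVec n s G z a b c hab hbc ht
    rw [hz] at h1
    have h2 : (0 : KK n s) = -(gx n s a ⬝ᵥ toY n s z b c + gx n s b ⬝ᵥ toY n s z c a +
      gx n s c ⬝ᵥ toY n s z a b) := h1
    exact neg_eq_zero.1 h2.symm
  refine ⟨hanti, fun a => ?_, fun a b ha => absurd (Finset.mem_univ a) ha,
    fun a _ b _ c _ hab hac hbc ht => ?_⟩
  · funext i
    rw [toY_apply]
    simp
  · -- sort the three vertices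
    rcases lt_or_gt_of_ne hab with h1 | h1
    · rcases lt_or_gt_of_ne hbc with h2 | h2
      · exact hsorted a b c h1 h2 ht
      · rcases lt_or_gt_of_ne hac with h3 | h3
        · -- a < c < b
          have := hsorted a c b h3 h2 ht.swap23
          rw [hanti c b, hanti b a, hanti a c] at this
          simp only [dotProduct_neg] at this
          linear_combination -this
        · -- c < a < b
          have := hsorted c a b h3 h1 ht.swap23.swap12
          linear_combination this
    · rcases lt_or_gt_of_ne hbc with h2 | h2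
      · rcases lt_or_gt_of_ne hac with h3 | h3
        · -- b < a < c
          have := hsorted b a c h1 h3 ht.swap12
          rw [hanti a c, hanti c b, hanti b a] at this
          simp only [dotProduct_neg] at this
          linear_combination -this
        · -- b < c < a
          have := hsorted b c a h2 h3 ht.swap12.swap23
          linear_combination this
      · -- c < b < a
        have := hsorted c b a h2 h1 ht.swap23.swap12.swap23
        rw [hanti b a, hanti a c, hanti c b] at this
        simp only [dotProduct_neg] at this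
        linear_combination -this

theorem card_pairs (n : ℕ) : Fintype.card {p : Fin n × Fin n // p.1 < p.2} = n.choose 2 := by
  rw [Fintype.card_subtype]
  have h1 : (Finset.univ.filter (fun p : Fin n × Fin n => p.1 < p.2)).card =
      ∑ j : Fin n, (Finset.univ.filter (fun i : Fin n => i < j)).card := by
    rw [Finset.card_eq_sum_ones, Finset.sum_filter, Fintype.sum_prod_type, Finset.sum_comm]
    refine Finset.sum_congr rfl fun j _ => ?_
    rw [Finset.card_eq_sum_ones, Finset.sum_filter]
  rw [h1]
  have h2 : ∀ j : Fin n, (Finset.univ.filter (fun i : Fin n => i < j)).card = j.val := by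
    intro j
    have : (Finset.univ.filter (fun i : Fin n => i < j)) = Finset.Iio j := by
      ext i; simp
    rw [this, Fin.card_Iio]
  rw [Finset.sum_congr rfl (fun j _ => h2 j), Fin.sum_univ_eq_sum_range (fun i => i) n,
    Finset.sum_range_id, Nat.choose_two_right]

theorem rank_kmat (n s : ℕ) (G : Finset (Finset (Fin n))) :
    s * n.choose 2 ≤ (kmat n s G).rank + finrank (KK n s) (YSp G (gx n s) Finset.univ) := by
  have h1 := LinearMap.finrank_range_add_finrank_ker (kmat n s G).mulVecLin
  have h2 : finrank (KK n s) ((Fin s × {p : Fin n × Fin n // p.1 < p.2}) → KK n s) =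
      s * n.choose 2 := by
    rw [Module.finrank_fintype_fun_eq_card, Fintype.card_prod, Fintype.card_fin, card_pairs]
  have h3 : finrank (KK n s) (LinearMap.ker (kmat n s G).mulVecLin) ≤
      finrank (KK n s) (YSp G (gx n s) Finset.univ) := by
    let φ : LinearMap.ker (kmat n s G).mulVecLin →ₗ[KK n s] YSp G (gx n s) Finset.univ :=
      LinearMap.codRestrict _ ((toY n s).comp (LinearMap.ker (kmat n s G).mulVecLin).subtype)
        (fun z => toY_mem n s G z.1 (by
          have := z.2
          rwa [LinearMap.mem_ker, Matrix.mulVecLin_apply] at this))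
    apply LinearMap.finrank_le_finrank_of_injective (f := φ)
    intro z w hzw
    apply Subtype.ext
    apply toY_injective n s
    exact congrArg Subtype.val hzw
  have h4 : (kmat n s G).rank = finrank (KK n s) (LinearMap.range (kmat n s G).mulVecLin) := rfl
  omega

end KalaiRank
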