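import Pool.Agent.Lib.MP_8317a8_co.Match

set_option autoImplicit false

namespace KalaiRank

open Finset

section counting

variable {V : Type*} [DecidableEq V] {G : Finset (Finset V)}

/-- Number of edges inside `A`. -/
def ec (G : Finset (Finset V)) (A : Finset V) : ℕ := (G.filter (fun e => e ⊆ A)).card

/-- Number of edges inside `A` containing `v`. -/
def dv (G : Finset (Finset V)) (A : Finset V) (v : V) : ℕ :=
  (G.filter (fun e => e ⊆ A ∧ v ∈ e)).card

theorem ec_erase (A : Finset V) (v : V) : ec G A = ec G (A.erase v) + dv G A v := by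
  unfold ec dv
  rw [← Finset.card_union_of_disjoint]
  · congr 1
    ext e
    simp only [Finset.mem_filter, Finset.mem_union]
    constructor
    · rintro ⟨h1, h2⟩
      by_cases hv : v ∈ e
      · exact Or.inr ⟨h1, h2, hv⟩
      · exact Or.inl ⟨h1, Finset.subset_erase.2 ⟨h2, hv⟩⟩
    · rintro (⟨h1, h2⟩ | ⟨h1, h2, _⟩)
      · exact ⟨h1, h2.trans (Finset.erase_subset _ _)⟩
      · exact ⟨h1, h2⟩
  · rw [Finset.disjoint_left]
    intro e he he'
    rw [Finset.mem_filter] at he he'
    exact Finset.notMem_erase v A (he.2 he'.2.2)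

/-- Double counting: the sum of the degrees is three times the number of edges. -/
theorem sum_dv (h3 : ∀ e ∈ G, e.card = 3) (A : Finset V) : ∑ v ∈ A, dv G A v = 3 * ec G A := by
  unfold dv ec
  have h1 : ∀ v ∈ A, (G.filter (fun e => e ⊆ A ∧ v ∈ e)).card =
      ∑ e ∈ G.filter (fun e => e ⊆ A), (if v ∈ e then 1 else 0) := by
    intro v _
    rw [← Finset.card_filter, Finset.filter_filter]
  rw [Finset.sum_congr rfl h1, Finset.sum_comm]
  have h2 : ∀ e ∈ G.filter (fun e => e ⊆ A), ∑ v ∈ A, (if v ∈ e then 1 else 0) = 3 := by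
    intro e he
    rw [Finset.mem_filter] at he
    rw [← Finset.card_filter, Finset.filter_mem_eq_inter, Finset.inter_eq_right.2 he.2,
      h3 e he.1]
  rw [Finset.sum_congr rfl h2, Finset.sum_const, smul_eq_mul, mul_comm]

theorem sum_ec_erase (h3 : ∀ e ∈ G, e.card = 3) (A : Finset V) :
    ∑ v ∈ A, ec G (A.erase v) + 3 * ec G A = A.card * ec G A := by
  rw [← sum_dv h3 A, ← Finset.sum_add_distrib]
  rw [Finset.sum_congr rfl (fun v _ => (ec_erase A v).symm), Finset.sum_const, smul_eq_mul]

theorem ec4 (hG : Covers G) (A : Finset V) (hA : A.card = 4) : 1 ≤ ec G A := by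
  obtain ⟨a, b, c, d, hab, hac, had, hbc, hbd, hcd, rfl⟩ := Finset.card_eq_four.1 hA
  unfold ec
  rw [Nat.one_le_iff_ne_zero, Ne, Finset.card_eq_zero, ← Ne, ← Finset.nonempty_iff_ne_empty]
  rcases hG a b c d hab hac had hbc hbd hcd with h | h | h | h
  · exact ⟨_, Finset.mem_filter.2 ⟨h, by
      intro x hx
      simp only [Finset.mem_insert, Finset.mem_singleton] at hx ⊢
      tauto⟩⟩
  · exact ⟨_, Finset.mem_filter.2 ⟨h, by
      intro x hx
      simp only [Finset.mem_insert, Finset.mem_singleton] at hx ⊢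
      tauto⟩⟩
  · exact ⟨_, Finset.mem_filter.2 ⟨h, by
      intro x hx
      simp only [Finset.mem_insert, Finset.mem_singleton] at hx ⊢
      tauto⟩⟩
  · exact ⟨_, Finset.mem_filter.2 ⟨h, by
      intro x hx
      simp only [Finset.mem_insert, Finset.mem_singleton] at hx ⊢
      tauto⟩⟩

theorem ec5 (h3 : ∀ e ∈ G, e.card = 3) (hG : Covers G) (A : Finset V) (hA : A.card = 5) :
    3 ≤ ec G A := by
  have h1 := sum_ec_erase h3 A
  have h2 : A.card * 1 ≤ ∑ v ∈ A, ec G (A.erase v) := by
    rw [← smul_eq_mul, ← Finset.sum_const]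
    refine Finset.sum_le_sum fun v hv => ec4 hG _ ?_
    rw [Finset.card_erase_of_mem hv, hA]
  rw [hA] at h1 h2
  omega

theorem ec6 (h3 : ∀ e ∈ G, e.card = 3) (hG : Covers G) (A : Finset V) (hA : A.card = 6) :
    6 ≤ ec G A := by
  have h1 := sum_ec_erase h3 A
  have h2 : A.card * 3 ≤ ∑ v ∈ A, ec G (A.erase v) := by
    rw [← smul_eq_mul, ← Finset.sum_const]
    refine Finset.sum_le_sum fun v hv => ec5 h3 hG _ ?_
    rw [Finset.card_erase_of_mem hv, hA]
  rw [hA] at h1 h2
  omega

/-- Twice the degree is at most the number of ordered adjacent pairs in the link. -/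
theorem two_dv_le (h3 : ∀ e ∈ G, e.card = 3) (A : Finset V) (v : V) (hv : v ∈ A) :
    2 * dv G A v ≤ NN G v (A.erase v) := by
  unfold dv NN
  set D := G.filter (fun e => e ⊆ A ∧ v ∈ e) with hD
  set P := ((A.erase v) ×ˢ (A.erase v)).filter (fun p => Tri G v p.1 p.2) with hP
  have hmap : ∀ p ∈ P, ({v, p.1, p.2} : Finset V) ∈ D := by
    intro p hp
    rw [hP, Finset.mem_filter, Finset.mem_product, Finset.mem_erase, Finset.mem_erase] at hp
    rw [hD, Finset.mem_filter]
    refine ⟨hp.2, ?_, by simp⟩
    intro x hx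
    simp only [Finset.mem_insert, Finset.mem_singleton] at hx
    rcases hx with rfl | rfl | rfl
    · exact hv
    · exact hp.1.1.2
    · exact hp.1.2.2
  rw [Finset.card_eq_sum_card_fiberwise (f := fun p : V × V => ({v, p.1, p.2} : Finset V))
    (s := P) (t := D) (fun p hp => hmap p hp)]
  rw [mul_comm, ← smul_eq_mul, ← Finset.sum_const]
  refine Finset.sum_le_sum fun e he => ?_
  rw [hD, Finset.mem_filter] at he
  obtain ⟨heG, heA, hve⟩ := he
  have hc : (e.erase v).card = 2 := by
    rw [Finset.card_erase_of_mem hve, h3 e heG]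
  obtain ⟨a, b, hab, hab2⟩ := Finset.card_eq_two.1 hc
  have ha : a ∈ e.erase v := by rw [hab2]; simp
  have hb : b ∈ e.erase v := by rw [hab2]; simp
  rw [Finset.mem_erase] at ha hb
  have heq : ({v, a, b} : Finset V) = e := by
    rw [← Finset.insert_erase hve, hab2]
  have heq2 : ({v, b, a} : Finset V) = e := by
    rw [Finset.pair_comm, heq]
  have h1 : 1 < (P.filter (fun p => ({v, p.1, p.2} : Finset V) = e)).card := by
    rw [Finset.one_lt_card]
    refine ⟨(a, b), ?_, (b, a), ?_, ?_⟩
    · rw [Finset.mem_filter, hP, Finset.mem_filter, Finset.mem_product, Finset.mem_erase,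
        Finset.mem_erase]
      refine ⟨⟨⟨⟨ha.1, heA ha.2⟩, ⟨hb.1, heA hb.2⟩⟩, ?_⟩, heq⟩
      unfold Tri
      rw [heq]; exact heG
    · rw [Finset.mem_filter, hP, Finset.mem_filter, Finset.mem_product, Finset.mem_erase,
        Finset.mem_erase]
      refine ⟨⟨⟨⟨hb.1, heA hb.2⟩, ⟨ha.1, heA ha.2⟩⟩, ?_⟩, heq2⟩
      unfold Tri
      rw [heq2]; exact heG
    · intro h
      rw [Prod.mk.injEq] at h
      exact hab h.1
  exact h1

end counting

section seven

variable {V : Type*} [DecidableEq V] {G : Finset (Finset V)} {U : Finset V}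

/-- In the bad situation on seven vertices every degree is at most five. -/
theorem Ctx.dv_le (c : Ctx G U) (hU : U.card = 7) {v : V} (hv : v ∈ U) : dv G U v ≤ 5 := by
  classical
  by_contra hcon
  push Not at hcon
  have hN : 12 ≤ NN G v (U.erase v) := by
    have := two_dv_le c.h3 U v hv
    omega
  have hUv : (U.erase v).card = 6 := by
    rw [Finset.card_erase_of_mem hv, hU]
  by_cases hK : HasK4 G v (U.erase v)
  · obtain ⟨K, hKU, hKc, hKT⟩ := hK
    have hrest : ((U.erase v) \ K).card = 2 := by
      rw [Finset.card_sdiff_of_subset hKU, hUv, hKc]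
    obtain ⟨e, f, hef, hefeq⟩ := Finset.card_eq_two.1 hrest
    have he : e ∈ (U.erase v) \ K := by rw [hefeq]; simp
    have hf : f ∈ (U.erase v) \ K := by rw [hefeq]; simp
    rw [Finset.mem_sdiff, Finset.mem_erase] at he hf
    obtain ⟨⟨hev, heU⟩, heK⟩ := he
    obtain ⟨⟨hfv, hfU⟩, hfK⟩ := hf
    have hKU' : ∀ p ∈ K, p ∈ U ∧ p ≠ v ∧ p ≠ e ∧ p ≠ f := by
      intro p hp
      have := hKU hp
      rw [Finset.mem_erase] at this
      exact ⟨this.2, this.1, fun h => heK (h ▸ hp), fun h => hfK (h ▸ hp)⟩
    have hall : ∀ t ∈ U, t ≠ v → t ∈ K ∨ t = e ∨ t = f := by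
      intro t ht htv
      by_cases htK : t ∈ K
      · exact Or.inl htK
      · right
        have : t ∈ (U.erase v) \ K := by
          rw [Finset.mem_sdiff, Finset.mem_erase]
          exact ⟨⟨htv, ht⟩, htK⟩
        rwa [hefeq, Finset.mem_insert, Finset.mem_singleton] at this
    have hKfour : ∀ p ∈ K, ∀ q ∈ K, ∀ r ∈ K, ∀ s ∈ K, p ≠ q → p ≠ r → p ≠ s → q ≠ r → q ≠ s →
        r ≠ s → ∀ t ∈ K, t = p ∨ t = q ∨ t = r ∨ t = s := by
      intro p hp q hq r hr s hs h1 h2 h3 h4 h5 h6 t ht
      have hsub : ({p, q, r, s} : Finset V) ⊆ K := by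
        intro x hx
        simp only [Finset.mem_insert, Finset.mem_singleton] at hx
        rcases hx with rfl | rfl | rfl | rfl <;> assumption
      have hc4 : ({p, q, r, s} : Finset V).card = 4 := by
        rw [Finset.card_insert_of_notMem (by simp [h1, h2, h3]),
          Finset.card_insert_of_notMem (by simp [h4, h5]),
          Finset.card_insert_of_notMem (by simp [h6]), Finset.card_singleton]
      have heq := Finset.eq_of_subset_of_card_le hsub (by rw [hc4, hKc])
      rw [← heq] at ht
      simpa only [Finset.mem_insert, Finset.mem_singleton] using ht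
    -- four distinct elements of `K`
    obtain ⟨a, b, d, g, hab, had, hag, hbd, hbg, hdg, hKeq⟩ := Finset.card_eq_four.1 hKc
    have ha : a ∈ K := by rw [hKeq]; simp
    have hb : b ∈ K := by rw [hKeq]; simp
    have hd : d ∈ K := by rw [hKeq]; simp
    have hg : g ∈ K := by rw [hKeq]; simp
    -- the four clique vertices cost three
    have base : ∀ p ∈ K, ∀ q ∈ K, ∀ r ∈ K, ∀ s ∈ K, p ≠ q → p ≠ r → p ≠ s → q ≠ r → q ≠ s →
        r ≠ s → Sq G U v (insert s (insert r (insert q (insert p ∅)))) 3 := by
      intro p hp q hq r hr s hs h1 h2 h3 h4 h5 h6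
      exact ((((Sq.start G U v).add2 (hKU' p hp).1 (hKU' p hp).2.1).add1 c (hKU' q hq).1 (a := p)
        (by simp) (hKT q hq p hp h1.symm)).add0 c (hKU' r hr).1 (a := p) (b := q) (by simp)
        (by simp) h1 (hKT r hr p hp h2.symm) (hKT r hr q hq h4.symm)).add0 c (hKU' s hs).1
        (a := p) (b := q) (by simp) (by simp) h1 (hKT s hs p hp h3.symm) (hKT s hs q hq h5.symm)
    -- `e`, `f` are isolated in the link of `v`
    have nef : ¬ Tri G v e f := by
      intro hT
      have sq := ((base a ha b hb d hd g hg hab had hag hbd hbg hdg).add2 heU hev).add1 c hfU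
        (a := e) (by simp) hT.swap23
      refine sq.no c hv (by norm_num) ?_
      intro t ht htv hnot
      simp only [Finset.mem_insert, Finset.notMem_empty, or_false, not_or] at hnot
      exfalso
      rcases hall t ht htv with h | h | h
      · rcases hKfour a ha b hb d hd g hg hab had hag hbd hbg hdg t h with h | h | h | h
        · exact hnot.2.2.2.2.2 h
        · exact hnot.2.2.2.2.1 h
        · exact hnot.2.2.2.1 h
        · exact hnot.2.2.1 h
      · exact hnot.2.1 h
      · exact hnot.1 h
    have isol : ∀ t t' : V, t ∈ U → t ≠ v → t' ∈ U → t' ≠ v →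
        (∀ s ∈ U, s ≠ v → s ∈ K ∨ s = t ∨ s = t') → ∀ p ∈ K, ¬ Tri G v t p := by
      intro t t' htU htv ht'U ht'v hall' p hp hT
      have hpa : p ∈ insert g (insert d (insert b (insert a (∅ : Finset V)))) := by
        rcases hKfour a ha b hb d hd g hg hab had hag hbd hbg hdg p hp with h | h | h | h <;>
          simp [h]
      have sq := ((base a ha b hb d hd g hg hab had hag hbd hbg hdg).add1 c htU (a := p) hpa
        hT).add2 ht'U ht'v
      refine sq.no c hv (by norm_num) ?_
      intro s hs hsv hnot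
      simp only [Finset.mem_insert, Finset.notMem_empty, or_false, not_or] at hnot
      exfalso
      rcases hall' s hs hsv with h | h | h
      · rcases hKfour a ha b hb d hd g hg hab had hag hbd hbg hdg s h with h | h | h | h
        · exact hnot.2.2.2.2.2 h
        · exact hnot.2.2.2.2.1 h
        · exact hnot.2.2.2.1 h
        · exact hnot.2.2.1 h
      · exact hnot.2.1 h
      · exact hnot.1 h
    have ne' := isol e f heU hev hfU hfv hall
    have nf' := isol f e hfU hfv heU hev (fun s hs hsv => by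
      rcases hall s hs hsv with h | h | h
      · exact Or.inl h
      · exact Or.inr (Or.inr h)
      · exact Or.inr (Or.inl h))
    -- `e f p` is an edge for all `p` in `K`
    have Tef : ∀ p ∈ K, Tri G e f p := by
      intro p hp
      obtain ⟨hpU, hpv, hpe, hpf⟩ := hKU' p hp
      exact c.cov.elim hev.symm hfv.symm hpv.symm hef hpe.symm hpf.symm nef (ne' p hp) (nf' p hp)
    -- at most one edge inside `K` in the link of `e`
    have q2 : ∀ p ∈ K, ∀ q ∈ K, ∀ r ∈ K, ∀ s ∈ K, p ≠ q → p ≠ r → p ≠ s → q ≠ r → q ≠ s →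
        r ≠ s → Tri G e p q → ¬ Tri G e p r ∧ ¬ Tri G e r s := by
      intro p hp q hq r hr s hs h1 h2 h3 h4 h5 h6 hT
      obtain ⟨hpU, hpv, hpe, hpf⟩ := hKU' p hp
      obtain ⟨hqU, hqv, hqe, hqf⟩ := hKU' q hq
      obtain ⟨hrU, hrv, hre, hrf⟩ := hKU' r hr
      obtain ⟨hsU, hsv, hse, hsf⟩ := hKU' s hs
      have b0 := ((((Sq.start G U e).add2 hfU hef.symm).add1 c hpU (a := f) (by simp)
        (Tef p hp).swap23).add0 c hqU (a := f) (b := p) (by simp) (by simp) hpf.symm
        (Tef q hq).swap23 hT.swap23)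
      have fin : ∀ A : Finset V, f ∈ A → p ∈ A → q ∈ A → r ∈ A → s ∈ A → v ∈ A →
          ∀ t ∈ U, t ≠ e → t ∉ A → ∃ a ∈ A, ∃ b ∈ A, a ≠ b ∧ Tri G e t a ∧ Tri G e t b := by
        intro A mf mp mq mr ms mv t ht hte hnot
        exfalso
        have htv : t ≠ v := fun h => hnot (h ▸ mv)
        rcases hall t ht htv with h | h | h
        · rcases hKfour p hp q hq r hr s hs h1 h2 h3 h4 h5 h6 t h with h | h | h | h <;>
            exact hnot (by rw [h]; assumption)
        · exact hte h
        · exact hnot (h ▸ mf)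
      constructor
      · intro hT'
        have sq := ((b0.add0 c hrU (a := f) (b := p) (by simp) (by simp) hpf.symm
          (Tef r hr).swap23 hT'.swap23).add1 c hsU (a := f) (by simp) (Tef s hs).swap23).add2 hv
          hev.symm
        exact sq.no c heU (by norm_num) (fin _ (by simp) (by simp) (by simp) (by simp) (by simp)
          (by simp))
      · intro hT'
        have sq := ((b0.add1 c hrU (a := f) (by simp) (Tef r hr).swap23).add0 c hsU (a := f)
          (b := r) (by simp) (by simp) hrf.symm (Tef s hs).swap23 hT'.swap23).add2 hv hev.symm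
        exact sq.no c heU (by norm_num) (fin _ (by simp) (by simp) (by simp) (by simp) (by simp)
          (by simp))
    -- at most one triple inside `K`
    have q1 : ∀ p ∈ K, ∀ q ∈ K, ∀ r ∈ K, ∀ s ∈ K, p ≠ q → p ≠ r → p ≠ s → q ≠ r → q ≠ s →
        r ≠ s → Tri G p q r → ¬ Tri G p q s := by
      intro p hp q hq r hr s hs h1 h2 h3 h4 h5 h6 hT hT'
      obtain ⟨hpU, hpv, hpe, hpf⟩ := hKU' p hp
      obtain ⟨hqU, hqv, hqe, hqf⟩ := hKU' q hq
      obtain ⟨hrU, hrv, hre, hrf⟩ := hKU' r hr
      obtain ⟨hsU, hsv, hse, hsf⟩ := hKU' s hs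
      have sq := ((((((Sq.start G U p).add2 hv hpv.symm).add1 c hqU (a := v) (by simp)
        (hKT p hp q hq h1).bca).add0 c hrU (a := v) (b := q) (by simp) (by simp) hqv.symm
        (hKT p hp r hr h2).bca hT.swap23).add0 c hsU (a := v) (b := q) (by simp) (by simp)
        hqv.symm (hKT p hp s hs h3).bca hT'.swap23).add2 heU hpe.symm).add1 c hfU (a := e)
        (by simp) (Tef p hp).cba
      refine sq.no c hpU (by norm_num) ?_
      intro t ht htp hnot
      simp only [Finset.mem_insert, Finset.notMem_empty, or_false, not_or] at hnot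
      exfalso
      rcases hall t ht hnot.2.2.2.2.2 with h | h | h
      · rcases hKfour p hp q hq r hr s hs h1 h2 h3 h4 h5 h6 t h with h | h | h | h
        · exact htp h
        · exact hnot.2.2.2.2.1 h
        · exact hnot.2.2.2.1 h
        · exact hnot.2.2.1 h
      · exact hnot.2.1 h
      · exact hnot.1 h
    -- the four 4-sets containing `e`
    have E : ∀ p ∈ K, ∀ q ∈ K, ∀ r ∈ K, p ≠ q → p ≠ r → q ≠ r →
        Tri G p q r ∨ Tri G e p q ∨ Tri G e p r ∨ Tri G e q r := by
      intro p hp q hq r hr h1 h2 h3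
      rcases c.cov e p q r (hKU' p hp).2.2.1.symm (hKU' q hq).2.2.1.symm (hKU' r hr).2.2.1.symm
        h1 h2 h3 with h | h | h | h
      · exact Or.inr (Or.inl h)
      · exact Or.inr (Or.inr (Or.inl h))
      · exact Or.inr (Or.inr (Or.inr h))
      · exact Or.inl h
    -- an edge `p q` of the link of `e` inside `K` is impossible
    have noE : ∀ p ∈ K, ∀ q ∈ K, p ≠ q → ¬ Tri G e p q := by
      intro p hp q hq hpq hT
      have hc2 : ((K.erase p).erase q).card = 2 := by
        rw [Finset.card_erase_of_mem (Finset.mem_erase.2 ⟨Ne.symm hpq, hq⟩),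
          Finset.card_erase_of_mem hp, hKc]
      obtain ⟨r, s, hrs, hrseq⟩ := Finset.card_eq_two.1 hc2
      have hr : r ∈ (K.erase p).erase q := by rw [hrseq]; simp
      have hs : s ∈ (K.erase p).erase q := by rw [hrseq]; simp
      rw [Finset.mem_erase, Finset.mem_erase] at hr hs
      obtain ⟨hrq, hrp, hr⟩ := hr
      obtain ⟨hsq, hsp, hs⟩ := hs
      have A1 := q2 p hp q hq r hr s hs hpq hrp.symm hsp.symm hrq.symm hsq.symm hrs hT
      have A2 := q2 p hp q hq s hs r hr hpq hsp.symm hrp.symm hsq.symm hrq.symm hrs.symm hT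
      have A3 := q2 q hq p hp r hr s hs hpq.symm hrq.symm hsq.symm hrp.symm hsp.symm hrs
        hT.swap23
      have A4 := q2 q hq p hp s hs r hr hpq.symm hsq.symm hrq.symm hsp.symm hrp.symm hrs.symm
        hT.swap23
      have T1 : Tri G p r s := by
        rcases E p hp r hr s hs hrp.symm hsp.symm hrs with h | h | h | h
        · exact h
        · exact absurd h A1.1
        · exact absurd h A2.1
        · exact absurd h A1.2
      have T2 : Tri G q r s := by
        rcases E q hq r hr s hs hrq.symm hsq.symm hrs with h | h | h | h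
        · exact h
        · exact absurd h A3.1
        · exact absurd h A4.1
        · exact absurd h A1.2
      exact q1 r hr s hs p hp q hq hrs hrp hrq hsp hsq hpq T1.bca T2.bca
    have T1 : Tri G a b d := by
      rcases E a ha b hb d hd hab had hbd with h | h | h | h
      · exact h
      · exact absurd h (noE a ha b hb hab)
      · exact absurd h (noE a ha d hd had)
      · exact absurd h (noE b hb d hd hbd)
    have T2 : Tri G a b g := by
      rcases E a ha b hb g hg hab hag hbg with h | h | h | h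
      · exact h
      · exact absurd h (noE a ha b hb hab)
      · exact absurd h (noE a ha g hg hag)
      · exact absurd h (noE b hb g hg hbg)
    exact q1 a ha b hb d hd g hg hab had hag hbd hbg hdg T1 T2
  · obtain ⟨k, hk, hle⟩ := peel12 c.h3 (U.erase v) hK
    have h1 := c.bad v hv k hk
    rw [hUv] at hle
    omega

end seven

end KalaiRank
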