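import Pool.Agent.Lib.MP_8317a8_co.Good

set_option autoImplicit false

namespace KalaiRank

open Finset Module

section

variable {K : Type*} [Field K] {V : Type*} [DecidableEq V] {s : ℕ}

/-- The right kernel of the Kalai matrix, on the vertex set `U`. -/
def YSp (G : Finset (Finset V)) (x : V → Fin s → K) (U : Finset V) :
    Submodule K (V → V → Fin s → K) where
  carrier := {y | (∀ a b, y a b = - y b a) ∧ (∀ a, y a a = 0) ∧ (∀ a b, a ∉ U → y a b = 0) ∧
    ∀ a ∈ U, ∀ b ∈ U, ∀ c ∈ U, a ≠ b → a ≠ c → b ≠ c → Tri G a b c →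
      x a ⬝ᵥ y b c + x b ⬝ᵥ y c a + x c ⬝ᵥ y a b = 0}
  add_mem' := by
    rintro y z ⟨hy1, hy2, hy3, hy4⟩ ⟨hz1, hz2, hz3, hz4⟩
    refine ⟨fun a b => ?_, fun a => ?_, fun a b ha => ?_, fun a ha b hb c hc hab hac hbc ht => ?_⟩
    · simp only [Pi.add_apply]
      rw [hy1 a b, hz1 a b, neg_add]
    · simp only [Pi.add_apply, hy2 a, hz2 a, add_zero]
    · simp only [Pi.add_apply, hy3 a b ha, hz3 a b ha, add_zero]
    · simp only [Pi.add_apply, dotProduct_add]
      have h1 := hy4 a ha b hb c hc hab hac hbc ht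
      have h2 := hz4 a ha b hb c hc hab hac hbc ht
      linear_combination h1 + h2
  zero_mem' := ⟨fun a b => by simp, fun a => rfl, fun a b _ => rfl,
    fun a _ b _ c _ _ _ _ _ => by simp⟩
  smul_mem' := by
    rintro c y ⟨hy1, hy2, hy3, hy4⟩
    refine ⟨fun a b => ?_, fun a => ?_, fun a b ha => ?_, fun a ha b hb c' hc hab hac hbc ht => ?_⟩
    · simp only [Pi.smul_apply]
      rw [hy1 a b, smul_neg]
    · simp only [Pi.smul_apply, hy2 a, smul_zero]
    · simp only [Pi.smul_apply, hy3 a b ha, smul_zero]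
    · simp only [Pi.smul_apply, dotProduct_smul, smul_eq_mul]
      have h1 := hy4 a ha b hb c' hc hab hac hbc ht
      linear_combination c * h1

/-- Restriction to pairs inside `U`. -/
def restr2 (K : Type*) [Field K] {V : Type*} [DecidableEq V] (s : ℕ) (U : Finset V) :
    (V → V → Fin s → K) →ₗ[K] (V → V → Fin s → K) where
  toFun y := fun a b => if a ∈ U ∧ b ∈ U then y a b else 0
  map_add' y z := by
    funext a b; by_cases h : a ∈ U ∧ b ∈ U <;> simp [h]
  map_smul' c y := by
    funext a b; by_cases h : a ∈ U ∧ b ∈ U <;> simp [h]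

theorem restr2_apply (U : Finset V) (y : V → V → Fin s → K) (a b : V) :
    restr2 K s U y a b = if a ∈ U ∧ b ∈ U then y a b else 0 := rfl

theorem finrank_YSp_insert_le [Fintype V] (G : Finset (Finset V)) (x : V → Fin s → K)
    (U : Finset V) (v : V) (hv : v ∉ U) :
    finrank K (YSp G x (insert v U)) ≤ finrank K (YSp G x U) + finrank K (Sol G x v U) := by
  apply finrank_le_of_two (YSp G x (insert v U)) (YSp G x U) (Sol G x v U) (restr2 K s U)
    (LinearMap.proj v)
  · rintro y ⟨hy1, hy2, hy3, hy4⟩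
    refine ⟨fun a b => ?_, fun a => ?_, fun a b ha => ?_, fun a ha b hb c hc hab hac hbc ht => ?_⟩
    · rw [restr2_apply, restr2_apply]
      by_cases h : a ∈ U ∧ b ∈ U
      · rw [if_pos h, if_pos h.symm, hy1 a b]
      · rw [if_neg h, if_neg (fun h' => h h'.symm), neg_zero]
    · rw [restr2_apply]
      split_ifs
      · exact hy2 a
      · rfl
    · rw [restr2_apply, if_neg (fun h => ha h.1)]
    · rw [restr2_apply, restr2_apply, restr2_apply, if_pos ⟨hb, hc⟩, if_pos ⟨hc, ha⟩,
        if_pos ⟨ha, hb⟩]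
      exact hy4 a (Finset.mem_insert_of_mem ha) b (Finset.mem_insert_of_mem hb) c
        (Finset.mem_insert_of_mem hc) hab hac hbc ht
  · rintro y ⟨hy1, hy2, hy3, hy4⟩ hf
    have hf' : ∀ a ∈ U, ∀ b ∈ U, y a b = 0 := by
      intro a ha b hb
      have := congrFun (congrFun hf a) b
      rwa [restr2_apply, if_pos ⟨ha, hb⟩] at this
    refine ⟨fun b hb => ?_, fun a ha b hb hab ht => ?_⟩
    · change y v b = 0
      by_cases h : b = v
      · rw [h]; exact hy2 v
      · rw [hy1 v b, hy3 b v (by rw [Finset.mem_insert]; tauto), neg_zero]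
    · change x a ⬝ᵥ y v b = x b ⬝ᵥ y v a
      have hva : v ≠ a := fun h => hv (h ▸ ha)
      have hvb : v ≠ b := fun h => hv (h ▸ hb)
      have h1 := hy4 v (Finset.mem_insert_self v U) a (Finset.mem_insert_of_mem ha) b
        (Finset.mem_insert_of_mem hb) hva hvb hab ht
      rw [hf' a ha b hb, dotProduct_zero, hy1 b v, dotProduct_neg] at h1
      linear_combination -h1
  · rintro y ⟨hy1, hy2, hy3, hy4⟩ hf hg
    have hg' : ∀ b, y v b = 0 := fun b => congrFun hg b
    funext a b
    by_cases ha : a ∈ U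
    · by_cases hb : b ∈ U
      · have := congrFun (congrFun hf a) b
        rwa [restr2_apply, if_pos ⟨ha, hb⟩] at this
      · by_cases hbv : b = v
        · rw [hy1 a b, hbv, hg' a, neg_zero]; rfl
        · rw [hy1 a b, hy3 b a (by rw [Finset.mem_insert]; tauto), neg_zero]; rfl
    · by_cases hav : a = v
      · rw [hav, hg' b]; rfl
      · rw [hy3 a b (by rw [Finset.mem_insert]; tauto)]; rfl

theorem finrank_YSp_empty [Fintype V] (G : Finset (Finset V)) (x : V → Fin s → K) :
    finrank K (YSp G x ∅) = 0 := by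
  have : YSp G x ∅ = ⊥ := by
    rw [eq_bot_iff]
    rintro y ⟨hy1, hy2, hy3, hy4⟩
    rw [Submodule.mem_bot]
    funext a b
    exact hy3 a b (by simp)
  rw [this, finrank_bot]

theorem finrank_YSp_le_sq [Fintype V] (G : Finset (Finset V)) (x : V → Fin s → K)
    (U : Finset V) : finrank K (YSp G x U) ≤ s * (U.card * U.card) := by
  induction U using Finset.induction_on with
  | empty => rw [finrank_YSp_empty]; simp
  | insert v U hv ih =>
    have h1 := finrank_YSp_insert_le G x U v hv
    have h2 := finrank_Sol_le_card G x v U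
    rw [Finset.card_insert_of_notMem hv]
    calc finrank K (YSp G x (insert v U)) ≤ s * (U.card * U.card) + s * U.card := by omega
      _ ≤ s * ((U.card + 1) * (U.card + 1)) := by
        rw [← mul_add]
        apply Nat.mul_le_mul_left
        nlinarith

end

/-- The linear bound for the kernel. -/
theorem YSp_bound (s : ℕ) (hs : 1 ≤ s) : ∃ C : ℕ, ∀ (K : Type) [Field K] (n : ℕ)
    (x : Fin n → Fin s → K), GenPos x → ∀ G : Finset (Finset (Fin n)), Covers G →
    ∀ U : Finset (Fin n), finrank K (YSp G x U) ≤ s * (s + 1) * U.card + C := by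
  obtain ⟨N, hN⟩ := good_vertex s hs
  refine ⟨s * (N * N), fun K _ n x hx G hG => ?_⟩
  have key : ∀ m : ℕ, ∀ U : Finset (Fin n), U.card = m →
      finrank K (YSp G x U) ≤ s * (s + 1) * m + s * (N * N) := by
    intro m
    induction m with
    | zero =>
      intro U hU
      have := finrank_YSp_le_sq G x U
      rw [hU] at this
      have h0 : s * (0 * 0) = 0 := by simp
      exact (this.trans h0.le).trans (Nat.zero_le _)
    | succ m ih =>
      intro U hU
      rcases lt_or_ge U.card N with h | h
      · have h1 := finrank_YSp_le_sq G x U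
        have h2 : s * (U.card * U.card) ≤ s * (N * N) :=
          Nat.mul_le_mul_left _ (Nat.mul_le_mul h.le h.le)
        omega
      · obtain ⟨v, hv, hgood⟩ := hN K n x hx G hG U h
        have h1 := finrank_YSp_insert_le G x (U.erase v) v (Finset.notMem_erase v U)
        rw [Finset.insert_erase hv] at h1
        have h2 := ih (U.erase v) (by rw [Finset.card_erase_of_mem hv, hU]; rfl)
        calc finrank K (YSp G x U) ≤ (s * (s + 1) * m + s * (N * N)) + s * (s + 1) := by omega
          _ = s * (s + 1) * (m + 1) + s * (N * N) := by ring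
  intro U
  exact key U.card U rfl

/-- The generic vectors are in general position. -/
theorem genPos_generic (n s : ℕ) : GenPos (K := FractionRing (MvPolynomial (Fin s × Fin n) ℚ))
    (fun (a : Fin n) (i : Fin s) => algebraMap (MvPolynomial (Fin s × Fin n) ℚ)
      (FractionRing (MvPolynomial (Fin s × Fin n) ℚ)) (MvPolynomial.X (i, a))) := by
  intro e he
  rw [Matrix.isUnit_iff_isUnit_det, isUnit_iff_ne_zero]
  set φ : Fin s × Fin s → Fin s × Fin n := fun p => (p.2, e p.1) with hφ
  have hφi : Function.Injective φ := by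
    rintro ⟨a, b⟩ ⟨c, d⟩ h
    simp only [hφ, Prod.mk.injEq] at h
    rw [Prod.mk.injEq]
    exact ⟨he h.2, h.1⟩
  set F : MvPolynomial (Fin s × Fin s) ℚ →+* FractionRing (MvPolynomial (Fin s × Fin n) ℚ) :=
    (algebraMap (MvPolynomial (Fin s × Fin n) ℚ)
      (FractionRing (MvPolynomial (Fin s × Fin n) ℚ))).comp
      (MvPolynomial.rename φ : MvPolynomial (Fin s × Fin s) ℚ →ₐ[ℚ] _).toRingHom with hF
  have hFi : Function.Injective F := by
    rw [hF]
    exact (IsFractionRing.injective _ _).comp (MvPolynomial.rename_injective φ hφi)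
  have hmat : (Matrix.of (fun i j => algebraMap (MvPolynomial (Fin s × Fin n) ℚ)
      (FractionRing (MvPolynomial (Fin s × Fin n) ℚ)) (MvPolynomial.X (j, e i)))) =
      F.mapMatrix (Matrix.mvPolynomialX (Fin s) (Fin s) ℚ) := by
    ext i j
    simp only [Matrix.of_apply, RingHom.mapMatrix_apply, Matrix.map_apply,
      Matrix.mvPolynomialX_apply, hF, RingHom.comp_apply]
    congr 1
    simp [hφ]
  rw [hmat, ← RingHom.map_det]
  intro h0
  exact Matrix.det_mvPolynomialX_ne_zero (Fin s) ℚ (hFi (by rw [h0, map_zero]))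

end KalaiRank
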