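import Pool.Agent.Lib.MP_8317a8_co.Seven
import Pool.Agent.Lib.MP_8317a8_co.YSpace

set_option autoImplicit false

namespace KalaiRank

open Finset Module

section

variable {V : Type*} [DecidableEq V] {G : Finset (Finset V)} {U : Finset V}

omit [DecidableEq V] in
theorem all_eq_of_sum {s : Finset V} {f : V → ℕ} {m : ℕ} (h : ∀ i ∈ s, m ≤ f i)
    (hs : ∑ i ∈ s, f i = s.card * m) : ∀ i ∈ s, f i = m := by
  have h1 : ∑ i ∈ s, (fun _ => m) i = ∑ i ∈ s, f i := by
    rw [hs, Finset.sum_const, smul_eq_mul]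
  have h2 := (Finset.sum_eq_sum_iff_of_le h).1 h1
  exact fun i hi => (h2 i hi).symm

/-- A triple system on seven points in which all degrees are at most five misses a 4-set. -/
theorem Ctx.seven (c : Ctx G U) (hU : U.card = 7) : False := by
  classical
  have hd : ∀ v ∈ U, dv G U v ≤ 5 := fun v hv => c.dv_le hU hv
  have h6 : ∀ v ∈ U, 6 ≤ ec G (U.erase v) := fun v hv => ec6 c.h3 c.cov _ (by
    rw [Finset.card_erase_of_mem hv, hU])
  have hcE : ∀ v ∈ U, (U.erase v).card = 6 := fun v hv => by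
    rw [Finset.card_erase_of_mem hv, hU]
  have s1 := sum_dv c.h3 U
  have s2 := sum_ec_erase c.h3 U
  have s3 : ∑ v ∈ U, dv G U v ≤ U.card * 5 := by
    rw [← smul_eq_mul, ← Finset.sum_const]
    exact Finset.sum_le_sum hd
  have s4 : U.card * 6 ≤ ∑ v ∈ U, ec G (U.erase v) := by
    rw [← smul_eq_mul, ← Finset.sum_const]
    exact Finset.sum_le_sum h6
  rw [hU] at s2 s3 s4
  have hec : ec G U = 11 := by omega
  have hsum : ∑ v ∈ U, ec G (U.erase v) = 44 := by omega
  -- five point subsets
  have h5 : ∀ v ∈ U, ∀ y ∈ U.erase v, 3 ≤ ec G ((U.erase v).erase y) := fun v hv y hy =>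
    ec5 c.h3 c.cov _ (by rw [Finset.card_erase_of_mem hy, hcE v hv])
  have hsumE : ∀ v ∈ U, ∑ y ∈ U.erase v, ec G ((U.erase v).erase y) = 3 * ec G (U.erase v) := by
    intro v hv
    have := sum_ec_erase c.h3 (U.erase v)
    rw [hcE v hv] at this
    omega
  have ha : ∀ v ∈ U, ec G (U.erase v) = 6 → ∀ y ∈ U.erase v, ec G ((U.erase v).erase y) = 3 := by
    intro v hv h
    apply all_eq_of_sum (h5 v hv)
    rw [hsumE v hv, hcE v hv, h]
  have ha' : ∀ v ∈ U, ∀ y ∈ U, y ≠ v → ec G (U.erase y) = 6 →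
      ec G ((U.erase v).erase y) = 3 := by
    intro v hv y hy hyv h
    rw [Finset.erase_right_comm]
    exact ha y hy h v (Finset.mem_erase.2 ⟨hyv.symm, hv⟩)
  obtain ⟨x0, hx0, h70⟩ : ∃ x0 ∈ U, 7 ≤ ec G (U.erase x0) := by
    by_contra hcon
    push Not at hcon
    have : ∑ v ∈ U, ec G (U.erase v) ≤ U.card * 6 := by
      rw [← smul_eq_mul, ← Finset.sum_const]
      exact Finset.sum_le_sum fun v hv => by
        have := hcon v hv
        omega
    rw [hU] at this
    omega
  obtain ⟨x1, hx1, h71⟩ : ∃ x1 ∈ U.erase x0, 7 ≤ ec G (U.erase x1) := by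
    by_contra hcon
    push Not at hcon
    have h1 : ∑ y ∈ U.erase x0, ec G ((U.erase x0).erase y) = ∑ _y ∈ U.erase x0, 3 := by
      refine Finset.sum_congr rfl fun y hy => ?_
      rw [Finset.mem_erase] at hy
      apply ha' x0 hx0 y hy.2 hy.1
      have h1 := hcon y (Finset.mem_erase.2 hy)
      have h2 := h6 y hy.2
      omega
    rw [hsumE x0 hx0, Finset.sum_const, hcE x0 hx0, smul_eq_mul] at h1
    omega
  have hx1' := Finset.mem_erase.1 hx1
  set Z := (U.erase x0).erase x1 with hZ
  have hZc : Z.card = 5 := by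
    rw [hZ, Finset.card_erase_of_mem hx1, hcE x0 hx0]
  have hsplit : ec G (U.erase x0) + (ec G (U.erase x1) + ∑ y ∈ Z, ec G (U.erase y)) = 44 := by
    rw [← hsum, ← Finset.add_sum_erase U _ hx0, ← Finset.add_sum_erase (U.erase x0) _ hx1]
  have hZmem : ∀ y ∈ Z, y ∈ U ∧ y ≠ x0 ∧ y ≠ x1 := by
    intro y hy
    rw [hZ, Finset.mem_erase, Finset.mem_erase] at hy
    exact ⟨hy.2.2, hy.2.1, hy.1⟩
  have hZ30 : Z.card * 6 ≤ ∑ y ∈ Z, ec G (U.erase y) := by
    rw [← smul_eq_mul, ← Finset.sum_const]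
    exact Finset.sum_le_sum fun y hy => h6 y (hZmem y hy).1
  rw [hZc] at hZ30
  have hx0e : ec G (U.erase x0) = 7 := by omega
  have hZsum : ∑ y ∈ Z, ec G (U.erase y) = Z.card * 6 := by
    rw [hZc]; omega
  have hZ6 := all_eq_of_sum (fun y hy => h6 y (hZmem y hy).1) hZsum
  have hZ3 : ∑ y ∈ Z, ec G ((U.erase x0).erase y) = 15 := by
    have : ∑ y ∈ Z, ec G ((U.erase x0).erase y) = ∑ _y ∈ Z, 3 := by
      refine Finset.sum_congr rfl fun y hy => ?_
      exact ha' x0 hx0 y (hZmem y hy).1 (hZmem y hy).2.1 (hZ6 y hy)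
    rw [this, Finset.sum_const, hZc, smul_eq_mul]
  have hecZ : ec G Z = 6 := by
    have h1 := hsumE x0 hx0
    rw [← Finset.add_sum_erase (U.erase x0) _ hx1, ← hZ] at h1
    omega
  -- the unique edge at `x1`
  have hdv : dv G (U.erase x0) x1 = 1 := by
    have := ec_erase (G := G) (U.erase x0) x1
    rw [← hZ] at this
    omega
  unfold dv at hdv
  obtain ⟨g, hg⟩ := Finset.card_eq_one.1 hdv
  have hgm : g ∈ G.filter (fun e => e ⊆ U.erase x0 ∧ x1 ∈ e) := by rw [hg]; simp
  rw [Finset.mem_filter] at hgm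
  obtain ⟨hgG, hgU, hgx⟩ := hgm
  have hguniq : ∀ e ∈ G, e ⊆ U.erase x0 → x1 ∈ e → e = g := by
    intro e he h1 h2
    have : e ∈ G.filter (fun e => e ⊆ U.erase x0 ∧ x1 ∈ e) := Finset.mem_filter.2 ⟨he, h1, h2⟩
    rwa [hg, Finset.mem_singleton] at this
  have hgc : (g.erase x1).card = 2 := by
    rw [Finset.card_erase_of_mem hgx, c.h3 g hgG]
  have hgZ : g.erase x1 ⊆ Z := by
    rw [hZ]
    exact Finset.erase_subset_erase x1 hgU
  have hcov : Finset.powersetCard 3 Z ⊆ (G.filter (fun e => e ⊆ Z)) ∪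
      (Z \ (g.erase x1)).image (fun z => insert z (g.erase x1)) := by
    intro t ht
    rw [Finset.mem_powersetCard] at ht
    obtain ⟨htZ, htc⟩ := ht
    obtain ⟨a, b, d, hab, had, hbd, rfl⟩ := Finset.card_eq_three.1 htc
    have haZ : a ∈ Z := htZ (by simp)
    have hbZ : b ∈ Z := htZ (by simp)
    have hdZ : d ∈ Z := htZ (by simp)
    have key : ∀ p q r : V, p ∈ Z → q ∈ Z → r ∈ Z → p ≠ q → p ≠ r → q ≠ r → Tri G x1 p q →
        ({r, p, q} : Finset V) ∈ (Z \ (g.erase x1)).image (fun z => insert z (g.erase x1)) := by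
      intro p q r hp hq hr hpq hpr hqr hT
      have hpZ := hZmem p hp
      have hqZ := hZmem q hq
      have heq := hguniq _ hT (by
        intro y hy
        simp only [Finset.mem_insert, Finset.mem_singleton] at hy
        rcases hy with rfl | rfl | rfl
        · exact hx1
        · exact Finset.mem_erase.2 ⟨hpZ.2.1, hpZ.1⟩
        · exact Finset.mem_erase.2 ⟨hqZ.2.1, hqZ.1⟩) (by simp)
      have hge : g.erase x1 = {p, q} := by
        rw [← heq, Finset.erase_insert]
        simp only [Finset.mem_insert, Finset.mem_singleton, not_or]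
        exact ⟨hpZ.2.2.symm, hqZ.2.2.symm⟩
      rw [Finset.mem_image]
      refine ⟨r, ?_, ?_⟩
      · rw [Finset.mem_sdiff, hge, Finset.mem_insert, Finset.mem_singleton, not_or]
        exact ⟨hr, hpr.symm, hqr.symm⟩
      · rw [hge]
    rw [Finset.mem_union]
    rcases c.cov x1 a b d (hZmem a haZ).2.2.symm (hZmem b hbZ).2.2.symm (hZmem d hdZ).2.2.symm
      hab had hbd with h | h | h | h
    · right
      have := key a b d haZ hbZ hdZ hab had hbd h
      convert this using 1
      ext y
      simp only [Finset.mem_insert, Finset.mem_singleton]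
      tauto
    · right
      have := key a d b haZ hdZ hbZ had hab hbd.symm h
      convert this using 1
      ext y
      simp only [Finset.mem_insert, Finset.mem_singleton]
      tauto
    · right
      exact key b d a hbZ hdZ haZ hbd hab.symm had.symm h
    · left
      rw [Finset.mem_filter]
      exact ⟨h, htZ⟩
  have hfin := Finset.card_le_card hcov
  have hu := Finset.card_union_le (G.filter (fun e => e ⊆ Z))
    ((Z \ (g.erase x1)).image (fun z => insert z (g.erase x1)))
  have hi := Finset.card_image_le (s := Z \ (g.erase x1)) (f := fun z => insert z (g.erase x1))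
  rw [Finset.card_sdiff_of_subset hgZ, hZc, hgc] at hi
  rw [Finset.card_powersetCard, hZc] at hfin
  have h10 : Nat.choose 5 3 = 10 := by decide
  unfold ec at hecZ
  omega

/-- A good vertex exists as soon as there are at least seven vertices. -/
theorem exists_good2 (h3 : ∀ e ∈ G, e.card = 3) (hG : Covers G) (U : Finset V)
    (hU : 7 ≤ U.card) : ∃ v ∈ U, ∃ k ≤ 6, Bd G v (U.erase v) k := by
  classical
  induction hn : U.card using Nat.strong_induction_on generalizing U with
  | _ n ih =>
    subst hn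
    by_contra hcon
    have c : Ctx G U := ⟨h3, hG, fun v hv k hk => by
      by_contra hlt
      exact hcon ⟨v, hv, k, by omega, hk⟩⟩
    rcases Nat.eq_or_lt_of_le hU with h7 | h8
    · exact c.seven h7.symm
    · apply no_min c h8
      intro u hu
      have hc : (U.erase u).card = U.card - 1 := Finset.card_erase_of_mem hu
      obtain ⟨v, hv, k, hk, hB⟩ := ih (U.erase u).card (by omega) (U.erase u) (by omega) rfl
      rw [Finset.mem_erase] at hv
      refine ⟨v, hu, hv.2, hv.1.symm, ?_⟩
      by_contra hno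
      push Not at hno
      obtain ⟨a, haU, haT, -⟩ := hno u
      obtain ⟨b, hbU, hbT, hba⟩ := hno a
      have hav : a ≠ v := (Tri.ne23 h3 haT).symm
      have hau : a ≠ u := (Tri.ne13 h3 haT).symm
      have hbv : b ≠ v := (Tri.ne23 h3 hbT).symm
      have hbu : b ≠ u := (Tri.ne13 h3 hbT).symm
      have h1 := hB.add0 u a b (Finset.mem_erase.2 ⟨hav, Finset.mem_erase.2 ⟨hau, haU⟩⟩)
        (Finset.mem_erase.2 ⟨hbv, Finset.mem_erase.2 ⟨hbu, hbU⟩⟩) hba.symm haT.swap12 hbT.swap12
      have h2 : insert u ((U.erase u).erase v) = U.erase v := by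
        ext y
        simp only [Finset.mem_insert, Finset.mem_erase]
        constructor
        · rintro (rfl | h)
          · exact ⟨hv.1.symm, hu⟩
          · exact ⟨h.1, h.2.2⟩
        · rintro ⟨h1, h2⟩
          by_cases hyu : y = u
          · exact Or.inl hyu
          · exact Or.inr ⟨h1, hyu, h2⟩
      rw [h2] at h1
      exact hcon ⟨v, hv.2, k, hk, h1⟩

end

section algebra

variable {K : Type*} [Field K] {V : Type*} [DecidableEq V] [Fintype V]

theorem YSp_step {G : Finset (Finset V)} (h3 : ∀ e ∈ G, e.card = 3) {x : V → Fin 2 → K}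
    (hx : GenPos x) {U : Finset V} {v : V} (hv : v ∈ U) {k : ℕ} (h : Bd G v (U.erase v) k) :
    finrank K (YSp G x U) ≤ finrank K (YSp G x (U.erase v)) + k := by
  have h1 := finrank_YSp_insert_le G x (U.erase v) v (Finset.notMem_erase v U)
  rw [Finset.insert_erase hv] at h1
  have h2 := h.finrank_le h3 hx
  omega

theorem YSp_choose (G : Finset (Finset V)) {s : ℕ} (x : V → Fin s → K) (U : Finset V) :
    finrank K (YSp G x U) ≤ s * U.card.choose 2 := by
  induction U using Finset.induction_on with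
  | empty => rw [finrank_YSp_empty]; simp
  | insert v U hv ih =>
    have h1 := finrank_YSp_insert_le G x U v hv
    have h2 := finrank_Sol_le_card G x v U
    have h3 : (U.card + 1).choose 2 = U.card + U.card.choose 2 := by
      rw [Nat.choose_succ_succ' U.card 1, Nat.choose_one_right]
    rw [Finset.card_insert_of_notMem hv, h3, mul_add]
    omega

omit [Fintype V] in
theorem exists_dv {G : Finset (Finset V)} (h3 : ∀ e ∈ G, e.card = 3) (U : Finset V) (m : ℕ)
    (h : U.card * m < 3 * ec G U) : ∃ v ∈ U, m + 1 ≤ dv G U v := by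
  by_contra hcon
  push Not at hcon
  have h1 := sum_dv h3 U
  have h2 : ∑ v ∈ U, dv G U v ≤ U.card * m := by
    rw [← smul_eq_mul, ← Finset.sum_const]
    exact Finset.sum_le_sum fun v hv => by
      have := hcon v hv
      omega
  omega

theorem YSp3 (G : Finset (Finset V)) (x : V → Fin 2 → K) (U : Finset V) (hU : U.card = 3) :
    finrank K (YSp G x U) ≤ 6 := by
  have := YSp_choose G x U
  rw [hU] at this
  have h : Nat.choose 3 2 = 3 := by decide
  omega

theorem YSp_peel {G : Finset (Finset V)} (h3 : ∀ e ∈ G, e.card = 3) {x : V → Fin 2 → K}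
    (hx : GenPos x) {U : Finset V} {v : V} (hv : v ∈ U) (m : ℕ) (hm : m ≤ dv G U v)
    (hm4 : m ≤ 4) : finrank K (YSp G x U) + m ≤
      finrank K (YSp G x (U.erase v)) + 2 * (U.card - 1) := by
  obtain ⟨k, hk, hle⟩ := peel8 h3 (w := v) (U.erase v)
  have h1 := two_dv_le h3 U v hv
  have h2 := YSp_step h3 hx hv hk
  rw [Finset.card_erase_of_mem hv] at hle
  omega

theorem YSp4 {G : Finset (Finset V)} (h3 : ∀ e ∈ G, e.card = 3) (hG : Covers G)
    {x : V → Fin 2 → K} (hx : GenPos x) (U : Finset V) (hU : U.card = 4) :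
    finrank K (YSp G x U) ≤ 11 := by
  have h1 := ec4 hG U hU
  obtain ⟨v, hv, hd⟩ := exists_dv h3 U 0 (by omega)
  have h2 := YSp_peel h3 hx hv 1 hd (by norm_num)
  have h3' := YSp3 G x (U.erase v) (by rw [Finset.card_erase_of_mem hv, hU])
  omega

theorem YSp5 {G : Finset (Finset V)} (h3 : ∀ e ∈ G, e.card = 3) (hG : Covers G)
    {x : V → Fin 2 → K} (hx : GenPos x) (U : Finset V) (hU : U.card = 5) :
    finrank K (YSp G x U) ≤ 17 := by
  have h1 := ec5 h3 hG U hU
  obtain ⟨v, hv, hd⟩ := exists_dv h3 U 1 (by omega)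
  have h2 := YSp_peel h3 hx hv 2 hd (by norm_num)
  have h3' := YSp4 h3 hG hx (U.erase v) (by rw [Finset.card_erase_of_mem hv, hU])
  omega

theorem YSp6 {G : Finset (Finset V)} (h3 : ∀ e ∈ G, e.card = 3) (hG : Covers G)
    {x : V → Fin 2 → K} (hx : GenPos x) (U : Finset V) (hU : U.card = 6) :
    finrank K (YSp G x U) ≤ 24 := by
  have h1 := ec6 h3 hG U hU
  obtain ⟨v, hv, hd⟩ := exists_dv h3 U 2 (by omega)
  have h2 := YSp_peel h3 hx hv 3 hd (by norm_num)
  have h3' := YSp5 h3 hG hx (U.erase v) (by rw [Finset.card_erase_of_mem hv, hU])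
  omega

/-- The sharp bound for `s = 2`. -/
theorem YSp_two {G : Finset (Finset V)} (h3 : ∀ e ∈ G, e.card = 3) (hG : Covers G)
    {x : V → Fin 2 → K} (hx : GenPos x) (U : Finset V) (hU : 6 ≤ U.card) :
    finrank K (YSp G x U) + 12 ≤ 6 * U.card := by
  induction hn : U.card generalizing U with
  | zero => omega
  | succ n ih =>
    rcases Nat.eq_or_lt_of_le hU with h6 | h7
    · have := YSp6 h3 hG hx U h6.symm
      omega
    · obtain ⟨v, hv, k, hk, hB⟩ := exists_good2 h3 hG U h7
      have h1 := YSp_step h3 hx hv hB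
      have hc : (U.erase v).card = n := by
        rw [Finset.card_erase_of_mem hv, hn]; rfl
      have h2 := ih (U.erase v) (by omega) hc
      omega

end algebra

end KalaiRank
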