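import Pool.Agent.Lib.MP_8317a8_co.Bd

set_option autoImplicit false

namespace KalaiRank

open Finset

section

variable {V : Type*} [DecidableEq V] {G : Finset (Finset V)} {U : Finset V}

theorem Tri.bca {a b c : V} (h : Tri G a b c) : Tri G b c a := h.swap12.swap23
theorem Tri.cab {a b c : V} (h : Tri G a b c) : Tri G c a b := h.swap23.swap12
theorem Tri.cba {a b c : V} (h : Tri G a b c) : Tri G c b a := h.swap12.swap23.swap12

/-- The situation in which every vertex is bad. -/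
structure Ctx (G : Finset (Finset V)) (U : Finset V) : Prop where
  h3 : ∀ e ∈ G, e.card = 3
  cov : Covers G
  bad : ∀ v ∈ U, ∀ k, Bd G v (U.erase v) k → 7 ≤ k

/-- A building sequence inside `U`. -/
structure Sq (G : Finset (Finset V)) (U : Finset V) (w : V) (A : Finset V) (k : ℕ) : Prop where
  bd : Bd G w A k
  sub : ∀ a ∈ A, a ∈ U ∧ a ≠ w

theorem Sq.start (G : Finset (Finset V)) (U : Finset V) (w : V) : Sq G U w ∅ 0 :=
  ⟨Bd.nil, by simp⟩

theorem Sq.add2 {w : V} {A : Finset V} {k : ℕ} (h : Sq G U w A k) {t : V} (ht : t ∈ U)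
    (htw : t ≠ w) : Sq G U w (insert t A) (k + 2) :=
  ⟨h.bd.add2 t, fun a ha => by
    rw [Finset.mem_insert] at ha
    rcases ha with rfl | ha
    · exact ⟨ht, htw⟩
    · exact h.sub a ha⟩

theorem Sq.add1 (c : Ctx G U) {w : V} {A : Finset V} {k : ℕ} (h : Sq G U w A k) {t a : V}
    (ht : t ∈ U) (ha : a ∈ A) (hta : Tri G w t a) : Sq G U w (insert t A) (k + 1) :=
  ⟨h.bd.add1 t a ha hta, fun b hb => by
    rw [Finset.mem_insert] at hb
    rcases hb with rfl | hb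
    · exact ⟨ht, (Tri.ne12 c.h3 hta).symm⟩
    · exact h.sub b hb⟩

theorem Sq.add0 (c : Ctx G U) {w : V} {A : Finset V} {k : ℕ} (h : Sq G U w A k) {t a b : V}
    (ht : t ∈ U) (ha : a ∈ A) (hb : b ∈ A) (hab : a ≠ b) (hta : Tri G w t a)
    (htb : Tri G w t b) : Sq G U w (insert t A) k :=
  ⟨h.bd.add0 t a b ha hb hab hta htb, fun d hd => by
    rw [Finset.mem_insert] at hd
    rcases hd with rfl | hd
    · exact ⟨ht, (Tri.ne12 c.h3 hta).symm⟩
    · exact h.sub d hd⟩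

theorem Sq.no (c : Ctx G U) {w : V} {A : Finset V} {k : ℕ} (h : Sq G U w A k) (hw : w ∈ U)
    (hk : k ≤ 6)
    (hr : ∀ t ∈ U, t ≠ w → t ∉ A → ∃ a ∈ A, ∃ b ∈ A, a ≠ b ∧ Tri G w t a ∧ Tri G w t b) :
    False := by
  have h1 := c.bad w hw k (h.bd.finish h.sub hr)
  omega

/-- Elimination form of the covering property. -/
theorem Covers.elim (h : Covers G) {a b c d : V} (hab : a ≠ b) (hac : a ≠ c) (had : a ≠ d)
    (hbc : b ≠ c) (hbd : b ≠ d) (hcd : c ≠ d) (n1 : ¬ Tri G a b c) (n2 : ¬ Tri G a b d)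
    (n3 : ¬ Tri G a c d) : Tri G b c d := by
  rcases h a b c d hab hac had hbc hbd hcd with h | h | h | h
  · exact absurd h n1
  · exact absurd h n2
  · exact absurd h n3
  · exact h

/-- Two leaves without exceptional vertex. -/
theorem starA (c : Ctx G U) {z u1 u2 u3 : V} (hz : z ∈ U) (h1 : u1 ∈ U) (h2 : u2 ∈ U)
    (h3 : u3 ∈ U) (hz1 : z ≠ u1) (hz2 : z ≠ u2) (hz3 : z ≠ u3) (h12 : u1 ≠ u2) (h13 : u1 ≠ u3)
    (h23 : u2 ≠ u3) (n1 : ∀ a ∈ U, ¬ Tri G z u1 a) (n2 : ∀ a ∈ U, ¬ Tri G z u2 a)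
    (l3 : ∃ t, ∀ a ∈ U, Tri G z u3 a → a = t) : False := by
  obtain ⟨t, ht⟩ := l3
  have F12 : ∀ a ∈ U, a ≠ z → a ≠ u1 → a ≠ u2 → Tri G u1 u2 a := fun a ha haz ha1 ha2 =>
    c.cov.elim hz1 hz2 haz.symm h12 ha1.symm ha2.symm (n1 u2 h2) (n1 a ha) (n2 a ha)
  have F13 : ∀ a ∈ U, a ≠ z → a ≠ u1 → a ≠ u3 → a ≠ t → Tri G u1 u3 a :=
    fun a ha haz ha1 ha3 hat =>
    c.cov.elim hz1 hz3 haz.symm h13 ha1.symm ha3.symm (n1 u3 h3) (n1 a ha)
      (fun h => hat (ht a ha h))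
  have T3 : Tri G u1 u3 u2 := (F12 u3 h3 hz3.symm h13.symm h23.symm).swap23
  by_cases hcase : t ∈ U ∧ t ≠ z ∧ t ≠ u1 ∧ t ≠ u2
  · obtain ⟨htU, htz, ht1, ht2⟩ := hcase
    have sq := ((((Sq.start G U u1).add2 h2 h12.symm).add1 c h3 (a := u2) (by simp) T3).add1 c htU
      (a := u2) (by simp) (F12 t htU htz ht1 ht2).swap23).add2 hz hz1
    refine sq.no c h1 (by norm_num) ?_
    intro a ha ha1 hnot
    simp only [Finset.mem_insert, Finset.notMem_empty, or_false, not_or] at hnot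
    obtain ⟨haz, hat, ha3, ha2⟩ := hnot
    exact ⟨u2, by simp, u3, by simp, h23, (F12 a ha haz ha1 ha2).swap23,
      (F13 a ha haz ha1 ha3 hat).swap23⟩
  · have sq := (((Sq.start G U u1).add2 h2 h12.symm).add1 c h3 (a := u2) (by simp) T3).add2 hz hz1
    refine sq.no c h1 (by norm_num) ?_
    intro a ha ha1 hnot
    simp only [Finset.mem_insert, Finset.notMem_empty, or_false, not_or] at hnot
    obtain ⟨haz, ha3, ha2⟩ := hnot
    have hat : a ≠ t := fun h => hcase ⟨h ▸ ha, h ▸ haz, h ▸ ha1, h ▸ ha2⟩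
    exact ⟨u2, by simp, u3, by simp, h23, (F12 a ha haz ha1 ha2).swap23,
      (F13 a ha haz ha1 ha3 hat).swap23⟩

/-- All exceptional vertices equal. -/
theorem starB (c : Ctx G U) {z u1 u2 u3 x : V} (hz : z ∈ U) (h1 : u1 ∈ U) (h2 : u2 ∈ U)
    (h3 : u3 ∈ U) (hx : x ∈ U) (hz1 : z ≠ u1) (hz2 : z ≠ u2) (hz3 : z ≠ u3) (h12 : u1 ≠ u2)
    (h13 : u1 ≠ u3) (h23 : u2 ≠ u3) (hx2 : x ≠ u2) (hx3 : x ≠ u3) (e1 : Tri G z u1 x)
    (l1 : ∀ a ∈ U, Tri G z u1 a → a = x) (l2 : ∀ a ∈ U, Tri G z u2 a → a = x)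
    (l3 : ∀ a ∈ U, Tri G z u3 a → a = x) : False := by
  have hxz : x ≠ z := (Tri.ne13 c.h3 e1).symm
  have hx1 : x ≠ u1 := (Tri.ne23 c.h3 e1).symm
  have F12 : ∀ a ∈ U, a ≠ z → a ≠ u1 → a ≠ u2 → a ≠ x → Tri G u1 u2 a :=
    fun a ha haz ha1 ha2 hax =>
    c.cov.elim hz1 hz2 haz.symm h12 ha1.symm ha2.symm (fun h => hx2 (l1 u2 h2 h).symm)
      (fun h => hax (l1 a ha h)) (fun h => hax (l2 a ha h))
  have F13 : ∀ a ∈ U, a ≠ z → a ≠ u1 → a ≠ u3 → a ≠ x → Tri G u1 u3 a :=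
    fun a ha haz ha1 ha3 hax =>
    c.cov.elim hz1 hz3 haz.symm h13 ha1.symm ha3.symm (fun h => hx3 (l1 u3 h3 h).symm)
      (fun h => hax (l1 a ha h)) (fun h => hax (l3 a ha h))
  have T3 : Tri G u1 u3 u2 := (F12 u3 h3 hz3.symm h13.symm h23.symm hx3.symm).swap23
  have sq := ((((Sq.start G U u1).add2 h2 h12.symm).add1 c h3 (a := u2) (by simp) T3).add2 hx
    hx1).add1 c hz (a := x) (by simp) e1.swap12
  refine sq.no c h1 (by norm_num) ?_
  intro a ha ha1 hnot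
  simp only [Finset.mem_insert, Finset.notMem_empty, or_false, not_or] at hnot
  obtain ⟨haz, hax, ha3, ha2⟩ := hnot
  exact ⟨u2, by simp, u3, by simp, h23, (F12 a ha haz ha1 ha2 hax).swap23,
    (F13 a ha haz ha1 ha3 hax).swap23⟩

/-- Half of the argument for exceptional vertices `x`, `y`, none. -/
theorem starC_aux (c : Ctx G U) {z u1 u2 u3 x y : V} (hz : z ∈ U) (h1 : u1 ∈ U) (h2 : u2 ∈ U)
    (h3 : u3 ∈ U) (hx : x ∈ U) (hy : y ∈ U) (hz1 : z ≠ u1) (hz2 : z ≠ u2) (hz3 : z ≠ u3)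
    (h12 : u1 ≠ u2) (h13 : u1 ≠ u3) (h23 : u2 ≠ u3) (hx2 : x ≠ u2) (hx3 : x ≠ u3)
    (hy1 : y ≠ u1) (hy3 : y ≠ u3) (hxy : x ≠ y) (e1 : Tri G z u1 x) (e2 : Tri G z u2 y)
    (l1 : ∀ a ∈ U, Tri G z u1 a → a = x) (l2 : ∀ a ∈ U, Tri G z u2 a → a = y)
    (l3 : ∀ a ∈ U, ¬ Tri G z u3 a) :
    ¬ Tri G u1 u2 x ∧ ¬ Tri G u1 x y ∧ ¬ Tri G u1 u2 y := by
  have hxz : x ≠ z := (Tri.ne13 c.h3 e1).symm
  have hx1 : x ≠ u1 := (Tri.ne23 c.h3 e1).symm
  have hyz : y ≠ z := (Tri.ne13 c.h3 e2).symm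
  have hy2 : y ≠ u2 := (Tri.ne23 c.h3 e2).symm
  have F12 : ∀ a ∈ U, a ≠ z → a ≠ u1 → a ≠ u2 → a ≠ x → a ≠ y → Tri G u1 u2 a :=
    fun a ha haz ha1 ha2 hax hay =>
    c.cov.elim hz1 hz2 haz.symm h12 ha1.symm ha2.symm (fun h => hx2 (l1 u2 h2 h).symm)
      (fun h => hax (l1 a ha h)) (fun h => hay (l2 a ha h))
  have F13 : ∀ a ∈ U, a ≠ z → a ≠ u1 → a ≠ u3 → a ≠ x → Tri G u1 u3 a :=
    fun a ha haz ha1 ha3 hax =>
    c.cov.elim hz1 hz3 haz.symm h13 ha1.symm ha3.symm (fun h => hx3 (l1 u3 h3 h).symm)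
      (fun h => hax (l1 a ha h)) (l3 a ha)
  have T3 : Tri G u1 u3 u2 :=
    (F12 u3 h3 hz3.symm h13.symm h23.symm hx3.symm hy3.symm).swap23
  have Ty : Tri G u1 y u3 := (F13 y hy hyz hy1 hy3 hxy.symm).swap23
  have base := ((Sq.start G U u1).add2 h2 h12.symm).add1 c h3 (a := u2) (by simp) T3
  refine ⟨fun hT => ?_, fun hT => ?_, fun hT => ?_⟩
  · have sq := ((base.add1 c hy (a := u3) (by simp) Ty).add1 c hx (a := u2) (by simp)
      hT.swap23).add1 c hz (a := x) (by simp) e1.swap12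
    refine sq.no c h1 (by norm_num) ?_
    intro a ha ha1 hnot
    simp only [Finset.mem_insert, Finset.notMem_empty, or_false, not_or] at hnot
    obtain ⟨haz, hax, hay, ha3, ha2⟩ := hnot
    exact ⟨u2, by simp, u3, by simp, h23, (F12 a ha haz ha1 ha2 hax hay).swap23,
      (F13 a ha haz ha1 ha3 hax).swap23⟩
  · have sq := ((base.add1 c hy (a := u3) (by simp) Ty).add1 c hx (a := y) (by simp)
      hT).add1 c hz (a := x) (by simp) e1.swap12
    refine sq.no c h1 (by norm_num) ?_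
    intro a ha ha1 hnot
    simp only [Finset.mem_insert, Finset.notMem_empty, or_false, not_or] at hnot
    obtain ⟨haz, hax, hay, ha3, ha2⟩ := hnot
    exact ⟨u2, by simp, u3, by simp, h23, (F12 a ha haz ha1 ha2 hax hay).swap23,
      (F13 a ha haz ha1 ha3 hax).swap23⟩
  · have sq := ((base.add0 c hy (a := u3) (b := u2) (by simp) (by simp) h23.symm Ty
      hT.swap23).add2 hx hx1).add1 c hz (a := x) (by simp) e1.swap12
    refine sq.no c h1 (by norm_num) ?_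
    intro a ha ha1 hnot
    simp only [Finset.mem_insert, Finset.notMem_empty, or_false, not_or] at hnot
    obtain ⟨haz, hax, hay, ha3, ha2⟩ := hnot
    exact ⟨u2, by simp, u3, by simp, h23, (F12 a ha haz ha1 ha2 hax hay).swap23,
      (F13 a ha haz ha1 ha3 hax).swap23⟩

/-- Exceptional vertices `x`, `y`, none. -/
theorem starC (c : Ctx G U) {z u1 u2 u3 x y : V} (hz : z ∈ U) (h1 : u1 ∈ U) (h2 : u2 ∈ U)
    (h3 : u3 ∈ U) (hx : x ∈ U) (hy : y ∈ U) (hz1 : z ≠ u1) (hz2 : z ≠ u2) (hz3 : z ≠ u3)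
    (h12 : u1 ≠ u2) (h13 : u1 ≠ u3) (h23 : u2 ≠ u3) (hx2 : x ≠ u2) (hx3 : x ≠ u3)
    (hy1 : y ≠ u1) (hy3 : y ≠ u3) (hxy : x ≠ y) (e1 : Tri G z u1 x) (e2 : Tri G z u2 y)
    (l1 : ∀ a ∈ U, Tri G z u1 a → a = x) (l2 : ∀ a ∈ U, Tri G z u2 a → a = y)
    (l3 : ∀ a ∈ U, ¬ Tri G z u3 a) : False := by
  have hx1 : x ≠ u1 := (Tri.ne23 c.h3 e1).symm
  have hy2 : y ≠ u2 := (Tri.ne23 c.h3 e2).symm
  obtain ⟨a1, a2, a3⟩ := starC_aux c hz h1 h2 h3 hx hy hz1 hz2 hz3 h12 h13 h23 hx2 hx3 hy1 hy3 hxy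
    e1 e2 l1 l2 l3
  obtain ⟨b1, b2, b3⟩ := starC_aux c hz h2 h1 h3 hy hx hz2 hz1 hz3 h12.symm h23 h13 hy1 hy3 hx2 hx3
    hxy.symm e2 e1 l2 l1 l3
  rcases c.cov u1 u2 x y h12 hx1.symm hy1.symm hx2.symm hy2.symm hxy with h | h | h | h
  · exact a1 h
  · exact a3 h
  · exact a2 h
  · exact b2 h.swap23

/-- Two leaves exceptional for each other, the third one without exceptional vertex. -/
theorem starD1 (c : Ctx G U) {z u1 u2 u3 : V} (hz : z ∈ U) (h1 : u1 ∈ U) (h2 : u2 ∈ U)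
    (h3 : u3 ∈ U) (hz1 : z ≠ u1) (hz2 : z ≠ u2) (hz3 : z ≠ u3) (h12 : u1 ≠ u2) (h13 : u1 ≠ u3)
    (h23 : u2 ≠ u3) (n1 : ∀ a ∈ U, ¬ Tri G z u1 a)
    (l2 : ∀ a ∈ U, Tri G z u2 a → a = u3) (l3 : ∀ a ∈ U, Tri G z u3 a → a = u2) : False := by
  have F12 : ∀ a ∈ U, a ≠ z → a ≠ u1 → a ≠ u2 → a ≠ u3 → Tri G u1 u2 a :=
    fun a ha haz ha1 ha2 ha3 =>
    c.cov.elim hz1 hz2 haz.symm h12 ha1.symm ha2.symm (n1 u2 h2) (n1 a ha)
      (fun h => ha3 (l2 a ha h))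
  have F13 : ∀ a ∈ U, a ≠ z → a ≠ u1 → a ≠ u2 → a ≠ u3 → Tri G u1 u3 a :=
    fun a ha haz ha1 ha2 ha3 =>
    c.cov.elim hz1 hz3 haz.symm h13 ha1.symm ha3.symm (n1 u3 h3) (n1 a ha)
      (fun h => ha2 (l3 a ha h))
  have sq := (((Sq.start G U u1).add2 h2 h12.symm).add2 h3 h13.symm).add2 hz hz1
  refine sq.no c h1 (by norm_num) ?_
  intro a ha ha1 hnot
  simp only [Finset.mem_insert, Finset.notMem_empty, or_false, not_or] at hnot
  obtain ⟨haz, ha3, ha2⟩ := hnot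
  exact ⟨u2, by simp, u3, by simp, h23, (F12 a ha haz ha1 ha2 ha3).swap23,
    (F13 a ha haz ha1 ha2 ha3).swap23⟩

/-- Two leaves exceptional for each other, the third one with exceptional vertex `x`. -/
theorem starD2 (c : Ctx G U) (hU : 8 ≤ U.card) {z u1 u2 u3 x : V} (hz : z ∈ U) (h1 : u1 ∈ U)
    (h2 : u2 ∈ U) (h3 : u3 ∈ U) (hx : x ∈ U) (hz1 : z ≠ u1) (hz2 : z ≠ u2) (hz3 : z ≠ u3)
    (h12 : u1 ≠ u2) (h13 : u1 ≠ u3) (h23 : u2 ≠ u3) (hx2 : x ≠ u2) (hx3 : x ≠ u3)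
    (e1 : Tri G z u1 x) (l1 : ∀ a ∈ U, Tri G z u1 a → a = x)
    (l2 : ∀ a ∈ U, Tri G z u2 a → a = u3) (l3 : ∀ a ∈ U, Tri G z u3 a → a = u2) : False := by
  have hxz : x ≠ z := (Tri.ne13 c.h3 e1).symm
  have hx1 : x ≠ u1 := (Tri.ne23 c.h3 e1).symm
  have F12 : ∀ a ∈ U, a ≠ z → a ≠ u1 → a ≠ u2 → a ≠ u3 → a ≠ x → Tri G u1 u2 a :=
    fun a ha haz ha1 ha2 ha3 hax =>
    c.cov.elim hz1 hz2 haz.symm h12 ha1.symm ha2.symm (fun h => hx2 (l1 u2 h2 h).symm)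
      (fun h => hax (l1 a ha h)) (fun h => ha3 (l2 a ha h))
  have F13 : ∀ a ∈ U, a ≠ z → a ≠ u1 → a ≠ u2 → a ≠ u3 → a ≠ x → Tri G u1 u3 a :=
    fun a ha haz ha1 ha2 ha3 hax =>
    c.cov.elim hz1 hz3 haz.symm h13 ha1.symm ha3.symm (fun h => hx3 (l1 u3 h3 h).symm)
      (fun h => hax (l1 a ha h)) (fun h => ha2 (l3 a ha h))
  -- the remaining vertices
  set W : Finset V := U \ {z, u1, u2, u3, x} with hW
  have hWm : ∀ a, a ∈ W ↔ a ∈ U ∧ a ≠ z ∧ a ≠ u1 ∧ a ≠ u2 ∧ a ≠ u3 ∧ a ≠ x := by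
    intro a
    rw [hW, Finset.mem_sdiff]
    simp only [Finset.mem_insert, Finset.mem_singleton, not_or]
  have hWc : 3 ≤ W.card := by
    have h5 : ({z, u1, u2, u3, x} : Finset V).card ≤ 5 := Finset.card_le_five
    have := Finset.le_card_sdiff ({z, u1, u2, u3, x} : Finset V) U
    rw [← hW] at this
    omega
  -- no edges among `W` in the link of `u1`
  have d2 : ∀ a ∈ W, ∀ b ∈ W, a ≠ b → ¬ Tri G u1 a b := by
    intro a ha b hb hab hT
    rw [hWm] at ha hb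
    obtain ⟨haU, haz, ha1, ha2, ha3, hax⟩ := ha
    obtain ⟨hbU, hbz, hb1, hb2, hb3, hbx⟩ := hb
    have sq := ((((((Sq.start G U u1).add2 h2 h12.symm).add1 c haU (a := u2) (by simp)
      (F12 a haU haz ha1 ha2 ha3 hax).swap23).add0 c hbU (a := u2) (b := a) (by simp) (by simp)
      ha2.symm (F12 b hbU hbz hb1 hb2 hb3 hbx).swap23 hT.swap23).add0 c h3 (a := a) (b := b)
      (by simp) (by simp) hab (F13 a haU haz ha1 ha2 ha3 hax)
      (F13 b hbU hbz hb1 hb2 hb3 hbx)).add2 hx hx1).add1 c hz (a := x) (by simp) e1.swap12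
    refine sq.no c h1 (by norm_num) ?_
    intro t ht ht1 hnot
    simp only [Finset.mem_insert, Finset.notMem_empty, or_false, not_or] at hnot
    obtain ⟨htz, htx, ht3, htb, hta, ht2⟩ := hnot
    exact ⟨u2, by simp, u3, by simp, h23, (F12 t ht htz ht1 ht2 ht3 htx).swap23,
      (F13 t ht htz ht1 ht2 ht3 htx).swap23⟩
  have d3 : ∀ b ∈ W, ¬ Tri G u1 x b := by
    intro b hb hT
    rw [hWm] at hb
    obtain ⟨hbU, hbz, hb1, hb2, hb3, hbx⟩ := hb
    have sq := (((((Sq.start G U u1).add2 h2 h12.symm).add2 h3 h13.symm).add0 c hbU (a := u2)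
      (b := u3) (by simp) (by simp) h23 (F12 b hbU hbz hb1 hb2 hb3 hbx).swap23
      (F13 b hbU hbz hb1 hb2 hb3 hbx).swap23).add1 c hx (a := b) (by simp) hT).add1 c hz
      (a := x) (by simp) e1.swap12
    refine sq.no c h1 (by norm_num) ?_
    intro t ht ht1 hnot
    simp only [Finset.mem_insert, Finset.notMem_empty, or_false, not_or] at hnot
    obtain ⟨htz, htx, htb, ht3, ht2⟩ := hnot
    exact ⟨u2, by simp, u3, by simp, h23, (F12 t ht htz ht1 ht2 ht3 htx).swap23,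
      (F13 t ht htz ht1 ht2 ht3 htx).swap23⟩
  have Exab : ∀ a ∈ W, ∀ b ∈ W, a ≠ b → Tri G x a b := by
    intro a ha b hb hab
    have ha' := (hWm a).1 ha
    have hb' := (hWm b).1 hb
    exact c.cov.elim hx1.symm ha'.2.2.1.symm hb'.2.2.1.symm ha'.2.2.2.2.2.symm
      hb'.2.2.2.2.2.symm hab (d3 a ha) (d3 b hb) (d2 a ha b hb hab)
  have Ezab : ∀ a ∈ W, ∀ b ∈ W, a ≠ b → Tri G z a b := by
    intro a ha b hb hab
    have ha' := (hWm a).1 ha
    have hb' := (hWm b).1 hb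
    exact c.cov.elim hz1.symm ha'.2.2.1.symm hb'.2.2.1.symm ha'.2.1.symm hb'.2.1.symm hab
      (fun h => ha'.2.2.2.2.2 (l1 a ha'.1 h.swap12)) (fun h => hb'.2.2.2.2.2 (l1 b hb'.1 h.swap12))
      (d2 a ha b hb hab)
  have Eabc : ∀ a ∈ W, ∀ b ∈ W, ∀ d ∈ W, a ≠ b → a ≠ d → b ≠ d → Tri G a b d := by
    intro a ha b hb d hd hab had hbd
    have ha' := (hWm a).1 ha
    have hb' := (hWm b).1 hb
    have hd' := (hWm d).1 hd
    exact c.cov.elim ha'.2.2.1.symm hb'.2.2.1.symm hd'.2.2.1.symm hab had hbd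
      (d2 a ha b hb hab) (d2 a ha d hd had) (d2 b hb d hd hbd)
  -- the link of a vertex of `W`
  have d4 : ∀ a ∈ W, ¬ Tri G a u2 u3 := by
    intro a ha hT
    have ha' := (hWm a).1 ha
    obtain ⟨haU, haz, ha1, ha2, ha3, hax⟩ := ha'
    have hcard : 2 ≤ (W.erase a).card := by
      rw [Finset.card_erase_of_mem ha]; omega
    obtain ⟨b, hb, d, hd, hbd⟩ := Finset.one_lt_card.1 hcard
    rw [Finset.mem_erase] at hb hd
    have hb' := (hWm b).1 hb.2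
    have hd' := (hWm d).1 hd.2
    have sq := (((((((Sq.start G U a).add2 hb'.1 hb.1).add1 c hd'.1 (a := b) (by simp)
      (Eabc a ha d hd.2 b hb.2 hd.1.symm hb.1.symm hbd.symm)).add0 c hx (a := b) (b := d) (by simp)
      (by simp) hbd (Exab a ha b hb.2 hb.1.symm).swap12 (Exab a ha d hd.2 hd.1.symm).swap12).add0
      c hz (a := b) (b := d) (by simp) (by simp) hbd (Ezab a ha b hb.2 hb.1.symm).swap12
      (Ezab a ha d hd.2 hd.1.symm).swap12).add2 h1 ha1.symm).add1 c h2 (a := u1) (by simp)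
      (F12 a haU haz ha1 ha2 ha3 hax).cba).add0 c h3 (a := u1) (b := u2) (by simp) (by simp) h12
      (F13 a haU haz ha1 ha2 ha3 hax).cba hT.swap23
    refine sq.no c haU (by norm_num) ?_
    intro t ht hta hnot
    simp only [Finset.mem_insert, Finset.notMem_empty, or_false, not_or] at hnot
    obtain ⟨ht3, ht2, ht1, htz, htx, htd, htb⟩ := hnot
    have htW : t ∈ W := (hWm t).2 ⟨ht, htz, ht1, ht2, ht3, htx⟩
    exact ⟨b, by simp, d, by simp, hbd, Eabc a ha t htW b hb.2 (Ne.symm hta) hb.1.symm htb,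
      Eabc a ha t htW d hd.2 (Ne.symm hta) hd.1.symm htd⟩
  have d5 : ∀ a ∈ W, ∀ b ∈ W, a ≠ b → ¬ Tri G a u2 b ∧ ¬ Tri G a u3 b := by
    intro a ha b hb hab
    have ha' := (hWm a).1 ha
    obtain ⟨haU, haz, ha1, ha2, ha3, hax⟩ := ha'
    have hb' := (hWm b).1 hb
    have hcard : 1 ≤ ((W.erase a).erase b).card := by
      rw [Finset.card_erase_of_mem (Finset.mem_erase.2 ⟨hab.symm, hb⟩),
        Finset.card_erase_of_mem ha]
      omega
    obtain ⟨d, hd⟩ := Finset.card_pos.1 hcard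
    rw [Finset.mem_erase, Finset.mem_erase] at hd
    obtain ⟨hdb, hda, hdW⟩ := hd
    have hd' := (hWm d).1 hdW
    have base := ((((Sq.start G U a).add2 hb'.1 hab.symm).add1 c hd'.1 (a := b) (by simp)
      (Eabc a ha d hdW b hb hda.symm hab hdb)).add0 c hx (a := b) (b := d) (by simp)
      (by simp) hdb.symm (Exab a ha b hb hab).swap12 (Exab a ha d hdW hda.symm).swap12).add0
      c hz (a := b) (b := d) (by simp) (by simp) hdb.symm (Ezab a ha b hb hab).swap12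
      (Ezab a ha d hdW hda.symm).swap12
    have hrest : ∀ t ∈ U, t ≠ a → t ∉ ({z, x, d, b} : Finset V) → t ≠ u1 → t ≠ u2 → t ≠ u3 →
        Tri G a t b ∧ Tri G a t d := by
      intro t ht hta hnot ht1 ht2 ht3
      simp only [Finset.mem_insert, Finset.mem_singleton, not_or] at hnot
      obtain ⟨htz, htx, htd, htb⟩ := hnot
      have htW : t ∈ W := (hWm t).2 ⟨ht, htz, ht1, ht2, ht3, htx⟩
      exact ⟨Eabc a ha t htW b hb (Ne.symm hta) hab htb,
        Eabc a ha t htW d hdW (Ne.symm hta) hda.symm htd⟩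
    constructor
    · intro hT
      have sq := ((base.add1 c h2 (a := b) (by simp) hT).add1 c h1 (a := u2) (by simp)
        (F12 a haU haz ha1 ha2 ha3 hax).cab).add1 c h3 (a := u1) (by simp)
        (F13 a haU haz ha1 ha2 ha3 hax).cba
      refine sq.no c haU (by norm_num) ?_
      intro t ht hta hnot
      simp only [Finset.mem_insert, Finset.notMem_empty, or_false, not_or] at hnot
      obtain ⟨ht3, ht1, ht2, htz, htx, htd, htb⟩ := hnot
      have h := hrest t ht hta (by simp [htz, htx, htd, htb]) ht1 ht2 ht3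
      exact ⟨b, by simp, d, by simp, hdb.symm, h.1, h.2⟩
    · intro hT
      have sq := ((base.add1 c h3 (a := b) (by simp) hT).add1 c h1 (a := u3) (by simp)
        (F13 a haU haz ha1 ha2 ha3 hax).cab).add1 c h2 (a := u1) (by simp)
        (F12 a haU haz ha1 ha2 ha3 hax).cba
      refine sq.no c haU (by norm_num) ?_
      intro t ht hta hnot
      simp only [Finset.mem_insert, Finset.notMem_empty, or_false, not_or] at hnot
      obtain ⟨ht2, ht1, ht3, htz, htx, htd, htb⟩ := hnot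
      have h := hrest t ht hta (by simp [htz, htx, htd, htb]) ht1 ht2 ht3
      exact ⟨b, by simp, d, by simp, hdb.symm, h.1, h.2⟩
  obtain ⟨a, ha, b, hb, hab⟩ := Finset.one_lt_card.1 (show 1 < W.card by omega)
  have ha' := (hWm a).1 ha
  have hb' := (hWm b).1 hb
  rcases c.cov u2 u3 a b h23 ha'.2.2.2.1.symm hb'.2.2.2.1.symm ha'.2.2.2.2.1.symm
    hb'.2.2.2.2.1.symm hab with h | h | h | h
  · exact d4 a ha h.cab
  · exact d4 b hb h.cab
  · exact (d5 a ha b hb hab).1 h.swap12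
  · exact (d5 a ha b hb hab).2 h.swap12

/-- Exceptional vertices `x`, `x`, `y`. -/
theorem starE (c : Ctx G U) (hU : 7 ≤ U.card) {z u1 u2 u3 x y : V} (hz : z ∈ U) (h1 : u1 ∈ U)
    (h2 : u2 ∈ U) (h3 : u3 ∈ U) (hx : x ∈ U) (hy : y ∈ U) (hz1 : z ≠ u1) (hz2 : z ≠ u2)
    (hz3 : z ≠ u3) (h12 : u1 ≠ u2) (h13 : u1 ≠ u3) (h23 : u2 ≠ u3) (hx3 : x ≠ u3)
    (hy1 : y ≠ u1) (hy2 : y ≠ u2) (hxy : x ≠ y) (e1 : Tri G z u1 x) (e2 : Tri G z u2 x)
    (e3 : Tri G z u3 y) (l1 : ∀ a ∈ U, Tri G z u1 a → a = x) (l2 : ∀ a ∈ U, Tri G z u2 a → a = x)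
    (l3 : ∀ a ∈ U, Tri G z u3 a → a = y) : False := by
  have hxz : x ≠ z := (Tri.ne13 c.h3 e1).symm
  have hx1 : x ≠ u1 := (Tri.ne23 c.h3 e1).symm
  have hx2 : x ≠ u2 := (Tri.ne23 c.h3 e2).symm
  have hyz : y ≠ z := (Tri.ne13 c.h3 e3).symm
  have hy3 : y ≠ u3 := (Tri.ne23 c.h3 e3).symm
  have F12 : ∀ a ∈ U, a ≠ z → a ≠ u1 → a ≠ u2 → a ≠ x → Tri G u1 u2 a :=
    fun a ha haz ha1 ha2 hax =>
    c.cov.elim hz1 hz2 haz.symm h12 ha1.symm ha2.symm (fun h => hx2 (l1 u2 h2 h).symm)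
      (fun h => hax (l1 a ha h)) (fun h => hax (l2 a ha h))
  have F13 : ∀ a ∈ U, a ≠ z → a ≠ u1 → a ≠ u3 → a ≠ x → a ≠ y → Tri G u1 u3 a :=
    fun a ha haz ha1 ha3 hax hay =>
    c.cov.elim hz1 hz3 haz.symm h13 ha1.symm ha3.symm (fun h => hx3 (l1 u3 h3 h).symm)
      (fun h => hax (l1 a ha h)) (fun h => hay (l3 a ha h))
  have F23 : ∀ a ∈ U, a ≠ z → a ≠ u2 → a ≠ u3 → a ≠ x → a ≠ y → Tri G u2 u3 a :=
    fun a ha haz ha2 ha3 hax hay =>
    c.cov.elim hz2 hz3 haz.symm h23 ha2.symm ha3.symm (fun h => hx3 (l2 u3 h3 h).symm)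
      (fun h => hax (l2 a ha h)) (fun h => hay (l3 a ha h))
  have T123 : Tri G u1 u2 u3 := F12 u3 h3 hz3.symm h13.symm h23.symm hx3.symm
  have T12y : Tri G u1 u2 y := F12 y hy hyz hy1 hy2 hxy.symm
  set W : Finset V := U \ {z, u1, u2, u3, x, y} with hW
  have hWm : ∀ a, a ∈ W ↔ a ∈ U ∧ a ≠ z ∧ a ≠ u1 ∧ a ≠ u2 ∧ a ≠ u3 ∧ a ≠ x ∧ a ≠ y := by
    intro a
    rw [hW, Finset.mem_sdiff]
    simp only [Finset.mem_insert, Finset.mem_singleton, not_or]
  have hWc : 1 ≤ W.card := by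
    have h5 : ({z, u1, u2, u3, x, y} : Finset V).card ≤ 6 := Finset.card_le_six
    have := Finset.le_card_sdiff ({z, u1, u2, u3, x, y} : Finset V) U
    rw [← hW] at this
    omega
  -- the link of `u1`
  have fin1 : ∀ A : Finset V, u2 ∈ A → u3 ∈ A → z ∈ A → x ∈ A → y ∈ A →
      ∀ t ∈ U, t ≠ u1 → t ∉ A → ∃ a ∈ A, ∃ b ∈ A, a ≠ b ∧ Tri G u1 t a ∧ Tri G u1 t b := by
    intro A m2 m3 mz mx my t ht ht1 hnot
    have htz : t ≠ z := fun h => hnot (h ▸ mz)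
    have htx : t ≠ x := fun h => hnot (h ▸ mx)
    have hty : t ≠ y := fun h => hnot (h ▸ my)
    have ht2 : t ≠ u2 := fun h => hnot (h ▸ m2)
    have ht3 : t ≠ u3 := fun h => hnot (h ▸ m3)
    exact ⟨u2, m2, u3, m3, h23, (F12 t ht htz ht1 ht2 htx).swap23,
      (F13 t ht htz ht1 ht3 htx hty).swap23⟩
  have base1 := ((Sq.start G U u1).add2 h2 h12.symm).add1 c h3 (a := u2) (by simp) T123.swap23
  have e1a : ¬ Tri G u1 y u3 := by
    intro hT
    have sq := ((base1.add0 c hy (a := u2) (b := u3) (by simp) (by simp) h23 T12y.swap23 hT).add2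
      hx hx1).add1 c hz (a := x) (by simp) e1.swap12
    exact sq.no c h1 (by norm_num) (fin1 _ (by simp) (by simp) (by simp) (by simp) (by simp))
  have e1b : ∀ b ∈ W, ¬ Tri G u1 y b := by
    intro b hb hT
    obtain ⟨hbU, hbz, hb1, hb2, hb3, hbx, hby⟩ := (hWm b).1 hb
    have sq := (((base1.add0 c hbU (a := u2) (b := u3) (by simp) (by simp) h23
      (F12 b hbU hbz hb1 hb2 hbx).swap23 (F13 b hbU hbz hb1 hb3 hbx hby).swap23).add0 c hy
      (a := u2) (b := b) (by simp) (by simp) hb2.symm T12y.swap23 hT).add2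
      hx hx1).add1 c hz (a := x) (by simp) e1.swap12
    exact sq.no c h1 (by norm_num) (fin1 _ (by simp) (by simp) (by simp) (by simp) (by simp))
  have e2a : ¬ Tri G u1 x u3 := by
    intro hT
    have sq := ((base1.add1 c hy (a := u2) (by simp) T12y.swap23).add1 c hx (a := u3) (by simp)
      hT).add1 c hz (a := x) (by simp) e1.swap12
    exact sq.no c h1 (by norm_num) (fin1 _ (by simp) (by simp) (by simp) (by simp) (by simp))
  have e2b : ¬ Tri G u1 x y := by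
    intro hT
    have sq := ((base1.add1 c hy (a := u2) (by simp) T12y.swap23).add1 c hx (a := y) (by simp)
      hT).add1 c hz (a := x) (by simp) e1.swap12
    exact sq.no c h1 (by norm_num) (fin1 _ (by simp) (by simp) (by simp) (by simp) (by simp))
  have e2c : ∀ b ∈ W, ¬ Tri G u1 x b := by
    intro b hb hT
    obtain ⟨hbU, hbz, hb1, hb2, hb3, hbx, hby⟩ := (hWm b).1 hb
    have sq := (((base1.add0 c hbU (a := u2) (b := u3) (by simp) (by simp) h23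
      (F12 b hbU hbz hb1 hb2 hbx).swap23 (F13 b hbU hbz hb1 hb3 hbx hby).swap23).add1 c hy
      (a := u2) (by simp) T12y.swap23).add1 c hx (a := b) (by simp) hT).add1 c hz (a := x)
      (by simp) e1.swap12
    exact sq.no c h1 (by norm_num) (fin1 _ (by simp) (by simp) (by simp) (by simp) (by simp))
  have Txy3 : Tri G x y u3 :=
    c.cov.elim hx1.symm hy1.symm h13 hxy hx3 hy3 e2b e2a e1a
  -- the link of `u3`
  have fin3 : ∀ A : Finset V, u1 ∈ A → u2 ∈ A → z ∈ A → x ∈ A → y ∈ A →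
      ∀ t ∈ U, t ≠ u3 → t ∉ A → ∃ a ∈ A, ∃ b ∈ A, a ≠ b ∧ Tri G u3 t a ∧ Tri G u3 t b := by
    intro A m1 m2 mz mx my t ht ht3 hnot
    have htz : t ≠ z := fun h => hnot (h ▸ mz)
    have htx : t ≠ x := fun h => hnot (h ▸ mx)
    have hty : t ≠ y := fun h => hnot (h ▸ my)
    have ht1 : t ≠ u1 := fun h => hnot (h ▸ m1)
    have ht2 : t ≠ u2 := fun h => hnot (h ▸ m2)
    exact ⟨u1, m1, u2, m2, h12, (F13 t ht htz ht1 ht3 htx hty).bca,
      (F23 t ht htz ht2 ht3 htx hty).bca⟩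
  have base3 := ((Sq.start G U u3).add2 h1 h13).add1 c h2 (a := u1) (by simp) T123.cba
  have e3a : ∀ b ∈ W, ¬ Tri G u3 x b := by
    intro b hb hT
    obtain ⟨hbU, hbz, hb1, hb2, hb3, hbx, hby⟩ := (hWm b).1 hb
    have sq := (((base3.add0 c hbU (a := u1) (b := u2) (by simp) (by simp) h12
      (F13 b hbU hbz hb1 hb3 hbx hby).bca (F23 b hbU hbz hb2 hb3 hbx hby).bca).add1 c hx
      (a := b) (by simp) hT).add1 c hy (a := x) (by simp) Txy3.cba).add1 c hz (a := y)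
      (by simp) e3.swap12
    exact sq.no c h3 (by norm_num) (fin3 _ (by simp) (by simp) (by simp) (by simp) (by simp))
  have Exya : ∀ a ∈ W, Tri G x y a := by
    intro a ha
    obtain ⟨haU, haz, ha1, ha2, ha3, hax, hay⟩ := (hWm a).1 ha
    exact c.cov.elim hx1.symm hy1.symm ha1.symm hxy hax.symm hay.symm e2b (e2c a ha) (e1b a ha)
  have Ezya : ∀ a ∈ W, Tri G z y a := by
    intro a ha
    obtain ⟨haU, haz, ha1, ha2, ha3, hax, hay⟩ := (hWm a).1 ha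
    exact c.cov.elim hz1.symm hy1.symm ha1.symm hyz.symm haz.symm hay.symm
      (fun h => hxy (l1 y hy h.swap12).symm) (fun h => hax (l1 a haU h.swap12)) (e1b a ha)
  have Ezxa : ∀ a ∈ W, Tri G z x a := by
    intro a ha
    obtain ⟨haU, haz, ha1, ha2, ha3, hax, hay⟩ := (hWm a).1 ha
    exact c.cov.elim hz3.symm hx3.symm ha3.symm hxz.symm haz.symm hax.symm
      (fun h => hxy (l3 x hx h.swap12)) (fun h => hay (l3 a haU h.swap12)) (e3a a ha)
  -- the link of `z`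
  have e4 : ∀ a ∈ W, ∀ b ∈ W, a ≠ b → ¬ Tri G z a b := by
    intro a ha b hb hab hT
    obtain ⟨haU, haz, ha1, ha2, ha3, hax, hay⟩ := (hWm a).1 ha
    obtain ⟨hbU, hbz, hb1, hb2, hb3, hbx, hby⟩ := (hWm b).1 hb
    have sq := (((((((Sq.start G U z).add2 hx hxz).add1 c haU (a := x) (by simp)
      (Ezxa a ha).swap23).add0 c hbU (a := x) (b := a) (by simp) (by simp) hax.symm
      (Ezxa b hb).swap23 hT.swap23).add0 c hy (a := a) (b := b) (by simp) (by simp) hab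
      (Ezya a ha) (Ezya b hb)).add1 c h1 (a := x) (by simp) e1).add1 c h2 (a := x) (by simp)
      e2).add1 c h3 (a := y) (by simp) e3
    refine sq.no c hz (by norm_num) ?_
    intro t ht htz hnot
    simp only [Finset.mem_insert, Finset.notMem_empty, or_false, not_or] at hnot
    obtain ⟨ht3, ht2, ht1, hty, htb, hta, htx⟩ := hnot
    have htW : t ∈ W := (hWm t).2 ⟨ht, htz, ht1, ht2, ht3, htx, hty⟩
    exact ⟨x, by simp, y, by simp, hxy, (Ezxa t htW).swap23, (Ezya t htW).swap23⟩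
  obtain ⟨a, ha⟩ := Finset.card_pos.1 hWc
  obtain ⟨haU, haz, ha1, ha2, ha3, hax, hay⟩ := (hWm a).1 ha
  have sq := ((((((Sq.start G U a).add2 hx hax.symm).add1 c hy (a := x) (by simp)
    (Exya a ha).cba).add0 c hz (a := x) (b := y) (by simp) (by simp) hxy
    (Ezxa a ha).cab (Ezya a ha).cab).add2 h1 ha1.symm).add1 c h2 (a := u1) (by simp)
    (F12 a haU haz ha1 ha2 hax).cba).add0 c h3 (a := u1) (b := u2) (by simp) (by simp) h12
    (F13 a haU haz ha1 ha3 hax hay).cba (F23 a haU haz ha2 ha3 hax hay).cba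
  refine sq.no c haU (by norm_num) ?_
  intro t ht hta hnot
  simp only [Finset.mem_insert, Finset.notMem_empty, or_false, not_or] at hnot
  obtain ⟨ht3, ht2, ht1, htz, hty, htx⟩ := hnot
  have htW : t ∈ W := (hWm t).2 ⟨ht, htz, ht1, ht2, ht3, htx, hty⟩
  have hat : a ≠ t := fun h => hta h.symm
  have key : ∀ u ∈ U, z ≠ u → u ≠ a → u ≠ t → ¬ Tri G z u a → ¬ Tri G z u t → Tri G u a t :=
    fun u hu hzu hua hut n1 n2 => c.cov.elim hzu haz.symm (Ne.symm htz) hua hut hat n1 n2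
      (e4 a ha t htW hat)
  have k1 : Tri G u1 a t := key u1 h1 hz1 ha1.symm (Ne.symm ht1) (fun h => hax (l1 a haU h))
    (fun h => htx (l1 t ht h))
  have k2 : Tri G u2 a t := key u2 h2 hz2 ha2.symm (Ne.symm ht2) (fun h => hax (l2 a haU h))
    (fun h => htx (l2 t ht h))
  exact ⟨u1, by simp, u2, by simp, h12, k1.bca, k2.bca⟩

end

end KalaiRank
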