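import Pool.Agent.Lib.MP_8317a8_co.Star

set_option autoImplicit false

namespace KalaiRank

open Finset

section

variable {V : Type*} [DecidableEq V] {G : Finset (Finset V)} {U : Finset V}

/-- Three leaves `u1, u2, u3` at `z` with distinct exceptional vertices `x, y, w`. -/
structure Trip (G : Finset (Finset V)) (U : Finset V) (z u1 u2 u3 x y w : V) : Prop where
  hz : z ∈ U
  h1 : u1 ∈ U
  h2 : u2 ∈ U
  h3 : u3 ∈ U
  hx : x ∈ U
  hy : y ∈ U
  hw : w ∈ U
  hz1 : z ≠ u1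
  hz2 : z ≠ u2
  hz3 : z ≠ u3
  h12 : u1 ≠ u2
  h13 : u1 ≠ u3
  h23 : u2 ≠ u3
  hxz : x ≠ z
  hx1 : x ≠ u1
  hx2 : x ≠ u2
  hx3 : x ≠ u3
  hyz : y ≠ z
  hy1 : y ≠ u1
  hy2 : y ≠ u2
  hy3 : y ≠ u3
  hwz : w ≠ z
  hw1 : w ≠ u1
  hw2 : w ≠ u2
  hw3 : w ≠ u3
  hxy : x ≠ y
  hxw : x ≠ w
  hyw : y ≠ w
  e1 : Tri G z u1 x
  e2 : Tri G z u2 y
  e3 : Tri G z u3 w
  l1 : ∀ a ∈ U, Tri G z u1 a → a = x
  l2 : ∀ a ∈ U, Tri G z u2 a → a = y
  l3 : ∀ a ∈ U, Tri G z u3 a → a = w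

variable {z u1 u2 u3 x y w : V}

theorem Trip.perm12 (T : Trip G U z u1 u2 u3 x y w) : Trip G U z u2 u1 u3 y x w :=
  ⟨T.hz, T.h2, T.h1, T.h3, T.hy, T.hx, T.hw, T.hz2, T.hz1, T.hz3, T.h12.symm, T.h23, T.h13,
    T.hyz, T.hy2, T.hy1, T.hy3, T.hxz, T.hx2, T.hx1, T.hx3, T.hwz, T.hw2, T.hw1, T.hw3,
    T.hxy.symm, T.hyw, T.hxw, T.e2, T.e1, T.e3, T.l2, T.l1, T.l3⟩

theorem Trip.perm23 (T : Trip G U z u1 u2 u3 x y w) : Trip G U z u1 u3 u2 x w y :=
  ⟨T.hz, T.h1, T.h3, T.h2, T.hx, T.hw, T.hy, T.hz1, T.hz3, T.hz2, T.h13, T.h12, T.h23.symm,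
    T.hxz, T.hx1, T.hx3, T.hx2, T.hwz, T.hw1, T.hw3, T.hw2, T.hyz, T.hy1, T.hy3, T.hy2,
    T.hxw, T.hxy, T.hyw.symm, T.e1, T.e3, T.e2, T.l1, T.l3, T.l2⟩

theorem Trip.perm13 (T : Trip G U z u1 u2 u3 x y w) : Trip G U z u3 u2 u1 w y x :=
  T.perm12.perm23.perm12

theorem Trip.F12 (T : Trip G U z u1 u2 u3 x y w) (c : Ctx G U) {a : V} (ha : a ∈ U)
    (haz : a ≠ z) (ha1 : a ≠ u1) (ha2 : a ≠ u2) (hax : a ≠ x) (hay : a ≠ y) : Tri G u1 u2 a :=
  c.cov.elim T.hz1 T.hz2 haz.symm T.h12 ha1.symm ha2.symm (fun h => T.hx2 (T.l1 u2 T.h2 h).symm)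
    (fun h => hax (T.l1 a ha h)) (fun h => hay (T.l2 a ha h))

theorem Trip.F13 (T : Trip G U z u1 u2 u3 x y w) (c : Ctx G U) {a : V} (ha : a ∈ U)
    (haz : a ≠ z) (ha1 : a ≠ u1) (ha3 : a ≠ u3) (hax : a ≠ x) (haw : a ≠ w) : Tri G u1 u3 a :=
  T.perm23.F12 c ha haz ha1 ha3 hax haw

theorem Trip.T123 (T : Trip G U z u1 u2 u3 x y w) (c : Ctx G U) : Tri G u1 u2 u3 :=
  T.F12 c T.h3 T.hz3.symm T.h13.symm T.h23.symm T.hx3.symm T.hy3.symm

theorem Trip.T13y (T : Trip G U z u1 u2 u3 x y w) (c : Ctx G U) : Tri G u1 u3 y :=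
  T.F13 c T.hy T.hyz T.hy1 T.hy3 T.hxy.symm T.hyw

theorem Trip.T12w (T : Trip G U z u1 u2 u3 x y w) (c : Ctx G U) : Tri G u1 u2 w :=
  T.F12 c T.hw T.hwz T.hw1 T.hw2 T.hxw.symm T.hyw.symm

/-- Beginning of all building sequences in the link of `u1`. -/
theorem Trip.base (T : Trip G U z u1 u2 u3 x y w) (c : Ctx G U) :
    Sq G U u1 (insert u3 (insert u2 ∅)) 3 :=
  ((Sq.start G U u1).add2 T.h2 T.h12.symm).add1 c T.h3 (a := u2) (by simp) (T.T123 c).swap23

/-- End of all building sequences in the link of `u1`. -/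
theorem Trip.done (T : Trip G U z u1 u2 u3 x y w) (c : Ctx G U) {A : Finset V} {k : ℕ}
    (sq : Sq G U u1 A k) (hk : k ≤ 6) (m2 : u2 ∈ A) (m3 : u3 ∈ A) (mz : z ∈ A) (mx : x ∈ A)
    (my : y ∈ A) (mw : w ∈ A) : False := by
  refine sq.no c T.h1 hk ?_
  intro t ht ht1 hnot
  have htz : t ≠ z := fun h => hnot (h ▸ mz)
  have htx : t ≠ x := fun h => hnot (h ▸ mx)
  have hty : t ≠ y := fun h => hnot (h ▸ my)
  have htw : t ≠ w := fun h => hnot (h ▸ mw)
  have ht2 : t ≠ u2 := fun h => hnot (h ▸ m2)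
  have ht3 : t ≠ u3 := fun h => hnot (h ▸ m3)
  exact ⟨u2, m2, u3, m3, T.h23, (T.F12 c ht htz ht1 ht2 htx hty).swap23,
    (T.F13 c ht htz ht1 ht3 htx htw).swap23⟩

theorem Trip.ti (T : Trip G U z u1 u2 u3 x y w) (c : Ctx G U) (p : Tri G u1 x u2)
    (q : Tri G u1 x w) : False := by
  have sq := ((((T.base c).add1 c T.hy (a := u3) (by simp) (T.T13y c).swap23).add1 c T.hw
    (a := u2) (by simp) (T.T12w c).swap23).add0 c T.hx (a := u2) (b := w) (by simp) (by simp)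
    T.hw2.symm p q).add1 c T.hz (a := x) (by simp) T.e1.swap12
  exact T.done c sq (by norm_num) (by simp) (by simp) (by simp) (by simp) (by simp) (by simp)

theorem Trip.tii (T : Trip G U z u1 u2 u3 x y w) (c : Ctx G U) (p : Tri G u1 x u2)
    (q : Tri G u1 w u3) : False := by
  have sq := ((((T.base c).add1 c T.hy (a := u3) (by simp) (T.T13y c).swap23).add0 c T.hw
    (a := u2) (b := u3) (by simp) (by simp) T.h23 (T.T12w c).swap23 q).add1 c T.hx (a := u2)
    (by simp) p).add1 c T.hz (a := x) (by simp) T.e1.swap12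
  exact T.done c sq (by norm_num) (by simp) (by simp) (by simp) (by simp) (by simp) (by simp)

theorem Trip.tiii (T : Trip G U z u1 u2 u3 x y w) (c : Ctx G U) (p : Tri G u1 x u2)
    (q : Tri G u1 x u3) : False := by
  have sq := ((((T.base c).add1 c T.hy (a := u3) (by simp) (T.T13y c).swap23).add1 c T.hw
    (a := u2) (by simp) (T.T12w c).swap23).add0 c T.hx (a := u2) (b := u3) (by simp) (by simp)
    T.h23 p q).add1 c T.hz (a := x) (by simp) T.e1.swap12
  exact T.done c sq (by norm_num) (by simp) (by simp) (by simp) (by simp) (by simp) (by simp)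

theorem Trip.tiv (T : Trip G U z u1 u2 u3 x y w) (c : Ctx G U) (p : Tri G u1 y u2)
    (q : Tri G u1 x w) : False := by
  have sq := ((((T.base c).add0 c T.hy (a := u3) (b := u2) (by simp) (by simp) T.h23.symm
    (T.T13y c).swap23 p).add1 c T.hw (a := u2) (by simp) (T.T12w c).swap23).add1 c T.hx (a := w)
    (by simp) q).add1 c T.hz (a := x) (by simp) T.e1.swap12
  exact T.done c sq (by norm_num) (by simp) (by simp) (by simp) (by simp) (by simp) (by simp)

theorem Trip.tv (T : Trip G U z u1 u2 u3 x y w) (c : Ctx G U) (p : Tri G u1 y u2)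
    (q : Tri G u1 x u3) : False := by
  have sq := ((((T.base c).add0 c T.hy (a := u3) (b := u2) (by simp) (by simp) T.h23.symm
    (T.T13y c).swap23 p).add1 c T.hw (a := u2) (by simp) (T.T12w c).swap23).add1 c T.hx (a := u3)
    (by simp) q).add1 c T.hz (a := x) (by simp) T.e1.swap12
  exact T.done c sq (by norm_num) (by simp) (by simp) (by simp) (by simp) (by simp) (by simp)

theorem Trip.tvi (T : Trip G U z u1 u2 u3 x y w) (c : Ctx G U) (p : Tri G u1 y u2)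
    (q : Tri G u1 w u3) : False := by
  have sq := ((((T.base c).add0 c T.hy (a := u3) (b := u2) (by simp) (by simp) T.h23.symm
    (T.T13y c).swap23 p).add0 c T.hw (a := u2) (b := u3) (by simp) (by simp) T.h23
    (T.T12w c).swap23 q).add2 T.hx T.hx1).add1 c T.hz (a := x) (by simp) T.e1.swap12
  exact T.done c sq (by norm_num) (by simp) (by simp) (by simp) (by simp) (by simp) (by simp)

theorem Trip.tvii (T : Trip G U z u1 u2 u3 x y w) (c : Ctx G U) (p : Tri G u1 x y)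
    (q : Tri G u1 x w) : False := by
  have sq := ((((T.base c).add1 c T.hy (a := u3) (by simp) (T.T13y c).swap23).add1 c T.hw
    (a := u2) (by simp) (T.T12w c).swap23).add0 c T.hx (a := y) (b := w) (by simp) (by simp)
    T.hyw p q).add1 c T.hz (a := x) (by simp) T.e1.swap12
  exact T.done c sq (by norm_num) (by simp) (by simp) (by simp) (by simp) (by simp) (by simp)

theorem Trip.tviii (T : Trip G U z u1 u2 u3 x y w) (c : Ctx G U) (p : Tri G u1 x y)
    (q : Tri G u1 y w) : False := by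
  have sq := ((((T.base c).add1 c T.hy (a := u3) (by simp) (T.T13y c).swap23).add0 c T.hw
    (a := u2) (b := y) (by simp) (by simp) T.hy2.symm (T.T12w c).swap23 q.swap23).add1 c T.hx
    (a := y) (by simp) p).add1 c T.hz (a := x) (by simp) T.e1.swap12
  exact T.done c sq (by norm_num) (by simp) (by simp) (by simp) (by simp) (by simp) (by simp)

theorem Trip.tn2 (T : Trip G U z u1 u2 u3 x y w) (c : Ctx G U) {a : V} (ha : a ∈ U)
    (haz : a ≠ z) (ha1 : a ≠ u1) (ha2 : a ≠ u2) (ha3 : a ≠ u3) (hax : a ≠ x) (hay : a ≠ y)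
    (haw : a ≠ w) (p : Tri G u1 x y) (q : Tri G u1 x a) : False := by
  have sq := (((((T.base c).add0 c ha (a := u2) (b := u3) (by simp) (by simp) T.h23
    (T.F12 c ha haz ha1 ha2 hax hay).swap23 (T.F13 c ha haz ha1 ha3 hax haw).swap23).add1 c T.hy
    (a := u3) (by simp) (T.T13y c).swap23).add1 c T.hw (a := u2) (by simp)
    (T.T12w c).swap23).add0 c T.hx (a := y) (b := a) (by simp) (by simp) hay.symm p q).add1 c T.hz
    (a := x) (by simp) T.e1.swap12
  exact T.done c sq (by norm_num) (by simp) (by simp) (by simp) (by simp) (by simp) (by simp)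

theorem Trip.tn3 (T : Trip G U z u1 u2 u3 x y w) (c : Ctx G U) {a : V} (ha : a ∈ U)
    (haz : a ≠ z) (ha1 : a ≠ u1) (ha2 : a ≠ u2) (ha3 : a ≠ u3) (hax : a ≠ x) (hay : a ≠ y)
    (haw : a ≠ w) (p : Tri G u1 x y) (q : Tri G u1 w a) : False := by
  have sq := (((((T.base c).add0 c ha (a := u2) (b := u3) (by simp) (by simp) T.h23
    (T.F12 c ha haz ha1 ha2 hax hay).swap23 (T.F13 c ha haz ha1 ha3 hax haw).swap23).add1 c T.hy
    (a := u3) (by simp) (T.T13y c).swap23).add0 c T.hw (a := u2) (b := a) (by simp) (by simp)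
    ha2.symm (T.T12w c).swap23 q).add1 c T.hx (a := y) (by simp) p).add1 c T.hz
    (a := x) (by simp) T.e1.swap12
  exact T.done c sq (by norm_num) (by simp) (by simp) (by simp) (by simp) (by simp) (by simp)

theorem Trip.f1 (T : Trip G U z u1 u2 u3 x y w) (c : Ctx G U) : ¬ Tri G u1 u2 x := by
  intro h
  have p : Tri G u1 x u2 := h.swap23
  -- link of `u1`
  have a1 : ¬ Tri G u1 u3 x := fun q => T.tiii c p q.swap23
  have a2 : ¬ Tri G u1 u3 w := fun q => T.tii c p q.swap23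
  have a3 : ¬ Tri G u1 x w := fun q => T.ti c p q
  have A : Tri G u3 x w := c.cov.elim T.h13 T.hx1.symm T.hw1.symm T.hx3.symm T.hw3.symm T.hxw a1 a2 a3
  -- link of `u2`: the roles are (u2; y), (u1; x), (u3; w)
  have p' : Tri G u2 x u1 := h.bca
  have b1 : ¬ Tri G u2 u3 y := fun q => T.perm12.tv c p' q.swap23
  have b2 : ¬ Tri G u2 u3 w := fun q => T.perm12.tvi c p' q.swap23
  have b3 : ¬ Tri G u2 y w := fun q => T.perm12.tiv c p' q
  have B : Tri G u3 y w := c.cov.elim T.h23 T.hy2.symm T.hw2.symm T.hy3.symm T.hw3.symm T.hyw b1 b2 b3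
  -- link of `u3`
  exact T.perm13.tvii c B.swap23 A.swap23

theorem Trip.f12 (T : Trip G U z u1 u2 u3 x y w) (c : Ctx G U) : Tri G u1 x y ∨ Tri G u2 x y := by
  rcases c.cov u1 u2 x y T.h12 T.hx1.symm T.hy1.symm T.hx2.symm T.hy2.symm T.hxy with h | h | h | h
  · exact absurd h (T.f1 c)
  · exact absurd h.swap12 (T.perm12.f1 c)
  · exact Or.inl h
  · exact Or.inr h

/-- The cyclic configuration is impossible. -/
theorem Trip.cyc (T : Trip G U z u1 u2 u3 x y w) (c : Ctx G U) (p1 : Tri G u1 x y)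
    (p2 : Tri G u2 y w) (p3 : Tri G u3 w x) : False := by
  have n1 : ¬ Tri G u1 x w := fun q => T.tvii c p1 q
  -- link of `u2`, roles (u2; y), (u3; w), (u1; x)
  have Q2 : Trip G U z u2 u3 u1 y w x := T.perm12.perm23
  have m3 : ¬ Tri G u2 x w := fun q => Q2.tviii c p2 q.swap23
  -- link of `u3`, roles (u3; w), (u1; x), (u2; y)
  have Q3 : Trip G U z u3 u1 u2 w x y := T.perm13.perm23
  have q1 : ¬ Tri G u3 x y := fun q => Q3.tviii c p3 q
  have Zxw : Tri G z x w := by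
    have := c.cov.elim (a := u2) (b := z) (c := x) (d := w) T.hz2.symm T.hx2.symm T.hw2.symm
      T.hxz.symm T.hwz.symm T.hxw (fun h => T.hxy (T.l2 x T.hx h.swap12))
      (fun h => T.hyw (T.l2 w T.hw h.swap12).symm) m3
    exact this
  have Zxy : Tri G z x y := by
    have := c.cov.elim (a := u3) (b := z) (c := x) (d := y) T.hz3.symm T.hx3.symm T.hy3.symm
      T.hxz.symm T.hyz.symm T.hxy (fun h => T.hxw (T.l3 x T.hx h.swap12))
      (fun h => T.hyw (T.l3 y T.hy h.swap12)) q1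
    exact this
  have T23x : Tri G u2 u3 x := Q2.F12 c T.hx T.hxz T.hx2 T.hx3 T.hxy T.hxw
  have sq := ((((((Sq.start G U x).add2 T.hz T.hxz.symm).add1 c T.hw (a := z) (by simp)
    Zxw.bca).add1 c T.hy (a := z) (by simp) Zxy.bca).add0 c T.h1 (a := z) (b := y) (by simp)
    (by simp) T.hyz.symm T.e1.cba p1.swap12).add1 c T.h3 (a := w) (by simp)
    (p3.cab)).add1 c T.h2 (a := u3) (by simp) T23x.cab
  refine sq.no c T.hx (by norm_num) ?_
  intro t ht htx hnot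
  simp only [Finset.mem_insert, Finset.notMem_empty, or_false, not_or] at hnot
  obtain ⟨ht2, ht3, ht1, hty, htw, htz⟩ := hnot
  have n2 : ¬ Tri G u1 x t := fun q => T.tn2 c ht htz ht1 ht2 ht3 htx hty htw p1 q
  have n3 : ¬ Tri G u1 w t := fun q => T.tn3 c ht htz ht1 ht2 ht3 htx hty htw p1 q
  have m2 : ¬ Tri G u2 x t := fun q => Q2.tn3 c ht htz ht2 ht3 ht1 hty htw htx p2 q
  have Zxt : Tri G z x t := by
    have := c.cov.elim (a := u2) (b := z) (c := x) (d := t) T.hz2.symm T.hx2.symm (Ne.symm ht2)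
      T.hxz.symm (Ne.symm htz) (Ne.symm htx) (fun h => T.hxy (T.l2 x T.hx h.swap12))
      (fun h => hty (T.l2 t ht h.swap12)) m2
    exact this
  have Xwt : Tri G x w t := by
    have := c.cov.elim (a := u1) (b := x) (c := w) (d := t) T.hx1.symm T.hw1.symm (Ne.symm ht1)
      T.hxw (Ne.symm htx) (Ne.symm htw) n1 n2 n3
    exact this
  exact ⟨z, by simp, w, by simp, T.hwz.symm, Zxt.bca, Xwt.swap23⟩

theorem starF (c : Ctx G U) (T : Trip G U z u1 u2 u3 x y w) : False := by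
  have P12 := T.f12 c
  have P13 : Tri G u1 x w ∨ Tri G u3 x w := T.perm23.f12 c
  have P23 : Tri G u2 y w ∨ Tri G u3 y w := T.perm12.perm23.f12 c
  by_cases h : Tri G u1 x y
  · have n1 : ¬ Tri G u1 x w := fun q => T.tvii c h q
    have h3 : Tri G u3 x w := by tauto
    have n3 : ¬ Tri G u3 y w := fun q => T.perm13.tvii c q.swap23 h3.swap23
    have h2 : Tri G u2 y w := by tauto
    exact T.cyc c h h2 h3.swap23
  · have h2 : Tri G u2 x y := by tauto
    have n2 : ¬ Tri G u2 y w := fun q => T.perm12.tvii c h2.swap23 q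
    have h3 : Tri G u3 y w := by tauto
    have n3 : ¬ Tri G u3 x w := fun q => T.perm13.tvii c h3.swap23 q.swap23
    have h1 : Tri G u1 x w := by tauto
    exact T.perm23.cyc c h1 h3.swap23 h2.swap23

/-- No vertex has three partners of codegree at most one. -/
theorem star (c : Ctx G U) (hU : 8 ≤ U.card) {z u1 u2 u3 : V} (hz : z ∈ U) (h1 : u1 ∈ U)
    (h2 : u2 ∈ U) (h3 : u3 ∈ U) (hz1 : z ≠ u1) (hz2 : z ≠ u2) (hz3 : z ≠ u3) (h12 : u1 ≠ u2)
    (h13 : u1 ≠ u3) (h23 : u2 ≠ u3) (l1 : ∃ t, ∀ a ∈ U, Tri G z u1 a → a = t)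
    (l2 : ∃ t, ∀ a ∈ U, Tri G z u2 a → a = t) (l3 : ∃ t, ∀ a ∈ U, Tri G z u3 a → a = t) :
    False := by
  -- a partner either has no common edge with `z`, or an exceptional vertex
  have key : ∀ u, (∃ t, ∀ a ∈ U, Tri G z u a → a = t) → (∀ a ∈ U, ¬ Tri G z u a) ∨
      ∃ t ∈ U, Tri G z u t ∧ ∀ a ∈ U, Tri G z u a → a = t := by
    rintro u ⟨t, ht⟩
    by_cases h : ∃ a ∈ U, Tri G z u a
    · obtain ⟨a, ha, hT⟩ := h
      right
      refine ⟨a, ha, hT, fun b hb hTb => ?_⟩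
      rw [ht b hb hTb, ht a ha hT]
    · left
      intro a ha hT
      exact h ⟨a, ha, hT⟩
  -- exactly one missing
  have one : ∀ u1 u2 u3 : V, u1 ∈ U → u2 ∈ U → u3 ∈ U → z ≠ u1 → z ≠ u2 → z ≠ u3 → u1 ≠ u2 →
      u1 ≠ u3 → u2 ≠ u3 → (∀ a ∈ U, ¬ Tri G z u1 a) →
      (∃ t ∈ U, Tri G z u2 t ∧ ∀ a ∈ U, Tri G z u2 a → a = t) →
      (∃ t ∈ U, Tri G z u3 t ∧ ∀ a ∈ U, Tri G z u3 a → a = t) → False := by
    rintro u1 u2 u3 h1 h2 h3 hz1 hz2 hz3 h12 h13 h23 n1 ⟨y, hy, e2, l2⟩ ⟨w, hw, e3, l3⟩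
    have hy1 : y ≠ u1 := fun h => n1 u2 h2 (by rw [← h]; exact e2.swap23)
    have hw1 : w ≠ u1 := fun h => n1 u3 h3 (by rw [← h]; exact e3.swap23)
    by_cases hy3 : y = u3
    · subst hy3
      have : u2 = w := l3 u2 h2 e2.swap23
      subst this
      exact starD1 c hz h1 h2 h3 hz1 hz2 hz3 h12 h13 h23 n1 l2 l3
    · have hw2 : w ≠ u2 := by
        rintro rfl
        exact hy3 (l2 u3 h3 e3.swap23).symm
      by_cases hyw : y = w
      · subst hyw
        exact starB c hz h2 h3 h1 hy hz2 hz3 hz1 h23 h12.symm h13.symm hy3 hy1 e2 l2 l3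
          (fun a ha h => absurd h (n1 a ha))
      · exact starC c hz h2 h3 h1 hy hw hz2 hz3 hz1 h23 h12.symm h13.symm hy3 hy1 hw2 hw1 hyw e2 e3
          l2 l3 n1
  have all : ∀ u1 u2 u3 x : V, u1 ∈ U → u2 ∈ U → u3 ∈ U → x ∈ U → z ≠ u1 → z ≠ u2 → z ≠ u3 →
      u1 ≠ u2 → u1 ≠ u3 → u2 ≠ u3 → Tri G z u1 x → Tri G z u2 u3 →
      (∀ a ∈ U, Tri G z u1 a → a = x) → (∀ a ∈ U, Tri G z u2 a → a = u3) →
      (∀ a ∈ U, Tri G z u3 a → a = u2) → False := by
    intro u1 u2 u3 x h1 h2 h3 hx hz1 hz2 hz3 h12 h13 h23 e1 e2 l1 l2 l3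
    have hx2 : x ≠ u2 := by
      rintro rfl
      exact h13 (l2 u1 h1 e1.swap23)
    have hx3 : x ≠ u3 := by
      rintro rfl
      exact h12 (l3 u1 h1 e1.swap23)
    exact starD2 c hU hz h1 h2 h3 hx hz1 hz2 hz3 h12 h13 h23 hx2 hx3 e1 l1 l2 l3
  rcases key u1 l1 with n1 | ⟨x, hx, e1, L1⟩
  · rcases key u2 l2 with n2 | ⟨y, hy, e2, L2⟩
    · exact starA c hz h1 h2 h3 hz1 hz2 hz3 h12 h13 h23 n1 n2 l3
    · rcases key u3 l3 with n3 | ⟨w, hw, e3, L3⟩
      · exact starA c hz h1 h3 h2 hz1 hz3 hz2 h13 h12 h23.symm n1 n3 l2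
      · exact one u1 u2 u3 h1 h2 h3 hz1 hz2 hz3 h12 h13 h23 n1 ⟨y, hy, e2, L2⟩ ⟨w, hw, e3, L3⟩
  · rcases key u2 l2 with n2 | ⟨y, hy, e2, L2⟩
    · rcases key u3 l3 with n3 | ⟨w, hw, e3, L3⟩
      · exact starA c hz h2 h3 h1 hz2 hz3 hz1 h23 h12.symm h13.symm n2 n3 l1
      · exact one u2 u1 u3 h2 h1 h3 hz2 hz1 hz3 h12.symm h23 h13 n2 ⟨x, hx, e1, L1⟩
          ⟨w, hw, e3, L3⟩
    · rcases key u3 l3 with n3 | ⟨w, hw, e3, L3⟩
      · exact one u3 u1 u2 h3 h1 h2 hz3 hz1 hz2 h13.symm h23.symm h12 n3 ⟨x, hx, e1, L1⟩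
          ⟨y, hy, e2, L2⟩
      · -- all exceptional vertices exist
        by_cases hx2 : x = u2
        · subst hx2
          have : u1 = y := L2 u1 h1 e1.swap23
          subst this
          exact all u3 u1 x w h3 h1 hx hw hz3 hz1 hz2 h13.symm h23.symm h12 e3 e1 L3 L1 L2
        by_cases hx3 : x = u3
        · subst hx3
          have : u1 = w := L3 u1 h1 e1.swap23
          subst this
          exact all u2 u1 x y h2 h1 hx hy hz2 hz1 hz3 h12.symm h23 h13 e2 e1 L2 L1 L3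
        by_cases hy3 : y = u3
        · subst hy3
          have : u2 = w := L3 u2 h2 e2.swap23
          subst this
          exact all u1 u2 y x h1 h2 hy hx hz1 hz2 hz3 h12 h13 h23 e1 e2 L1 L2 L3
        have hy1 : y ≠ u1 := by
          rintro rfl
          exact hx2 (L1 u2 h2 e2.swap23).symm
        have hw1 : w ≠ u1 := by
          rintro rfl
          exact hx3 (L1 u3 h3 e3.swap23).symm
        have hw2 : w ≠ u2 := by
          rintro rfl
          exact hy3 (L2 u3 h3 e3.swap23).symm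
        by_cases hxy : x = y
        · subst hxy
          by_cases hxw : x = w
          · subst hxw
            exact starB c hz h1 h2 h3 hx hz1 hz2 hz3 h12 h13 h23 hx2 hx3 e1 L1 L2 L3
          · exact starE c (by omega) hz h1 h2 h3 hx hw hz1 hz2 hz3 h12 h13 h23 hx3 hw1 hw2 hxw
              e1 e2 e3 L1 L2 L3
        · by_cases hxw : x = w
          · subst hxw
            exact starE c (by omega) hz h1 h3 h2 hx hy hz1 hz3 hz2 h13 h12 h23.symm hx2 hy1 hy3 hxy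
              e1 e3 e2 L1 L3 L2
          · by_cases hyw : y = w
            · subst hyw
              exact starE c (by omega) hz h2 h3 h1 hy hx hz2 hz3 hz1 h23 h12.symm h13.symm hy1
                hx2 hx3 (Ne.symm hxy) e2 e3 e1 L2 L3 L1
            · exact starF c ⟨hz, h1, h2, h3, hx, hy, hw, hz1, hz2, hz3, h12, h13, h23,
                (Tri.ne13 c.h3 e1).symm, (Tri.ne23 c.h3 e1).symm, hx2, hx3,
                (Tri.ne13 c.h3 e2).symm, hy1, (Tri.ne23 c.h3 e2).symm, hy3,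
                (Tri.ne13 c.h3 e3).symm, hw1, hw2, (Tri.ne23 c.h3 e3).symm, hxy, hxw, hyw,
                e1, e2, e3, L1, L2, L3⟩

end

end KalaiRank
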