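import Pool.Agent.Lib.MP_8317a8_co.Bd
import Pool.Agent.Lib.MP_8317a8_co.YSpace

set_option autoImplicit false

/-!
# A bound for the kernel which is uniform in `s`

For every set `U` of vertices there is `w ∈ U` whose link on `U` is generated, under the rule that a
vertex with at least `s` neighbours is free, by at most `7 s` vertices, as soon as `|U| > 14 s`.
-/

namespace KalaiRank

open Finset Module

section comb

variable {V : Type*} [DecidableEq V]

/-- The number of members of `T` adjacent to `v` in the link of `w`. -/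
def dT (G : Finset (Finset V)) (w : V) (T : Finset V) (v : V) : ℕ :=
  (T.filter (fun t => t ≠ v ∧ Tri G w v t)).card

theorem dT_mono (G : Finset (Finset V)) (w : V) {T B : Finset V} (h : T ⊆ B) (v : V) :
    dT G w T v ≤ dT G w B v := card_le_card (filter_subset_filter _ h)

theorem dT_insert_le (G : Finset (Finset V)) (w : V) (T : Finset V) (t v : V) :
    dT G w (insert t T) v ≤ dT G w T v + if t ≠ v ∧ Tri G w v t then 1 else 0 := by
  unfold dT
  rw [filter_insert]
  split_ifs with h
  · exact card_insert_le _ _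
  · exact le_rfl

/-- `B` is closed in `W`: a vertex outside `B` has fewer than `s` neighbours in `B`. -/
def Clo (G : Finset (Finset V)) (s : ℕ) (w : V) (W B : Finset V) : Prop :=
  ∀ v ∈ W, v ∉ B → dT G w B v < s

end comb

section alg

variable {K : Type*} [Field K] {V : Type*} [DecidableEq V] [Fintype V] {s : ℕ}

theorem exists_clo {x : V → Fin s → K} (hx : GenPos x) (G : Finset (Finset V)) (w : V)
    (W B0 : Finset V) (h0 : B0 ⊆ W) : ∃ B, B0 ⊆ B ∧ B ⊆ W ∧ Clo G s w W B ∧
      finrank K (Sol G x w B) ≤ finrank K (Sol G x w B0) := by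
  classical
  have hne : (W.powerset.filter (fun B => B0 ⊆ B ∧
      finrank K (Sol G x w B) ≤ finrank K (Sol G x w B0))).Nonempty :=
    ⟨B0, mem_filter.2 ⟨mem_powerset.2 h0, Subset.refl _, le_rfl⟩⟩
  obtain ⟨B, hB, hmax⟩ := Finset.exists_max_image _ Finset.card hne
  rw [mem_filter, mem_powerset] at hB
  refine ⟨B, hB.2.1, hB.1, ?_, hB.2.2⟩
  intro v hv hvB
  by_contra hcon
  rw [not_lt] at hcon
  have h1 := Sol_insert_le G x w B v ⊥ (fun u hu => by
    rw [Submodule.mem_bot]
    apply hx.eq_zero _ hcon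
    intro a ha
    rw [mem_filter] at ha
    exact hu a ha.1 ha.2.1 ha.2.2)
  rw [finrank_bot, add_zero] at h1
  have h2 := hmax (insert v B) (mem_filter.2 ⟨mem_powerset.2 (insert_subset hv hB.1),
    hB.2.1.trans (subset_insert v B), h1.trans hB.2.2⟩)
  rw [card_insert_of_notMem hvB] at h2
  omega

/-- Either the link of `w` is cheap, or there are `m` vertices with few incidences. -/
theorem greedy_seq {x : V → Fin s → K} (hx : GenPos x) (hs : 1 ≤ s) (G : Finset (Finset V))
    (w : V) (W : Finset V) (m : ℕ) : finrank K (Sol G x w W) ≤ s * m ∨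
      ∃ T ⊆ W, T.card = m ∧ ∑ v ∈ W, (dT G w T v - s) ≤ (s - 1) * m := by
  classical
  by_contra hcon
  rw [not_or] at hcon
  obtain ⟨hbig, hno⟩ := hcon
  have key : ∀ k ≤ m, ∃ T B, T ⊆ B ∧ B ⊆ W ∧ T.card = k ∧ Clo G s w W B ∧
      finrank K (Sol G x w B) ≤ s * k ∧ ∑ v ∈ W, (dT G w T v - s) ≤ (s - 1) * k := by
    intro k
    induction k with
    | zero =>
      intro _
      obtain ⟨B, -, hBW, hcl, hfr⟩ := exists_clo hx G w W ∅ (empty_subset _)
      refine ⟨∅, B, empty_subset _, hBW, card_empty, hcl, ?_, ?_⟩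
      · have := finrank_Sol_le_card G x w ∅
        rw [card_empty] at this
        exact hfr.trans this
      · rw [Nat.mul_zero, Nat.le_zero, sum_eq_zero]
        intro v _
        simp [dT]
    | succ k ih =>
      intro hk
      obtain ⟨T, B, hTB, hBW, hT, hcl, hfr, hsum⟩ := ih (by omega)
      have hne : B ≠ W := by
        rintro rfl
        exact hbig (hfr.trans (Nat.mul_le_mul_left _ (by omega)))
      obtain ⟨t, htW, htB⟩ := Finset.exists_of_ssubset (Finset.ssubset_iff_subset_ne.2 ⟨hBW, hne⟩)
      obtain ⟨B', hB'0, hB'W, hcl', hfr'⟩ := exists_clo hx G w W (insert t B)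
        (insert_subset htW hBW)
      refine ⟨insert t T, B', (insert_subset_insert t hTB).trans hB'0, hB'W,
        by rw [card_insert_of_notMem (fun h => htB (hTB h)), hT], hcl', ?_, ?_⟩
      · have h1 := Sol_insert_le G x w B t ⊤ (fun v _ => Submodule.mem_top)
        rw [finrank_top, Module.finrank_fin_fun] at h1
        rw [Nat.mul_succ]
        omega
      · have h1 : ∀ v ∈ W, dT G w (insert t T) v - s ≤
            (dT G w T v - s) + if v ∈ B ∧ v ≠ t ∧ Tri G w t v then 1 else 0 := by
          intro v hv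
          have h2 := dT_insert_le G w T t v
          by_cases hvB : v ∈ B
          · by_cases h3 : t ≠ v ∧ Tri G w v t
            · rw [if_pos h3] at h2
              rw [if_pos ⟨hvB, h3.1.symm, h3.2.swap23⟩]
              omega
            · rw [if_neg h3] at h2
              omega
          · have h3 := (dT_mono G w hTB v).trans_lt (hcl v hv hvB)
            split_ifs at h2 <;> omega
        have h4 : (W.filter (fun v => v ∈ B ∧ v ≠ t ∧ Tri G w t v)).card ≤ dT G w B t := by
          apply card_le_card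
          intro v hv
          rw [mem_filter] at hv ⊢
          exact ⟨hv.2.1, hv.2.2⟩
        have h5 := hcl t htW htB
        refine (sum_le_sum h1).trans ?_
        rw [sum_add_distrib, ← card_filter]
        obtain ⟨r, rfl⟩ : ∃ r, s = r + 1 := ⟨s - 1, by omega⟩
        rw [Nat.add_sub_cancel] at hsum ⊢
        rw [Nat.mul_succ]
        omega
  obtain ⟨T, B, hTB, hBW, hT, -, -, hsum⟩ := key m le_rfl
  exact hno ⟨T, hTB.trans hBW, hT, hsum⟩

end alg

section count

variable {V : Type*} [DecidableEq V]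

theorem dT_eq_sum (G : Finset (Finset V)) (w : V) (T : Finset V) (v : V) :
    dT G w T v = ∑ t ∈ T, if t ≠ v ∧ Tri G w v t then 1 else 0 := card_filter _ _

theorem pair_count {G : Finset (Finset V)} (hG : Covers G) {x x' : V} (hxx : x ≠ x')
    (A A' : Finset V) (hA : x ∉ A) (hA' : x' ∉ A') :
    A.card * A'.card ≤
      A'.card * ((if x' ∈ A then 1 else 0) + dT G x A x') +
      A.card * ((if x ∈ A' then 1 else 0) + dT G x' A' x) +
      ∑ t' ∈ A'.erase x, (1 + dT G x A t') + ∑ t ∈ A.erase x', dT G x' A' t := by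
  classical
  have hpt : ∀ t ∈ A, ∀ t' ∈ A', 1 ≤
      ((if t = x' then 1 else 0) + (if t ≠ x' ∧ Tri G x x' t then 1 else 0)) +
      ((if t' = x then 1 else 0) + (if t' ≠ x ∧ Tri G x' x t' then 1 else 0)) +
      (if t' ≠ x then ((if t = t' then 1 else 0) + (if t ≠ t' ∧ Tri G x t' t then 1 else 0)) else 0)
      + (if t ≠ x' then (if t' ≠ t ∧ Tri G x' t t' then 1 else 0) else 0 : ℕ) := by
    intro t ht t' ht'
    have htx : x ≠ t := fun h => hA (h ▸ ht)
    have htx' : x' ≠ t' := fun h => hA' (h ▸ ht')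
    by_cases h1 : t = x'
    · simp [h1]
      omega
    by_cases h2 : t' = x
    · simp [h2]
      omega
    by_cases h3 : t = t'
    · rw [if_pos h2, if_pos h3]
      omega
    rcases hG x x' t t' hxx htx (Ne.symm h2) (Ne.symm h1) htx' h3 with h | h | h | h
    · rw [if_pos (c := t ≠ x' ∧ Tri G x x' t) ⟨h1, h⟩]
      omega
    · rw [if_pos (c := t' ≠ x ∧ Tri G x' x t') ⟨h2, h.swap12⟩]
      omega
    · rw [if_pos (c := t' ≠ x) h2, if_pos (c := t ≠ t' ∧ Tri G x t' t) ⟨h3, h.swap23⟩]
      omega
    · rw [if_pos (c := t ≠ x') h1, if_pos (c := t' ≠ t ∧ Tri G x' t t') ⟨Ne.symm h3, h⟩]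
      omega
  have h1 : A.card * A'.card = ∑ t ∈ A, ∑ t' ∈ A', 1 := by
    simp
  rw [h1]
  refine (sum_le_sum fun t ht => sum_le_sum fun t' ht' => hpt t ht t' ht').trans ?_
  simp only [sum_add_distrib]
  refine Nat.add_le_add (Nat.add_le_add (Nat.add_le_add ?_ ?_) ?_) ?_
  · rw [dT_eq_sum, mul_add]
    refine Nat.add_le_add ?_ ?_
    · simp only [sum_const, smul_eq_mul]
      rw [← mul_sum, sum_ite_eq']
    · simp only [sum_const, smul_eq_mul]
      rw [← mul_sum]
  · rw [dT_eq_sum, mul_add]
    refine Nat.add_le_add ?_ ?_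
    · simp only [sum_const, smul_eq_mul]
      rw [sum_ite_eq']
    · simp only [sum_const, smul_eq_mul]
      exact le_rfl
  · rw [sum_comm]
    have h2 : ∀ t' ∈ A', ∑ t ∈ A, (if t' ≠ x then ((if t = t' then 1 else 0) +
        (if t ≠ t' ∧ Tri G x t' t then 1 else 0)) else 0) ≤
        if t' ≠ x then (1 + dT G x A t') else 0 := by
      intro t' _
      by_cases h : t' ≠ x
      · simp only [if_pos h]
        rw [sum_add_distrib, dT_eq_sum, sum_ite_eq']
        refine Nat.add_le_add ?_ le_rfl
        split_ifs <;> omega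
      · simp only [if_neg h, sum_const_zero]
        exact le_rfl
    refine (sum_le_sum h2).trans (le_of_eq ?_)
    rw [← sum_add_distrib, ← sum_filter, filter_ne']
  · have h2 : ∀ t ∈ A, ∑ t' ∈ A', (if t ≠ x' then (if t' ≠ t ∧ Tri G x' t t' then 1 else 0) else 0)
        = if t ≠ x' then dT G x' A' t else 0 := by
      intro t _
      by_cases h : t ≠ x'
      · simp only [if_pos h]
        rw [dT_eq_sum]
      · simp only [if_neg h, sum_const_zero]
    rw [sum_congr rfl h2, ← sum_filter, filter_ne']

theorem sum_swap (U : Finset V) (f : V → V → ℕ) :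
    ∑ x ∈ U, ∑ x' ∈ U.erase x, f x' x = ∑ x ∈ U, ∑ x' ∈ U.erase x, f x x' := by
  have h : ∀ g : V → V → ℕ, ∑ x ∈ U, ∑ x' ∈ U.erase x, g x x' =
      ∑ x ∈ U, ∑ x' ∈ U, if x' ≠ x then g x x' else 0 := by
    intro g
    refine sum_congr rfl fun x _ => ?_
    rw [← sum_filter, filter_ne']
  rw [h, h f, sum_comm]
  refine sum_congr rfl fun x _ => sum_congr rfl fun x' _ => ?_
  by_cases hx : x = x'
  · simp [hx]
  · rw [if_pos hx, if_pos (Ne.symm hx)]

/-- The counting of pairs of incident quadruples. -/
theorem count_main {G : Finset (Finset V)} (hG : Covers G) (U : Finset V) {s m : ℕ} (hs : 1 ≤ s)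
    (T : V → Finset V) (hTU : ∀ x ∈ U, T x ⊆ U.erase x) (hTc : ∀ x ∈ U, (T x).card = m)
    (hT : ∀ x ∈ U, ∀ S ⊆ U.erase x, ∑ v ∈ S, dT G x (T x) v ≤ s * S.card + (s - 1) * m) :
    U.card * ((U.card - 1) * (m * m)) ≤ 2 * (U.card * (m * (s * (U.card - 1) + s * m))) +
      U.card * ((U.card - 1) * ((4 * s - 1) * m)) := by
  have hcard : ∀ x ∈ U, (U.erase x).card = U.card - 1 := fun x hx => card_erase_of_mem hx
  obtain ⟨r, rfl⟩ : ∃ r, s = r + 1 := ⟨s - 1, by omega⟩
  -- sums over `x'` for fixed `x`
  have h1 : ∀ x ∈ U, ∑ x' ∈ U.erase x, m * ((if x' ∈ T x then 1 else 0) + dT G x (T x) x') ≤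
      m * ((r + 1) * (U.card - 1) + (r + 1) * m) := by
    intro x hx
    rw [← mul_sum, sum_add_distrib, ← card_filter]
    refine Nat.mul_le_mul_left _ ?_
    have h2 := hT x hx (U.erase x) (Subset.refl _)
    rw [hcard x hx, Nat.add_sub_cancel] at h2
    have h3 : ((U.erase x).filter (fun x' => x' ∈ T x)).card ≤ m := by
      rw [← hTc x hx]
      exact card_le_card fun v hv => (mem_filter.1 hv).2
    have h4 : (r + 1) * m = r * m + m := by ring
    omega
  have h2 : ∀ x ∈ U, ∀ x' ∈ U.erase x, ∑ t' ∈ (T x').erase x, (1 + dT G x (T x) t') ≤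
      m + ((r + 1) * m + r * m) := by
    intro x hx x' hx'
    have hx'U := mem_of_mem_erase hx'
    have h3 : ((T x').erase x).card ≤ m := by
      rw [← hTc x' hx'U]
      exact card_le_card (erase_subset _ _)
    have h4 := hT x hx ((T x').erase x) (erase_subset_erase x ((hTU x' hx'U).trans
      (erase_subset _ _)))
    rw [Nat.add_sub_cancel] at h4
    rw [sum_add_distrib, sum_const, smul_eq_mul, mul_one]
    have h5 : (r + 1) * ((T x').erase x).card ≤ (r + 1) * m := Nat.mul_le_mul_left _ h3
    omega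
  have h3 : ∀ x ∈ U, ∀ x' ∈ U.erase x, ∑ t ∈ (T x).erase x', dT G x' (T x') t ≤
      (r + 1) * m + r * m := by
    intro x hx x' hx'
    have hx'U := mem_of_mem_erase hx'
    have h3 : ((T x).erase x').card ≤ m := by
      rw [← hTc x hx]
      exact card_le_card (erase_subset _ _)
    have h4 := hT x' hx'U ((T x).erase x') (erase_subset_erase x' ((hTU x hx).trans
      (erase_subset _ _)))
    rw [Nat.add_sub_cancel] at h4
    have h5 : (r + 1) * ((T x).erase x').card ≤ (r + 1) * m := Nat.mul_le_mul_left _ h3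
    omega
  -- the sum over all pairs
  obtain ⟨c, hc⟩ : ∃ c, c = (m + ((r + 1) * m + r * m)) + ((r + 1) * m + r * m) := ⟨_, rfl⟩
  have h4 : ∑ x ∈ U, ∑ x' ∈ U.erase x, m * m ≤
      ∑ x ∈ U, ∑ x' ∈ U.erase x, (m * ((if x' ∈ T x then 1 else 0) + dT G x (T x) x') +
        m * ((if x ∈ T x' then 1 else 0) + dT G x' (T x') x) + c) := by
    refine sum_le_sum fun x hx => sum_le_sum fun x' hx' => ?_
    have hx'U := mem_of_mem_erase hx'
    have hne : x ≠ x' := (ne_of_mem_erase hx').symm
    have h5 := pair_count hG hne (T x) (T x') (fun h => by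
      have := hTU x hx h
      simp at this) (fun h => by
      have := hTU x' hx'U h
      simp at this)
    rw [hTc x hx, hTc x' hx'U] at h5
    have h6 := h2 x hx x' hx'
    have h7 := h3 x hx x' hx'
    omega
  have h5 : ∀ c : ℕ, ∑ x ∈ U, ∑ x' ∈ U.erase x, c = U.card * ((U.card - 1) * c) := by
    intro c
    have : ∀ x ∈ U, ∑ x' ∈ U.erase x, c = (U.card - 1) * c := by
      intro x hx
      rw [sum_const, smul_eq_mul, hcard x hx]
    rw [sum_congr rfl this, sum_const, smul_eq_mul]
  rw [h5] at h4
  refine h4.trans ?_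
  simp only [sum_add_distrib]
  have h6 := sum_swap U (fun x x' => m * ((if x' ∈ T x then 1 else 0) + dT G x (T x) x'))
  have h7 := sum_le_sum h1
  rw [sum_const, smul_eq_mul] at h7
  rw [h5 c]
  have h8 : c = (4 * (r + 1) - 1) * m := by
    have : 4 * (r + 1) - 1 = 4 * r + 3 := by omega
    rw [this, hc]
    ring
  rw [← h8]
  rw [h6]
  omega

end count

section main

variable {K : Type*} [Field K] {V : Type*} [DecidableEq V] [Fintype V] {s : ℕ}

/-- A cheap vertex in every set of at least `14 s` vertices. -/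
theorem cheap_vertex {x : V → Fin s → K} (hx : GenPos x) (hs : 1 ≤ s) {G : Finset (Finset V)}
    (hG : Covers G) (U : Finset V) (hU : 14 * s < U.card) :
    ∃ w ∈ U, finrank K (Sol G x w (U.erase w)) ≤ 7 * s ^ 2 := by
  classical
  by_contra hcon
  push Not at hcon
  have h1 : ∀ w ∈ U, ∃ T ⊆ U.erase w, T.card = 7 * s ∧
      ∑ v ∈ U.erase w, (dT G w T v - s) ≤ (s - 1) * (7 * s) := by
    intro w hw
    rcases greedy_seq hx hs G w (U.erase w) (7 * s) with h | h
    · have := hcon w hw
      have h2 : s * (7 * s) = 7 * s ^ 2 := by ring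
      omega
    · exact h
  choose! T hTU hTc hT using h1
  have h2 := count_main hG U hs T hTU hTc (fun x hxU S hS => by
    have h3 : ∑ v ∈ S, dT G x (T x) v ≤ ∑ v ∈ S, (s + (dT G x (T x) v - s)) :=
      sum_le_sum fun v _ => by omega
    rw [sum_add_distrib, sum_const, smul_eq_mul, mul_comm S.card] at h3
    have h4 : ∑ v ∈ S, (dT G x (T x) v - s) ≤ ∑ v ∈ U.erase x, (dT G x (T x) v - s) :=
      sum_le_sum_of_subset hS
    have h5 := hT x hxU
    omega)
  obtain ⟨n, hn⟩ : ∃ n, U.card = n + 1 := ⟨U.card - 1, by omega⟩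
  rw [hn, Nat.add_sub_cancel] at h2
  obtain ⟨r, rfl⟩ : ∃ r, s = r + 1 := ⟨s - 1, by omega⟩
  have h3 : 4 * (r + 1) - 1 = 4 * r + 3 := by omega
  rw [h3] at h2
  have h4 : (n + 1) * (7 * (r + 1)) * (n * (7 * (r + 1))) ≤
      (n + 1) * (7 * (r + 1)) * (2 * ((r + 1) * n + (r + 1) * (7 * (r + 1))) + n * (4 * r + 3)) := by
    linarith
  have h5 := Nat.le_of_mul_le_mul_left h4 (by positivity)
  have h6 : 14 * (r + 1) ≤ n := by omega
  nlinarith

/-- The kernel has dimension at most `7 s ^ 2 |U|`. -/
theorem YSp_uniform {x : V → Fin s → K} (hx : GenPos x) (hs : 1 ≤ s) {G : Finset (Finset V)}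
    (hG : Covers G) (U : Finset V) : finrank K (YSp G x U) ≤ 7 * s ^ 2 * U.card := by
  have key : ∀ m : ℕ, ∀ U : Finset V, U.card = m → finrank K (YSp G x U) ≤ 7 * s ^ 2 * m := by
    intro m
    induction m with
    | zero =>
      intro U hU
      rw [Finset.card_eq_zero.1 hU, finrank_YSp_empty]
      exact Nat.zero_le _
    | succ m ih =>
      intro U hU
      rcases Nat.lt_or_ge (14 * s) U.card with h | h
      · obtain ⟨v, hv, hgood⟩ := cheap_vertex hx hs hG U h
        have h1 := finrank_YSp_insert_le G x (U.erase v) v (Finset.notMem_erase v U)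
        rw [Finset.insert_erase hv] at h1
        have h2 := ih (U.erase v) (by rw [Finset.card_erase_of_mem hv, hU]; rfl)
        rw [Nat.mul_succ]
        omega
      · -- small sets
        have hchoose : ∀ W : Finset V, 2 * finrank K (YSp G x W) ≤ s * (W.card * (W.card - 1)) := by
          intro W
          induction W using Finset.induction_on with
          | empty => rw [finrank_YSp_empty]; simp
          | insert v W hv ihW =>
            have h1 := finrank_YSp_insert_le G x W v hv
            have h2 := finrank_Sol_le_card G x v W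
            rw [Finset.card_insert_of_notMem hv, Nat.add_sub_cancel]
            have h3 : W.card * (W.card - 1) + 2 * W.card ≤ (W.card + 1) * W.card := by
              rcases Nat.eq_zero_or_pos W.card with h0 | h0
              · rw [h0]
              · obtain ⟨k, hk⟩ : ∃ k, W.card = k + 1 := ⟨W.card - 1, by omega⟩
                rw [hk, Nat.add_sub_cancel]
                nlinarith
            have h4 := Nat.mul_le_mul_left s h3
            rw [mul_add] at h4
            have h5 : s * (2 * W.card) = 2 * (s * W.card) := by ring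
            omega
        have h1 := hchoose U
        rw [hU, Nat.add_sub_cancel] at h1
        have h2 : m ≤ 14 * s := by omega
        have h3 : s * ((m + 1) * m) ≤ s * ((m + 1) * (14 * s)) :=
          Nat.mul_le_mul_left _ (Nat.mul_le_mul_left _ h2)
        have h4 : s * ((m + 1) * (14 * s)) = 2 * (7 * s ^ 2 * (m + 1)) := by ring
        omega
  exact key U.card U rfl

end main

end KalaiRank
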